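import Pool.Agent.W217.BE.Stm2

/-!
Project BE, second wave, part REGR1: lines in direction 0 give a grading by the other degrees.
-/

set_option autoImplicit false

namespace Pool.Agent.W661.BEREGR1

open Pool.Agent.W217.BE

theorem main : REGR1 := by
  intro A _ k M _ _ ℳ hM
  rw [DirectSum.isInternal_submodule_iff_iSupIndep_and_iSup_eq_top] at hM ⊢
  obtain ⟨hi, ht⟩ := hM
  constructor
  · intro b
    have h1 : Disjoint (⨆ a ∈ {a : Fin (k + 1) → ℤ | Fin.tail a = b}, ℳ a)
        (⨆ a ∈ {a : Fin (k + 1) → ℤ | Fin.tail a ≠ b}, ℳ a) := by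
      apply hi.disjoint_biSup_biSup
      rw [Set.disjoint_left]
      intro a h1 h2
      exact h2 h1
    refine h1.mono ?_ ?_
    · refine iSup_le fun t => ?_
      exact le_iSup₂_of_le (Fin.cons t b : Fin (k + 1) → ℤ) (Fin.tail_cons _ _) le_rfl
    · refine iSup₂_le fun b' hb' => ?_
      refine iSup_le fun t => ?_
      refine le_iSup₂_of_le (Fin.cons t b' : Fin (k + 1) → ℤ) ?_ le_rfl
      change Fin.tail (Fin.cons t b' : Fin (k + 1) → ℤ) ≠ b
      rw [Fin.tail_cons]
      exact hb'
  · rw [eq_top_iff, ← ht]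
    refine iSup_le fun a => ?_
    refine le_iSup_of_le (Fin.tail a) ?_
    refine le_iSup_of_le (a 0) ?_
    rw [Fin.cons_self_tail]

end Pool.Agent.W661.BEREGR1
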