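import Mathlib

/-! # An algebraic obstruction to dilations -/

set_option autoImplicit false

namespace Pool.Agent.W661.Dil

open Matrix

variable {ι : Type*} [Fintype ι] [DecidableEq ι]
variable {R : Type*} [Ring R] [StarRing R] [Algebra ℂ R]

/-- matrix units -/
abbrev E (x y : ι) : Matrix ι ι ℂ := single x y 1

lemma E_mul_same (x y z : ι) : (E x y * E y z : Matrix ι ι ℂ) = E x z := by
  simp [E]

lemma E_mul_ne (x y y' z : ι) (h : y ≠ y') : (E x y * E y' z : Matrix ι ι ℂ) = 0 := by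
  simp [E, h]

lemma star_E (x y : ι) : star (E x y : Matrix ι ι ℂ) = E y x := by
  simp [E, star_eq_conjTranspose]

lemma sum_E : ∑ k : ι, (E k k : Matrix ι ι ℂ) = 1 := by
  ext a b
  simp only [Matrix.sum_apply, E, Matrix.single_apply, Matrix.one_apply]
  by_cases h : a = b
  · subst h; simp
  · simp only [h, if_false]
    apply Finset.sum_eq_zero
    intro k _
    rw [if_neg]
    rintro ⟨rfl, rfl⟩
    exact h rfl

/-- an element intertwining `θ` with the identity on the corner -/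
structure Fib (j : Matrix ι ι ℂ →⋆ₙₐ[ℂ] R) (θ : R →⋆ₙₐ[ℂ] R) (f : R) : Prop where
  tw : ∀ M, θ (j M) * f = f * j M
  rt : f * j 1 = f

/-- component of `p` -/
lemma exists_fib (j : Matrix ι ι ℂ →⋆ₙₐ[ℂ] R) (θ : R →⋆ₙₐ[ℂ] R) (T : Matrix ι ι ℂ → Matrix ι ι ℂ)
    (hT : ∀ M, j 1 * θ (j M) * j 1 = j (T M)) (L : Matrix ι ι ℂ) (x₀ y₀ : ι)
    (h : ∀ k, T (E k x₀) = Lᴴ * E k x₀ * L) (hL : L * E y₀ y₀ = E x₀ y₀) :
    ∃ f : R, Fib j θ f ∧ star f * f = j 1 ∧ j 1 * f = j Lᴴ := by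
  have hjm : ∀ M N, j M * j N = j (M * N) := fun M N => (map_mul j M N).symm
  have hLE : ∀ k, L * E y₀ k = E x₀ k := by
    intro k
    rw [← E_mul_same y₀ y₀ k, ← mul_assoc, hL, E_mul_same]
  refine ⟨∑ k, θ (j (E k x₀)) * j (E y₀ k), ⟨?_, ?_⟩, ?_, ?_⟩
  · -- enough on matrix units
    have hE : ∀ a b : ι, θ (j (E a b)) * ∑ k, θ (j (E k x₀)) * j (E y₀ k) =
        (∑ k, θ (j (E k x₀)) * j (E y₀ k)) * j (E a b) := by
      intro a b
      have e1 : θ (j (E a b)) * ∑ k, θ (j (E k x₀)) * j (E y₀ k) =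
          θ (j (E a x₀)) * j (E y₀ b) := by
        rw [Finset.mul_sum, Finset.sum_eq_single b]
        · rw [← mul_assoc, ← map_mul θ, hjm, E_mul_same]
        · intro k _ hk
          rw [← mul_assoc, ← map_mul θ, hjm, E_mul_ne _ _ _ _ (Ne.symm hk), map_zero, map_zero,
            zero_mul]
        · intro hb
          exact absurd (Finset.mem_univ _) hb
      have e2 : (∑ k, θ (j (E k x₀)) * j (E y₀ k)) * j (E a b) =
          θ (j (E a x₀)) * j (E y₀ b) := by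
        rw [Finset.sum_mul, Finset.sum_eq_single a]
        · rw [mul_assoc, hjm, E_mul_same]
        · intro k _ hk
          rw [mul_assoc, hjm, E_mul_ne _ _ _ _ hk, map_zero, mul_zero]
        · intro hb
          exact absurd (Finset.mem_univ _) hb
      rw [e1, e2]
    intro M
    have hM : M = ∑ a, ∑ b, M a b • E a b := by
      conv_lhs => rw [matrix_eq_sum_single M]
      refine Finset.sum_congr rfl fun a _ => Finset.sum_congr rfl fun b _ => ?_
      simp [E]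
    conv_lhs => rw [hM]
    conv_rhs => rw [hM]
    simp only [map_sum, map_smul]
    rw [Finset.sum_mul, Finset.mul_sum]
    refine Finset.sum_congr rfl fun a _ => ?_
    rw [Finset.sum_mul, Finset.mul_sum]
    refine Finset.sum_congr rfl fun b _ => ?_
    rw [smul_mul_assoc, mul_smul_comm, hE]
  · rw [Finset.sum_mul]
    refine Finset.sum_congr rfl fun k _ => ?_
    rw [mul_assoc, hjm, mul_one]
  · have e0 : star (∑ k, θ (j (E k x₀)) * j (E y₀ k)) = ∑ k, j (E k y₀) * θ (j (E x₀ k)) := by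
      rw [star_sum]
      refine Finset.sum_congr rfl fun k _ => ?_
      rw [star_mul, ← map_star, ← map_star, ← map_star, star_E, star_E]
    rw [e0, Finset.sum_mul]
    have e1 : ∀ k, j (E k y₀) * θ (j (E x₀ k)) * ∑ k', θ (j (E k' x₀)) * j (E y₀ k') = j (E k k) := by
      intro k
      rw [Finset.mul_sum, Finset.sum_eq_single k]
      · calc j (E k y₀) * θ (j (E x₀ k)) * (θ (j (E k x₀)) * j (E y₀ k))
            = j (E k y₀) * (θ (j (E x₀ k)) * θ (j (E k x₀))) * j (E y₀ k) := by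
              simp only [mul_assoc]
          _ = j (E k y₀) * (j 1 * θ (j (E x₀ x₀)) * j 1) * j (E y₀ k) := by
              rw [← map_mul θ, hjm, E_mul_same]
              have h1 : j (E k y₀) * j 1 = j (E k y₀) := by rw [hjm, mul_one]
              have h2 : j 1 * j (E y₀ k) = j (E y₀ k) := by rw [hjm, one_mul]
              calc _ = (j (E k y₀) * j 1) * θ (j (E x₀ x₀)) * (j 1 * j (E y₀ k)) := by rw [h1, h2]
                _ = _ := by simp only [mul_assoc]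
          _ = j (E k y₀ * (Lᴴ * E x₀ x₀ * L) * E y₀ k) := by rw [hT, h, hjm, hjm]
          _ = j (E k k) := by
              congr 1
              have h3 : (E k y₀ * Lᴴ : Matrix ι ι ℂ) = E k x₀ := by
                have := congrArg star (hLE k)
                rw [star_mul, star_E, star_E] at this
                exact this
              calc E k y₀ * (Lᴴ * E x₀ x₀ * L) * E y₀ k
                  = (E k y₀ * Lᴴ) * E x₀ x₀ * (L * E y₀ k) := by simp only [mul_assoc]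
                _ = E k k := by rw [h3, hLE, E_mul_same, E_mul_same]
      · intro k' _ hk'
        calc j (E k y₀) * θ (j (E x₀ k)) * (θ (j (E k' x₀)) * j (E y₀ k'))
            = j (E k y₀) * (θ (j (E x₀ k)) * θ (j (E k' x₀))) * j (E y₀ k') := by
              simp only [mul_assoc]
          _ = 0 := by
              rw [← map_mul θ, hjm, E_mul_ne _ _ _ _ (Ne.symm hk'), map_zero, map_zero, mul_zero,
                zero_mul]
      · intro hb
        exact absurd (Finset.mem_univ _) hb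
    simp_rw [e1]
    rw [← map_sum, sum_E]
  · rw [Finset.mul_sum]
    have e1 : ∀ k, j 1 * (θ (j (E k x₀)) * j (E y₀ k)) = j (Lᴴ * E k k) := by
      intro k
      have h2 : j 1 * j (E y₀ k) = j (E y₀ k) := by rw [hjm, one_mul]
      calc j 1 * (θ (j (E k x₀)) * j (E y₀ k)) = (j 1 * θ (j (E k x₀)) * j 1) * j (E y₀ k) := by
            conv_lhs => rw [← h2]
            simp only [mul_assoc]
        _ = j (Lᴴ * E k k) := by
            rw [hT, h, hjm]
            congr 1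
            calc Lᴴ * E k x₀ * L * E y₀ k = Lᴴ * (E k x₀ * (L * E y₀ k)) := by
                  simp only [mul_assoc]
              _ = _ := by rw [hLE, E_mul_same]
    simp_rw [e1]
    rw [← map_sum, ← Finset.mul_sum, sum_E, mul_one]

/-- the basic relation -/
lemma fib_rel (hR : ∀ x : R, star x * x = 0 → x = 0) (j : Matrix ι ι ℂ →⋆ₙₐ[ℂ] R)
    (f : R) (L : Matrix ι ι ℂ) (h1 : star f * f = j 1) (h2 : j 1 * f = j Lᴴ)
    (x y : ι) (c : ℤ) (hc : c * c = 1) (h : Lᴴ * E x y = (c : ℂ) • E y y) :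
    f * j (E x y) = c • j (E y y) := by
  have hjm : ∀ M N, j M * j N = j (M * N) := fun M N => (map_mul j M N).symm
  have hyy : j (E y y) * f * j (E x y) = c • j (E y y) := by
    have : j (E y y) * f = j (E y y) * (j 1 * f) := by
      rw [← mul_assoc, hjm, mul_one]
    rw [this, h2, hjm, hjm, mul_assoc, h]
    rw [mul_smul_comm, E_mul_same, map_smul]
    exact Int.cast_smul_eq_zsmul ℂ c _
  have hyy' : j (E y x) * star f * j (E y y) = c • j (E y y) := by
    have := congrArg star hyy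
    rw [star_mul, star_mul, ← map_star, ← map_star, star_E, star_E, star_zsmul, ← map_star, star_E,
      ← mul_assoc] at this
    exact this
  have hxx : j (E y x) * star f * (f * j (E x y)) = j (E y y) := by
    calc _ = j (E y x) * (star f * f) * j (E x y) := by simp only [mul_assoc]
      _ = _ := by rw [h1, hjm, hjm, mul_one, E_mul_same]
  rw [← sub_eq_zero]
  apply hR
  have hs : star (f * j (E x y) - c • j (E y y)) = j (E y x) * star f - c • j (E y y) := by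
    rw [star_sub, star_mul, star_zsmul, ← map_star, ← map_star, star_E, star_E]
  rw [hs, sub_mul, mul_sub, mul_sub, hxx, mul_smul_comm, hyy', smul_mul_assoc, ← mul_assoc, hyy,
    smul_mul_assoc, mul_smul_comm, hjm, E_mul_same, smul_smul, hc, one_smul]
  abel

/-- product of fibre elements -/
lemma Fib.mul {j : Matrix ι ι ℂ →⋆ₙₐ[ℂ] R} {θ θ' : R →⋆ₙₐ[ℂ] R} {f g : R}
    (hf : Fib j θ f) (hg : Fib j θ' g) (hcomm : ∀ x, θ (θ' x) = θ' (θ x)) :
    (∀ M, θ (θ' (j M)) * (θ' f * g) = (θ' f * g) * j M) ∧ (θ' f * g) * j 1 = θ' f * g := by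
  refine ⟨fun M => ?_, ?_⟩
  · rw [hcomm, ← mul_assoc, ← map_mul θ', hf.tw, map_mul, mul_assoc, hg.tw, mul_assoc]
  · rw [mul_assoc, hg.rt]

/-- path rule -/
lemma path {j : Matrix ι ι ℂ →⋆ₙₐ[ℂ] R} {θ' : R →⋆ₙₐ[ℂ] R} {f g : R}
    (hg : Fib j θ' g) (y y₁ x : ι) (c d : ℤ) (hd : d * d = 1) (h1 : g * j (E y₁ y) = d • j (E y y))
    (h2 : f * j (E x y₁) = c • j (E y₁ y₁)) :
    (θ' f * g) * j (E x y) = (c * d) • j (E y y) := by
  have hjm : ∀ M N, j M * j N = j (M * N) := fun M N => (map_mul j M N).symm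
  calc (θ' f * g) * j (E x y) = θ' f * (g * j (E x y₁)) * j (E y₁ y) := by
        rw [← E_mul_same x y₁ y, ← hjm]; simp only [mul_assoc]
    _ = θ' (f * j (E x y₁)) * (g * j (E y₁ y)) := by
        rw [← hg.tw, map_mul]; simp only [mul_assoc]
    _ = (c * d) • (θ' (j (E y₁ y₁)) * j (E y y)) := by
        rw [h1, h2, map_zsmul, smul_mul_assoc, mul_smul_comm, smul_smul]
    _ = (c * d) • (d • (θ' (j (E y₁ y₁)) * (g * j (E y₁ y)))) := by
        rw [h1, mul_smul_comm, smul_smul d, hd, one_smul]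
    _ = (c * d) • (d • (g * j (E y₁ y))) := by
        rw [← mul_assoc, hg.tw, mul_assoc, hjm, E_mul_same]
    _ = (c * d) • j (E y y) := by
        rw [h1, smul_smul d, hd, one_smul]

/-- two elements of the fibre of `θ θ'` which agree on a matrix unit are equal -/
lemma fib_ext {j : Matrix ι ι ℂ →⋆ₙₐ[ℂ] R} {φ : R → R} (z z' : R)
    (hz : ∀ M, φ (j M) * z = z * j M) (hz1 : z * j 1 = z)
    (hz' : ∀ M, φ (j M) * z' = z' * j M) (hz1' : z' * j 1 = z')
    (x y : ι) (h : z * j (E x y) = z' * j (E x y)) : z = z' := by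
  have hjm : ∀ M N, j M * j N = j (M * N) := fun M N => (map_mul j M N).symm
  have key : ∀ k, z * j (E k k) = z' * j (E k k) := by
    intro k
    have e : (E k k : Matrix ι ι ℂ) = E k x * (E x y * E y k) := by
      rw [E_mul_same, E_mul_same]
    have e1 : ∀ w : R, (∀ M, φ (j M) * w = w * j M) →
        w * j (E k k) = φ (j (E k x)) * (w * j (E x y)) * j (E y k) := by
      intro w hw
      rw [e, ← hjm, ← hjm, ← mul_assoc w, ← hw]
      simp only [mul_assoc]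
    rw [e1 z hz, e1 z' hz', h]
  calc z = z * j 1 := hz1.symm
    _ = ∑ k, z * j (E k k) := by rw [← sum_E, map_sum, Finset.mul_sum]
    _ = ∑ k, z' * j (E k k) := Finset.sum_congr rfl fun k _ => key k
    _ = z' * j 1 := by rw [← sum_E, map_sum, Finset.mul_sum]
    _ = z' := hz1'

/-- The obstruction. -/
theorem no_dil (hR : ∀ x : R, star x * x = 0 → x = 0) (j : Matrix ι ι ℂ →⋆ₙₐ[ℂ] R)
    (hj : j 1 ≠ 0)
    (θ₁ θ₂ θ₃ : R →⋆ₙₐ[ℂ] R) (h12 : ∀ x, θ₁ (θ₂ x) = θ₂ (θ₁ x)) (h13 : ∀ x, θ₁ (θ₃ x) = θ₃ (θ₁ x))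
    (h23 : ∀ x, θ₂ (θ₃ x) = θ₃ (θ₂ x))
    (f₁ f₂ g₁ g₂ : R) (hf₁ : Fib j θ₁ f₁) (hf₂ : Fib j θ₂ f₂) (hg₁ : Fib j θ₃ g₁)
    (hg₂ : Fib j θ₃ g₂)
    (n1 : star f₁ * f₁ = j 1) (n2 : star f₂ * f₂ = j 1) (n4 : star g₂ * g₂ = j 1)
    (r1 : θ₃ f₁ * g₁ = θ₁ g₁ * f₁) (r2 : θ₃ f₁ * g₂ = -(θ₁ g₂ * f₁))
    (r3 : θ₃ f₂ * g₁ = θ₂ g₂ * f₂) (r5 : θ₂ f₁ * f₂ = θ₁ f₂ * f₁) : False := by
  have A : θ₂ (θ₃ f₁) * (θ₃ f₂ * g₁) = -(θ₁ (θ₂ g₂) * (θ₂ f₁ * f₂)) := by
    calc θ₂ (θ₃ f₁) * (θ₃ f₂ * g₁) = θ₂ (θ₃ f₁ * g₂) * f₂ := by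
          rw [r3, map_mul, mul_assoc]
      _ = -(θ₁ (θ₂ g₂) * (θ₂ f₁ * f₂)) := by
          rw [r2, map_neg, map_mul, neg_mul, mul_assoc, h12]
  have B : θ₂ (θ₃ f₁) * (θ₃ f₂ * g₁) = θ₁ (θ₂ g₂) * (θ₂ f₁ * f₂) := by
    calc θ₂ (θ₃ f₁) * (θ₃ f₂ * g₁) = θ₃ (θ₂ f₁ * f₂) * g₁ := by
          rw [map_mul, h23, mul_assoc]
      _ = θ₁ (θ₃ f₂) * (θ₃ f₁ * g₁) := by
          rw [r5, map_mul, ← h13, mul_assoc]
      _ = θ₁ (θ₃ f₂ * g₁) * f₁ := by rw [r1, map_mul, mul_assoc]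
      _ = θ₁ (θ₂ g₂) * (θ₁ f₂ * f₁) := by rw [r3, map_mul, mul_assoc]
      _ = _ := by rw [r5]
  have Z : θ₁ (θ₂ g₂) * (θ₂ f₁ * f₂) = 0 := by
    have h := A.symm.trans B
    have h2 : (2 : ℂ) • (θ₁ (θ₂ g₂) * (θ₂ f₁ * f₂)) = 0 := by
      rw [two_smul]
      nth_rewrite 1 [← h]
      exact neg_add_cancel _
    exact (smul_eq_zero.1 h2).resolve_left two_ne_zero
  apply hj
  have s1 : θ₁ (j 1) * f₁ = f₁ := by rw [hf₁.tw, hf₁.rt]
  have s2 : θ₂ (j 1) * f₂ = f₂ := by rw [hf₂.tw, hf₂.rt]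
  calc j 1 = star f₂ * (θ₂ (j 1) * f₂) := by rw [s2, n2]
    _ = star f₂ * (θ₂ (star f₁ * (θ₁ (j 1) * f₁)) * f₂) := by rw [s1, n1]
    _ = star f₂ * (θ₂ (star f₁) * (θ₂ (θ₁ (star g₂ * g₂)) * (θ₂ f₁ * f₂))) := by
        rw [n4]; simp only [map_mul, mul_assoc]
    _ = star f₂ * (θ₂ (star f₁) * (θ₂ (θ₁ (star g₂)) * (θ₁ (θ₂ g₂) * (θ₂ f₁ * f₂)))) := by
        simp only [map_mul, mul_assoc, h12]
    _ = 0 := by rw [Z]; simp

end Pool.Agent.W661.Dil
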