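import Pool.Agent.W661.Dil

/-! # The explicit commuting maps -/

set_option autoImplicit false

namespace Pool.Agent.W661.Dil

open Matrix
open scoped CStarAlgebra ComplexOrder

/-! ## Kraus maps are completely positive -/

section Kraus

variable {A : Type*} [CStarAlgebra A] [PartialOrder A] [StarOrderedRing A]

omit [PartialOrder A] [StarOrderedRing A] in
lemma cstar_sum_apply {κ : Type*} (s : Finset κ) {n : ℕ}
    (f : κ → CStarMatrix (Fin n) (Fin n) A) (i j : Fin n) :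
    (∑ k ∈ s, f k) i j = ∑ k ∈ s, f k i j := by
  classical
  induction s using Finset.induction_on with
  | empty => simp
  | insert a s ha ih => rw [Finset.sum_insert ha, Finset.sum_insert ha, CStarMatrix.add_apply, ih]

set_option backward.isDefEq.respectTransparency false in
lemma kraus_nonneg {κ : Type*} [Fintype κ] (V : κ → A) (n : ℕ) (M : CStarMatrix (Fin n) (Fin n) A)
    (hM : 0 ≤ M) : 0 ≤ M.map (fun a => ∑ k, star (V k) * a * V k) := by
  obtain ⟨N, rfl⟩ := CStarAlgebra.nonneg_iff_eq_star_mul_self.1 hM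
  have e : (star N * N).map (fun a => ∑ k, star (V k) * a * V k) =
      ∑ k, star (CStarMatrix.ofMatrix (fun i j => N i j * V k)) *
        CStarMatrix.ofMatrix (fun i j => N i j * V k) := by
    ext i j
    rw [cstar_sum_apply]
    simp only [CStarMatrix.map_apply, CStarMatrix.mul_apply, CStarMatrix.star_apply,
      CStarMatrix.ofMatrix_apply, star_mul, Finset.mul_sum, Finset.sum_mul, mul_assoc]
  rw [e]
  exact Finset.sum_nonneg fun k _ => star_mul_self_nonneg _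

/-- the completely positive map `a ↦ ∑ V_k* a V_k` -/
noncomputable def kraus {κ : Type*} [Fintype κ] (V : κ → A) : A →CP A where
  toFun a := ∑ k, star (V k) * a * V k
  map_add' a b := by
    rw [← Finset.sum_add_distrib]
    exact Finset.sum_congr rfl fun k _ => by rw [mul_add, add_mul]
  map_smul' c a := by
    rw [RingHom.id_apply, Finset.smul_sum]
    exact Finset.sum_congr rfl fun k _ => by rw [mul_smul_comm, smul_mul_assoc]
  map_cstarMatrix_nonneg' n M hM := kraus_nonneg V n M hM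

lemma kraus_apply {κ : Type*} [Fintype κ] (V : κ → A) (a : A) :
    kraus V a = ∑ k, star (V k) * a * V k := rfl

end Kraus

/-! ## The matrices -/

lemma E_mul {ι : Type*} [Fintype ι] [DecidableEq ι] (x y y' z : ι) :
    (E x y * E y' z : Matrix ι ι ℂ) = if y = y' then E x z else 0 := by
  split_ifs with h
  · subst h; exact E_mul_same _ _ _
  · exact E_mul_ne _ _ _ _ h

/-- Kraus operators: two operators `L k` and the operators `|w><m|` -/
noncomputable def VV (L L' : Matrix (Fin 10) (Fin 10) ℂ) (c : Fin 10 → Bool) :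
    Fin 2 ⊕ Fin 10 → Matrix (Fin 10) (Fin 10) ℂ :=
  Sum.elim ![L, L'] (fun m => if c m then E 9 m else 0)

/-- the completely positive map on matrices -/
noncomputable def TT (L L' : Matrix (Fin 10) (Fin 10) ℂ) (c : Fin 10 → Bool)
    (M : Matrix (Fin 10) (Fin 10) ℂ) : Matrix (Fin 10) (Fin 10) ℂ :=
  ∑ k, star (VV L L' c k) * M * VV L L' c k

lemma E_mul_mul (M : Matrix (Fin 10) (Fin 10) ℂ) (a b c d : Fin 10) :
    E a b * M * E c d = M b c • (E a d : Matrix (Fin 10) (Fin 10) ℂ) := by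
  have h : M = ∑ p, ∑ q, M p q • (E p q : Matrix (Fin 10) (Fin 10) ℂ) := by
    conv_lhs => rw [matrix_eq_sum_single M]
    refine Finset.sum_congr rfl fun a _ => Finset.sum_congr rfl fun b _ => ?_
    simp [E]
  conv_lhs => rw [h]
  rw [Finset.mul_sum, Finset.sum_mul, Finset.sum_eq_single b]
  · rw [Finset.mul_sum, Finset.sum_mul, Finset.sum_eq_single c]
    · rw [Matrix.mul_smul, Matrix.smul_mul, E_mul_same, E_mul_same]
    · intro q _ hq
      rw [Matrix.mul_smul, Matrix.smul_mul, E_mul_same, E_mul_ne _ _ _ _ hq, smul_zero]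
    · simp
  · intro p _ hp
    rw [Finset.mul_sum, Finset.sum_mul]
    apply Finset.sum_eq_zero
    intro q _
    rw [Matrix.mul_smul, Matrix.smul_mul, E_mul_ne _ _ _ _ (Ne.symm hp), zero_mul, smul_zero]
  · simp

/-- the projection killed by the `L`s -/
noncomputable def PP (c : Fin 10 → Bool) : Matrix (Fin 10) (Fin 10) ℂ :=
  ∑ m, if c m then E m m else 0

lemma TT_eq (L L' : Matrix (Fin 10) (Fin 10) ℂ) (c : Fin 10 → Bool)
    (M : Matrix (Fin 10) (Fin 10) ℂ) :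
    TT L L' c M = Lᴴ * M * L + L'ᴴ * M * L' + M 9 9 • PP c := by
  unfold TT PP VV
  rw [Fintype.sum_sum_type, Fin.sum_univ_two, Finset.smul_sum]
  simp only [Sum.elim_inl, Sum.elim_inr, Matrix.cons_val_zero, Matrix.cons_val_one,
    Matrix.star_eq_conjTranspose]
  congr 1
  refine Finset.sum_congr rfl fun m _ => ?_
  by_cases h : c m
  · simp only [h, if_true]
    rw [← Matrix.star_eq_conjTranspose, star_E, E_mul_mul]
  · simp [h]

/-- good data -/
structure Good (L L' : Matrix (Fin 10) (Fin 10) ℂ) (c : Fin 10 → Bool) : Prop where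
  w1 : L * E 9 9 = 0
  w1' : L' * E 9 9 = 0
  c9 : c 9 = true
  sum : Lᴴ * L + L'ᴴ * L' + PP c = 1

lemma TT_one {L L' : Matrix (Fin 10) (Fin 10) ℂ} {c : Fin 10 → Bool} (h : Good L L' c) :
    TT L L' c 1 = 1 := by
  rw [TT_eq]
  simp only [mul_one, Matrix.one_apply_eq, one_smul]
  exact h.sum

lemma PP_99 {c : Fin 10 → Bool} (h : c 9 = true) : PP c 9 9 = 1 := by
  unfold PP
  rw [Matrix.sum_apply, Finset.sum_eq_single 9]
  · simp [h, E]
  · intro b _ hb
    by_cases hc : c b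
    · simp [hc, E, Matrix.single_apply, hb]
    · simp [hc]
  · simp

lemma conj_99 {L : Matrix (Fin 10) (Fin 10) ℂ} (h : L * E 9 9 = 0)
    (M : Matrix (Fin 10) (Fin 10) ℂ) : (Lᴴ * M * L) 9 9 = 0 := by
  have e : E 9 9 * (Lᴴ * M * L) * E 9 9 = 0 := by
    calc E 9 9 * (Lᴴ * M * L) * E 9 9 = E 9 9 * Lᴴ * M * (L * E 9 9) := by simp only [mul_assoc]
      _ = 0 := by rw [h, mul_zero]
  rw [E_mul_mul] at e
  have := congrFun (congrFun e 9) 9
  simpa [E] using this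

lemma TT_99 {L L' : Matrix (Fin 10) (Fin 10) ℂ} {c : Fin 10 → Bool} (h : Good L L' c)
    (M : Matrix (Fin 10) (Fin 10) ℂ) : TT L L' c M 9 9 = M 9 9 := by
  rw [TT_eq]
  simp only [Matrix.add_apply, Matrix.smul_apply, conj_99 h.w1, conj_99 h.w1', PP_99 h.c9]
  simp

lemma TT_comp {L L' K K' : Matrix (Fin 10) (Fin 10) ℂ} {c d : Fin 10 → Bool} (h : Good L L' c)
    (h' : Good K K' d) (M : Matrix (Fin 10) (Fin 10) ℂ) :
    TT L L' c (TT K K' d M) =
      (K * L)ᴴ * M * (K * L) + (K' * L)ᴴ * M * (K' * L) + (K * L')ᴴ * M * (K * L')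
        + (K' * L')ᴴ * M * (K' * L') +
      M 9 9 • (1 - ((K * L)ᴴ * (K * L) + (K' * L)ᴴ * (K' * L) + (K * L')ᴴ * (K * L')
        + (K' * L')ᴴ * (K' * L'))) := by
  have e1 : PP c = 1 - (Lᴴ * L + L'ᴴ * L') := eq_sub_of_add_eq' h.sum
  have e2 : PP d = 1 - (Kᴴ * K + K'ᴴ * K') := eq_sub_of_add_eq' h'.sum
  rw [TT_eq L L' c, TT_99 h', TT_eq K K' d, e1, e2]
  simp only [Matrix.conjTranspose_mul, mul_add, add_mul, mul_sub, sub_mul, mul_one, smul_add,
    smul_sub, Matrix.mul_smul, Matrix.smul_mul, mul_assoc]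
  abel

lemma TT_comm {L L' K K' : Matrix (Fin 10) (Fin 10) ℂ} {c d : Fin 10 → Bool} (h : Good L L' c)
    (h' : Good K K' d)
    (hc : ∀ M, (K * L)ᴴ * M * (K * L) + (K' * L)ᴴ * M * (K' * L) + (K * L')ᴴ * M * (K * L')
        + (K' * L')ᴴ * M * (K' * L') = (L * K)ᴴ * M * (L * K) + (L' * K)ᴴ * M * (L' * K) +
        (L * K')ᴴ * M * (L * K') + (L' * K')ᴴ * M * (L' * K'))
    (M : Matrix (Fin 10) (Fin 10) ℂ) :
    TT L L' c (TT K K' d M) = TT K K' d (TT L L' c M) := by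
  rw [TT_comp h h', TT_comp h' h, hc]
  have := hc 1
  simp only [mul_one] at this
  rw [this]

/-- `L₁` -/
noncomputable def L1 : Matrix (Fin 10) (Fin 10) ℂ := E 2 0 + E 3 1 + E 6 3 + E 7 4 + E 8 5
/-- `L₂` -/
noncomputable def L2 : Matrix (Fin 10) (Fin 10) ℂ := E 3 0 + E 6 2 - E 8 4
/-- `L₃₁` -/
noncomputable def L31 : Matrix (Fin 10) (Fin 10) ℂ := E 4 0 + E 7 2
/-- `L₃₂` -/
noncomputable def L32 : Matrix (Fin 10) (Fin 10) ℂ := E 5 1 - E 8 3

lemma E_H (x y : Fin 10) : (E x y : Matrix (Fin 10) (Fin 10) ℂ)ᴴ = E y x := star_E x y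

def c1 : Fin 10 → Bool := ![false, false, true, false, false, false, true, true, true, true]
def c2 : Fin 10 → Bool := ![false, true, false, true, false, true, true, true, true, true]
def c3 : Fin 10 → Bool := ![false, false, false, false, true, true, true, true, true, true]

lemma one_eq : (1 : Matrix (Fin 10) (Fin 10) ℂ) = E 0 0 + E 1 1 + E 2 2 + E 3 3 + E 4 4 + E 5 5
    + E 6 6 + E 7 7 + E 8 8 + E 9 9 := by
  rw [← sum_E]
  simp [Fin.sum_univ_succ, add_assoc]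

lemma good1 : Good L1 0 c1 := by
  refine ⟨?_, by simp, rfl, ?_⟩
  · simp only [L1, add_mul, E_mul]; simp
  · have hP : PP c1 = E 2 2 + E 6 6 + E 7 7 + E 8 8 + E 9 9 := by
      simp [PP, c1, Fin.sum_univ_succ, add_assoc]
    rw [hP, one_eq]
    simp only [L1, Matrix.conjTranspose_add, E_H, add_mul, mul_add, E_mul]
    simp
    abel

lemma good2 : Good L2 0 c2 := by
  refine ⟨?_, by simp, rfl, ?_⟩
  · simp only [L2, add_mul, sub_mul, E_mul]; simp
  · have hP : PP c2 = E 1 1 + E 3 3 + E 5 5 + E 6 6 + E 7 7 + E 8 8 + E 9 9 := by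
      simp [PP, c2, Fin.sum_univ_succ, add_assoc]
    rw [hP, one_eq]
    simp only [L2, Matrix.conjTranspose_add, Matrix.conjTranspose_sub, E_H, add_mul, mul_add,
      sub_mul, mul_sub, E_mul]
    simp
    abel

lemma good3 : Good L31 L32 c3 := by
  refine ⟨?_, ?_, rfl, ?_⟩
  · simp only [L31, add_mul, E_mul]; simp
  · simp only [L32, sub_mul, E_mul]; simp
  · have hP : PP c3 = E 4 4 + E 5 5 + E 6 6 + E 7 7 + E 8 8 + E 9 9 := by
      simp [PP, c3, Fin.sum_univ_succ, add_assoc]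
    rw [hP, one_eq]
    simp only [L31, L32, Matrix.conjTranspose_add, Matrix.conjTranspose_sub, E_H, add_mul, mul_add,
      sub_mul, mul_sub, E_mul]
    simp
    abel

lemma m12 : L1 * L2 = L2 * L1 := by
  simp only [L1, L2, add_mul, mul_add, sub_mul, mul_sub, E_mul]; simp

lemma m131 : L1 * L31 = L31 * L1 := by
  simp only [L1, L31, add_mul, mul_add, E_mul]; simp

lemma m132 : L1 * L32 = -(L32 * L1) := by
  simp only [L1, L32, add_mul, mul_add, sub_mul, mul_sub, E_mul]; simp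

lemma m231 : L2 * L31 = L32 * L2 := by
  simp only [L2, L31, L32, add_mul, mul_add, sub_mul, mul_sub, E_mul]; simp

lemma m232 : L2 * L32 = 0 := by
  simp only [L2, L32, add_mul, mul_add, sub_mul, mul_sub, E_mul]; simp

lemma m312 : L31 * L2 = 0 := by
  simp only [L2, L31, add_mul, mul_add, sub_mul, mul_sub, E_mul]; simp

lemma comm12 (M : Matrix (Fin 10) (Fin 10) ℂ) :
    TT L1 0 c1 (TT L2 0 c2 M) = TT L2 0 c2 (TT L1 0 c1 M) := by
  refine TT_comm good1 good2 (fun M => ?_) M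
  simp [m12]

lemma comm13 (M : Matrix (Fin 10) (Fin 10) ℂ) :
    TT L1 0 c1 (TT L31 L32 c3 M) = TT L31 L32 c3 (TT L1 0 c1 M) := by
  refine TT_comm good1 good3 (fun M => ?_) M
  simp only [m131, m132, Matrix.conjTranspose_neg, neg_mul, mul_neg, neg_neg, zero_mul, mul_zero,
    Matrix.conjTranspose_zero, add_zero]

lemma comm23 (M : Matrix (Fin 10) (Fin 10) ℂ) :
    TT L2 0 c2 (TT L31 L32 c3 M) = TT L31 L32 c3 (TT L2 0 c2 M) := by
  refine TT_comm good2 good3 (fun M => ?_) M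
  simp only [m231, m232, m312, zero_mul, mul_zero,
    Matrix.conjTranspose_zero, add_zero, zero_add]

/-! ## The contradiction -/

lemma TT_E (L L' : Matrix (Fin 10) (Fin 10) ℂ) (c : Fin 10 → Bool) (k x : Fin 10)
    (hx : x ≠ 9) (hL' : E x x * L' = 0) : TT L L' c (E k x) = Lᴴ * E k x * L := by
  have h : L'ᴴ * E k x * L' = 0 := by
    rw [← E_mul_same k x x, mul_assoc, mul_assoc, hL', mul_zero, mul_zero]
  rw [TT_eq, h]
  have : (E k x : Matrix (Fin 10) (Fin 10) ℂ) 9 9 = 0 := by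
    simp [E, Matrix.single_apply, hx]
  rw [this]
  simp

lemma TT_E' (L L' : Matrix (Fin 10) (Fin 10) ℂ) (c : Fin 10 → Bool) (k x : Fin 10)
    (hx : x ≠ 9) (hL : E x x * L = 0) : TT L L' c (E k x) = L'ᴴ * E k x * L' := by
  have h : Lᴴ * E k x * L = 0 := by
    rw [← E_mul_same k x x, mul_assoc, mul_assoc, hL, mul_zero, mul_zero]
  rw [TT_eq, h]
  have : (E k x : Matrix (Fin 10) (Fin 10) ℂ) 9 9 = 0 := by
    simp [E, Matrix.single_apply, hx]
  rw [this]
  simp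

theorem final {R : Type*} [Ring R] [StarRing R] [Algebra ℂ R]
    (hR : ∀ x : R, star x * x = 0 → x = 0) (j : Matrix (Fin 10) (Fin 10) ℂ →⋆ₙₐ[ℂ] R)
    (hj : j 1 ≠ 0)
    (θ₁ θ₂ θ₃ : R →⋆ₙₐ[ℂ] R) (h12 : ∀ x, θ₁ (θ₂ x) = θ₂ (θ₁ x)) (h13 : ∀ x, θ₁ (θ₃ x) = θ₃ (θ₁ x))
    (h23 : ∀ x, θ₂ (θ₃ x) = θ₃ (θ₂ x))
    (hT1 : ∀ M, j 1 * θ₁ (j M) * j 1 = j (TT L1 0 c1 M))
    (hT2 : ∀ M, j 1 * θ₂ (j M) * j 1 = j (TT L2 0 c2 M))
    (hT3 : ∀ M, j 1 * θ₃ (j M) * j 1 = j (TT L31 L32 c3 M)) : False := by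
  obtain ⟨f₁, F₁, N₁, P₁⟩ := exists_fib j θ₁ _ hT1 L1 2 0
    (fun k => TT_E _ _ _ _ _ (by decide) (by simp)) (by
      simp only [L1, add_mul, E_mul]; simp)
  obtain ⟨f₂, F₂, N₂, P₂⟩ := exists_fib j θ₂ _ hT2 L2 3 0
    (fun k => TT_E _ _ _ _ _ (by decide) (by simp)) (by
      simp only [L2, add_mul, sub_mul, E_mul]; simp)
  obtain ⟨g₁, G₁, M₁, Q₁⟩ := exists_fib j θ₃ _ hT3 L31 4 0
    (fun k => TT_E _ _ _ _ _ (by decide) (by
      simp only [L32, mul_sub, E_mul]; simp)) (by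
      simp only [L31, add_mul, E_mul]; simp)
  obtain ⟨g₂, G₂, M₂, Q₂⟩ := exists_fib j θ₃ _ hT3 L32 5 1
    (fun k => TT_E' _ _ _ _ _ (by decide) (by
      simp only [L31, mul_add, E_mul]; simp)) (by
      simp only [L32, sub_mul, E_mul]; simp)
  have a1 : f₁ * j (E 2 0) = (1 : ℤ) • j (E 0 0) := fib_rel hR j f₁ L1 N₁ P₁ 2 0 1 (by norm_num) (by
    simp only [L1, Matrix.conjTranspose_add, E_H, add_mul, E_mul]; simp)
  have a2 : f₁ * j (E 3 1) = (1 : ℤ) • j (E 1 1) := fib_rel hR j f₁ L1 N₁ P₁ 3 1 1 (by norm_num) (by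
    simp only [L1, Matrix.conjTranspose_add, E_H, add_mul, E_mul]; simp)
  have a3 : f₁ * j (E 6 3) = (1 : ℤ) • j (E 3 3) := fib_rel hR j f₁ L1 N₁ P₁ 6 3 1 (by norm_num) (by
    simp only [L1, Matrix.conjTranspose_add, E_H, add_mul, E_mul]; simp)
  have a4 : f₁ * j (E 7 4) = (1 : ℤ) • j (E 4 4) := fib_rel hR j f₁ L1 N₁ P₁ 7 4 1 (by norm_num) (by
    simp only [L1, Matrix.conjTranspose_add, E_H, add_mul, E_mul]; simp)
  have a5 : f₁ * j (E 8 5) = (1 : ℤ) • j (E 5 5) := fib_rel hR j f₁ L1 N₁ P₁ 8 5 1 (by norm_num) (by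
    simp only [L1, Matrix.conjTranspose_add, E_H, add_mul, E_mul]; simp)
  have b1 : f₂ * j (E 3 0) = (1 : ℤ) • j (E 0 0) := fib_rel hR j f₂ L2 N₂ P₂ 3 0 1 (by norm_num) (by
    simp only [L2, Matrix.conjTranspose_add, Matrix.conjTranspose_sub, E_H, add_mul, sub_mul,
      E_mul]; simp)
  have b2 : f₂ * j (E 6 2) = (1 : ℤ) • j (E 2 2) := fib_rel hR j f₂ L2 N₂ P₂ 6 2 1 (by norm_num) (by
    simp only [L2, Matrix.conjTranspose_add, Matrix.conjTranspose_sub, E_H, add_mul, sub_mul,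
      E_mul]; simp)
  have b3 : f₂ * j (E 8 4) = (-1 : ℤ) • j (E 4 4) := fib_rel hR j f₂ L2 N₂ P₂ 8 4 (-1)
    (by norm_num) (by
    simp only [L2, Matrix.conjTranspose_add, Matrix.conjTranspose_sub, E_H, add_mul, sub_mul,
      E_mul]; simp)
  have d1 : g₁ * j (E 4 0) = (1 : ℤ) • j (E 0 0) := fib_rel hR j g₁ L31 M₁ Q₁ 4 0 1 (by norm_num) (by
    simp only [L31, Matrix.conjTranspose_add, E_H, add_mul, E_mul]; simp)
  have d2 : g₁ * j (E 7 2) = (1 : ℤ) • j (E 2 2) := fib_rel hR j g₁ L31 M₁ Q₁ 7 2 1 (by norm_num) (by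
    simp only [L31, Matrix.conjTranspose_add, E_H, add_mul, E_mul]; simp)
  have e1 : g₂ * j (E 5 1) = (1 : ℤ) • j (E 1 1) := fib_rel hR j g₂ L32 M₂ Q₂ 5 1 1 (by norm_num) (by
    simp only [L32, Matrix.conjTranspose_sub, E_H, sub_mul, E_mul]; simp)
  have e2 : g₂ * j (E 8 3) = (-1 : ℤ) • j (E 3 3) := fib_rel hR j g₂ L32 M₂ Q₂ 8 3 (-1)
    (by norm_num) (by
    simp only [L32, Matrix.conjTranspose_sub, E_H, sub_mul, E_mul]; simp)
  -- relations
  have r1 : θ₃ f₁ * g₁ = θ₁ g₁ * f₁ := by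
    have A := F₁.mul G₁ h13
    have B := G₁.mul F₁ (fun x => (h13 x).symm)
    refine fib_ext (j := j) (φ := fun x => θ₁ (θ₃ x)) _ _ A.1 A.2
      (fun M => by rw [h13]; exact B.1 M) B.2 7 0 ?_
    rw [path G₁ 0 4 7 1 1 (by norm_num) d1 a4, path F₁ 0 2 7 1 1 (by norm_num) a1 d2]
  have r2 : θ₃ f₁ * g₂ = -(θ₁ g₂ * f₁) := by
    have A := F₁.mul G₂ h13
    have B := G₂.mul F₁ (fun x => (h13 x).symm)
    refine fib_ext (j := j) (φ := fun x => θ₁ (θ₃ x)) _ _ A.1 A.2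
      (fun M => by
        have := B.1 M
        rw [h13, mul_neg, neg_mul, this]) (by rw [neg_mul, B.2]) 8 1 ?_
    rw [neg_mul, path G₂ 1 5 8 1 1 (by norm_num) e1 a5, path F₁ 1 3 8 (-1) 1 (by norm_num) a2 e2]
    simp
  have r3 : θ₃ f₂ * g₁ = θ₂ g₂ * f₂ := by
    have A := F₂.mul G₁ h23
    have B := G₂.mul F₂ (fun x => (h23 x).symm)
    refine fib_ext (j := j) (φ := fun x => θ₂ (θ₃ x)) _ _ A.1 A.2
      (fun M => by rw [h23]; exact B.1 M) B.2 8 0 ?_
    rw [path G₁ 0 4 8 (-1) 1 (by norm_num) d1 b3, path F₂ 0 3 8 (-1) 1 (by norm_num) b1 e2]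
  have r5 : θ₂ f₁ * f₂ = θ₁ f₂ * f₁ := by
    have A := F₁.mul F₂ h12
    have B := F₂.mul F₁ (fun x => (h12 x).symm)
    refine fib_ext (j := j) (φ := fun x => θ₁ (θ₂ x)) _ _ A.1 A.2
      (fun M => by rw [h12]; exact B.1 M) B.2 6 0 ?_
    rw [path F₂ 0 3 6 1 1 (by norm_num) b1 a3, path F₁ 0 2 6 1 1 (by norm_num) a1 b2]
  exact no_dil hR j hj θ₁ θ₂ θ₃ h12 h13 h23 f₁ f₂ g₁ g₂ F₁ F₂ G₁ G₂ N₁ N₂ M₂ r1 r2 r3 r5

end Pool.Agent.W661.Dil
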