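import Mathlib

/-! # Local algebras and excision in a C*-algebra -/

set_option autoImplicit false

open scoped CStarAlgebra ComplexOrder

namespace Pool.Agent.W661.Nrm

variable {A : Type*} [CStarAlgebra A] [PartialOrder A] [StarOrderedRing A]

/-- the elements `d` with `e d = d = d e` -/
def Dd (e : A) : Set A := {d | e * d = d ∧ d * e = d}

/-- `e` is selfadjoint and `Dd e` is not zero -/
structure Rm (e : A) : Prop where
  sa : star e = e
  room : ∃ d ∈ Dd e, d ≠ 0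

omit [PartialOrder A] [StarOrderedRing A] in
lemma Dd_sub {e e' : A} (h : e' ∈ Dd e) {d : A} (hd : d ∈ Dd e') : d ∈ Dd e := by
  obtain ⟨h1, h2⟩ := h
  obtain ⟨h3, h4⟩ := hd
  refine ⟨?_, ?_⟩
  · calc e * d = e * (e' * d) := by rw [h3]
      _ = (e * e') * d := by rw [mul_assoc]
      _ = d := by rw [h1, h3]
  · calc d * e = (d * e') * e := by rw [h4]
      _ = d * (e' * e) := by rw [mul_assoc]
      _ = d := by rw [h2, h4]

omit [PartialOrder A] [StarOrderedRing A] in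
lemma Dd_star {e : A} (he : star e = e) {d : A} (hd : d ∈ Dd e) : star d ∈ Dd e := by
  refine ⟨?_, ?_⟩
  · conv_lhs => rw [← he]
    rw [← star_mul, hd.2]
  · conv_lhs => rw [← he]
    rw [← star_mul, hd.1]

omit [PartialOrder A] [StarOrderedRing A] in
lemma Dd_mul {e d d' x : A} (hd : d ∈ Dd e) (hd' : d' ∈ Dd e) : d * x * d' ∈ Dd e := by
  refine ⟨?_, ?_⟩
  · rw [← mul_assoc, ← mul_assoc, hd.1]
  · rw [mul_assoc, hd'.2]

omit [PartialOrder A] [StarOrderedRing A] in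
lemma Dd_smul {e d : A} (c : ℝ) (hd : d ∈ Dd e) : c • d ∈ Dd e := by
  refine ⟨?_, ?_⟩
  · rw [mul_smul_comm, hd.1]
  · rw [smul_mul_assoc, hd.2]

/-- the auxiliary functions -/
noncomputable def g1 (t : ℝ) : ℝ := 2 / max (2 * t) 1
noncomputable def f1 (t : ℝ) : ℝ := t * g1 t
noncomputable def g2 (t : ℝ) : ℝ := max (2 * t - 1) 0 / max t (1 / 2)
noncomputable def f2 (t : ℝ) : ℝ := t * g2 t

lemma cg1 : Continuous g1 := by
  unfold g1
  refine Continuous.div continuous_const (by fun_prop) ?_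
  intro t
  have : (1 : ℝ) ≤ max (2 * t) 1 := le_max_right _ _
  positivity

lemma cg2 : Continuous g2 := by
  unfold g2
  refine Continuous.div (by fun_prop) (by fun_prop) ?_
  intro t
  have : (1 / 2 : ℝ) ≤ max t (1 / 2) := le_max_right _ _
  have : (0 : ℝ) < max t (1 / 2) := by linarith
  exact this.ne'

lemma cf1 : Continuous f1 := continuous_id.mul cg1
lemma cf2 : Continuous f2 := continuous_id.mul cg2

lemma g1_nonneg (t : ℝ) : 0 ≤ g1 t := by
  unfold g1
  have : (1 : ℝ) ≤ max (2 * t) 1 := le_max_right _ _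
  positivity

lemma g1_le (t : ℝ) : g1 t ≤ 2 := by
  unfold g1
  have : (1 : ℝ) ≤ max (2 * t) 1 := le_max_right _ _
  rw [div_le_iff₀ (by positivity)]
  linarith

lemma f1_eq {t : ℝ} (h : 1 / 2 ≤ t) : f1 t = 1 := by
  unfold f1 g1
  rw [max_eq_left (by linarith)]
  field_simp

lemma f1_nonneg {t : ℝ} (h : 0 ≤ t) : 0 ≤ f1 t := mul_nonneg h (g1_nonneg t)

lemma f1_le {t : ℝ} (h : 0 ≤ t) : f1 t ≤ 1 := by
  unfold f1 g1
  have h1 : (1 : ℝ) ≤ max (2 * t) 1 := le_max_right _ _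
  have h2 : 2 * t ≤ max (2 * t) 1 := le_max_left _ _
  rw [mul_div_assoc', div_le_iff₀ (by positivity)]
  linarith

lemma f2_nonneg {t : ℝ} (h : 0 ≤ t) : 0 ≤ f2 t := by
  unfold f2 g2
  have : (1 / 2 : ℝ) ≤ max t (1 / 2) := le_max_right _ _
  positivity

lemma f2_zero {t : ℝ} (h : t ≤ 1 / 2) : f2 t = 0 := by
  unfold f2 g2
  rw [max_eq_right (a := 2 * t - 1) (by linarith)]
  simp

lemma f2_eq {t : ℝ} (h : 1 / 2 ≤ t) : f2 t = 2 * t - 1 := by
  unfold f2 g2
  rw [max_eq_left (a := 2 * t - 1) (by linarith), max_eq_left h]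
  field_simp

lemma f2_le {t : ℝ} (h : 0 ≤ t) (h' : t ≤ 1) : f2 t ≤ 1 := by
  rcases le_total t (1 / 2) with h1 | h1
  · rw [f2_zero h1]; norm_num
  · rw [f2_eq h1]; linarith

lemma f1_mul_f2 (t : ℝ) : f1 t * f2 t = f2 t := by
  rcases le_total t (1 / 2) with h1 | h1
  · rw [f2_zero h1]; simp
  · rw [f1_eq h1]; simp

/-- functional calculus bumps -/
lemma bump (P : A) (hP : 0 ≤ P) (hn : ‖P‖ = 1) : ∃ e d g g' : A, star e = e ∧ 0 ≤ e ∧ ‖e‖ ≤ 1 ∧
    ‖g‖ ≤ 2 ∧ e = P * g ∧ e = g * P ∧ d = P * g' ∧ d = g' * P ∧ 0 ≤ d ∧ ‖d‖ = 1 ∧ e * d = d ∧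
    d * e = d := by
  have hsa : IsSelfAdjoint P := .of_nonneg hP
  have hnt : Nontrivial A := by
    refine ⟨⟨P, 0, ?_⟩⟩
    rintro rfl
    simp at hn
  have hspec : ∀ t ∈ spectrum ℝ P, 0 ≤ t ∧ t ≤ 1 := by
    intro t ht
    refine ⟨spectrum_nonneg_of_nonneg hP ht, ?_⟩
    have := spectrum.norm_le_norm_of_mem ht
    rw [hn, Real.norm_eq_abs] at this
    exact (le_abs_self t).trans this
  have c1 : ContinuousOn g1 (spectrum ℝ P) := cg1.continuousOn
  have c2 : ContinuousOn g2 (spectrum ℝ P) := cg2.continuousOn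
  have c3 : ContinuousOn f1 (spectrum ℝ P) := cf1.continuousOn
  have c4 : ContinuousOn f2 (spectrum ℝ P) := cf2.continuousOn
  have cid : ContinuousOn (fun t : ℝ => t) (spectrum ℝ P) := continuousOn_id
  refine ⟨cfc f1 P, cfc f2 P, cfc g1 P, cfc g2 P, ?_, ?_, ?_, ?_, ?_, ?_, ?_, ?_, ?_, ?_, ?_, ?_⟩
  · exact cfc_predicate f1 P
  · exact cfc_nonneg fun t ht => f1_nonneg (hspec t ht).1
  · refine norm_cfc_le (by norm_num) fun t ht => ?_
    rw [Real.norm_eq_abs, abs_of_nonneg (f1_nonneg (hspec t ht).1)]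
    exact f1_le (hspec t ht).1
  · refine norm_cfc_le (by norm_num) fun t ht => ?_
    rw [Real.norm_eq_abs, abs_of_nonneg (g1_nonneg t)]
    exact g1_le t
  · have := cfc_mul (fun t : ℝ => t) g1 P cid c1
    rw [cfc_id' ℝ P] at this
    exact this
  · have := cfc_mul g1 (fun t : ℝ => t) P c1 cid
    rw [cfc_id' ℝ P] at this
    rw [← this]
    congr 1
    funext t
    unfold f1
    ring
  · have := cfc_mul (fun t : ℝ => t) g2 P cid c2
    rw [cfc_id' ℝ P] at this
    exact this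
  · have := cfc_mul g2 (fun t : ℝ => t) P c2 cid
    rw [cfc_id' ℝ P] at this
    rw [← this]
    congr 1
    funext t
    unfold f2
    ring
  · exact cfc_nonneg fun t ht => f2_nonneg (hspec t ht).1
  · apply le_antisymm
    · refine norm_cfc_le (by norm_num) fun t ht => ?_
      rw [Real.norm_eq_abs, abs_of_nonneg (f2_nonneg (hspec t ht).1)]
      exact f2_le (hspec t ht).1 (hspec t ht).2
    · have h1 := CStarAlgebra.norm_mem_spectrum_of_nonneg (a := P) hP
      rw [hn] at h1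
      have h2 := norm_apply_le_norm_cfc f2 P h1 c4
      rw [f2_eq (by norm_num)] at h2
      norm_num at h2
      exact h2
  · have := cfc_mul f1 f2 P c3 c4
    rw [← this]
    congr 1
    funext t
    exact f1_mul_f2 t
  · have := cfc_mul f2 f1 P c4 c3
    rw [← this]
    congr 1
    funext t
    rw [mul_comm]
    exact f1_mul_f2 t

omit [PartialOrder A] [StarOrderedRing A] in
lemma star_mul_self_ne {d : A} (h : d ≠ 0) : star d * d ≠ 0 :=
  fun h' => h ((CStarRing.star_mul_self_eq_zero_iff d).1 h')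

/-- positive norm one element in `Dd e` -/
lemma exists_pos {e : A} (he : Rm e) : ∃ P ∈ Dd e, 0 ≤ P ∧ ‖P‖ = 1 := by
  obtain ⟨d, hd, hd0⟩ := he.room
  have h0 : star d * d ≠ 0 := star_mul_self_ne hd0
  have hn : ‖star d * d‖ ≠ 0 := norm_ne_zero_iff.2 h0
  refine ⟨‖star d * d‖⁻¹ • (star d * d), Dd_smul _ ?_, ?_, ?_⟩
  · have := Dd_mul (x := 1) (Dd_star he.sa hd) hd
    rwa [mul_one] at this
  · exact smul_nonneg (by positivity) (star_mul_self_nonneg d)
  · rw [norm_smul, norm_inv, norm_norm, inv_mul_cancel₀ hn]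

/-- a smaller local algebra inside the one of `e` -/
lemma shrink {e : A} (he : star e = e) {P : A} (hPe : P ∈ Dd e) (hP : 0 ≤ P) (hn : ‖P‖ = 1) :
    ∃ e' d g : A, Rm e' ∧ e' ∈ Dd e ∧ ‖g‖ ≤ 2 ∧ e' = P * g ∧ e' = g * P ∧ 0 ≤ e' ∧ ‖e'‖ ≤ 1 ∧
      d ∈ Dd e' ∧ d ∈ Dd e ∧ 0 ≤ d ∧ ‖d‖ = 1 := by
  obtain ⟨e', d, g, g', h1, h2, h3, h4, h5, h6, h7, h8, h9, h10, h11, h12⟩ := bump P hP hn
  have hm : e' ∈ Dd e := by
    refine ⟨?_, ?_⟩
    · rw [h5, ← mul_assoc, hPe.1]
    · rw [h6, mul_assoc, hPe.2]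
  have hd : d ∈ Dd e' := ⟨h11, h12⟩
  refine ⟨e', d, g, ⟨h1, d, hd, ?_⟩, hm, h4, h5, h6, h2, h3, hd, Dd_sub hm hd, h9, h10⟩
  rintro rfl
  simp at h10

/-- norms of selfadjoint elements -/
lemma norm_le_of_bounds {x : A} (hx : IsSelfAdjoint x) {r : ℝ} (h1 : x ≤ algebraMap ℝ A r)
    (h2 : -algebraMap ℝ A r ≤ x) (hr : 0 ≤ r) : ‖x‖ ≤ r := by
  obtain (h | _) := subsingleton_or_nontrivial A
  · rw [Subsingleton.elim x 0, norm_zero]; exact hr
  rcases CStarAlgebra.norm_or_neg_norm_mem_spectrum (a := x) hx with h | h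
  · exact (le_algebraMap_iff_spectrum_le (a := x)).1 h1 _ h
  · rw [← map_neg] at h2
    have := (algebraMap_le_iff_le_spectrum (a := x)).1 h2 _ h
    linarith

/-- conjugation of inequalities -/
lemma conj_le {a b : A} (h : a ≤ b) (d : A) : star d * a * d ≤ star d * b * d :=
  star_left_conjugate_le_conjugate h d

/-- cube of the positive part -/
lemma exists_posPart (y : A) (hy : IsSelfAdjoint y) (h : ¬ y ≤ 0) :
    ∃ w : A, 0 ≤ w ∧ 0 ≤ w * y * w ∧ w * y * w ≠ 0 := by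
  have h1 : y⁺ * y * y⁺ = y⁺ * y⁺ * y⁺ := by
    have : y⁺ * y = y⁺ * y⁺ := by
      calc y⁺ * y = y⁺ * (y⁺ - y⁻) := by rw [CFC.posPart_sub_negPart y]
        _ = y⁺ * y⁺ := by rw [mul_sub, CFC.posPart_mul_negPart, sub_zero]
    rw [this]
  have h2 : star (y⁺) = y⁺ := (CFC.posPart_nonneg y).isSelfAdjoint
  refine ⟨y⁺, CFC.posPart_nonneg y, ?_, ?_⟩
  · rw [h1]
    have := star_left_conjugate_nonneg (CFC.posPart_nonneg y) (y⁺)
    rwa [h2] at this
  · rw [h1]
    intro h0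
    have h3 : star (y⁺ * y⁺) * (y⁺ * y⁺) = 0 := by
      rw [star_mul, h2, ← mul_assoc, h0, zero_mul]
    have h4 := (CStarRing.star_mul_self_eq_zero_iff _).1 h3
    have h5 : star (y⁺) * y⁺ = 0 := by rw [h2, h4]
    have h6 := (CStarRing.star_mul_self_eq_zero_iff _).1 h5
    apply h
    rw [← CFC.posPart_sub_negPart y, h6, zero_sub, neg_nonpos]
    exact CFC.negPart_nonneg y

/-- the upper bounds of `h` on `Dd e` -/
def Up (e h : A) : Set ℝ := {t | ∀ d ∈ Dd e, star d * h * d ≤ t • (star d * d)}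

lemma le_of_smul_nonneg {x : A} (hx : 0 ≤ x) (hx0 : x ≠ 0) {c : ℝ} (h : 0 ≤ c • x) : 0 ≤ c := by
  by_contra hc
  push Not at hc
  have h1 : 0 ≤ (-c) • x := smul_nonneg (by linarith) hx
  rw [neg_smul, neg_nonneg] at h1
  have h2 : c • x = 0 := le_antisymm h1 h
  rcases smul_eq_zero.1 h2 with h3 | h3
  · linarith
  · exact hx0 h3

lemma up_norm (e : A) {h : A} (hh : IsSelfAdjoint h) : ‖h‖ ∈ Up e h := by
  intro d _
  have h1 := conj_le hh.le_algebraMap_norm_self d
  rw [Algebra.algebraMap_eq_smul_one, mul_smul_comm, mul_one, smul_mul_assoc] at h1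
  exact h1

lemma up_bdd {e : A} (he : Rm e) {h : A} (hh : IsSelfAdjoint h) : ∀ t ∈ Up e h, -‖h‖ ≤ t := by
  intro t ht
  obtain ⟨d, hd, hd0⟩ := he.room
  have h1 := conj_le hh.neg_algebraMap_norm_le_self d
  rw [Algebra.algebraMap_eq_smul_one, mul_neg, neg_mul, mul_smul_comm, mul_one,
    smul_mul_assoc] at h1
  have h2 := h1.trans (ht d hd)
  have h3 : 0 ≤ (t + ‖h‖) • (star d * d) := by
    rw [add_smul]
    rw [← sub_nonneg] at h2
    rwa [sub_neg_eq_add] at h2
  have := le_of_smul_nonneg (star_mul_self_nonneg d) (star_mul_self_ne hd0) h3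
  linarith

/-- finite excision for one element -/
lemma excise {e : A} (he : Rm e) {h : A} (hh : IsSelfAdjoint h) {δ : ℝ} (hδ : 0 < δ) :
    ∃ (l : ℝ) (e' : A), Rm e' ∧ e' ∈ Dd e ∧ l ∈ Up e h ∧
      ∀ d ∈ Dd e', (l - δ) • (star d * d) ≤ star d * h * d := by
  have hne : (Up e h).Nonempty := ⟨_, up_norm e hh⟩
  have hbd : BddBelow (Up e h) := ⟨_, up_bdd he hh⟩
  obtain ⟨l, hl, hl'⟩ := exists_lt_of_csInf_lt hne (lt_add_of_pos_right (sInf (Up e h)) hδ)
  have hl'' : l - δ ∉ Up e h := by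
    intro hmem
    have := csInf_le hbd hmem
    linarith
  unfold Up at hl''
  rw [Set.mem_ofPred_eq] at hl''
  push Not at hl''
  obtain ⟨d0, hd0, hd0'⟩ := hl''
  set k : A := h - (l - δ) • (1 : A) with hk
  have hks : star k = k := by
    rw [hk, star_sub, star_smul, star_one, hh.star_eq]
    simp
  set y : A := star d0 * k * d0 with hy
  have hyk : y = star d0 * h * d0 - (l - δ) • (star d0 * d0) := by
    rw [hy, hk, mul_sub, sub_mul, mul_smul_comm, mul_one, smul_mul_assoc]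
  have hys : IsSelfAdjoint y := by
    rw [IsSelfAdjoint, hy, star_mul, star_mul, star_star, hks, mul_assoc]
  have hyn : ¬ y ≤ 0 := by
    rw [hyk, sub_nonpos]
    exact hd0'
  obtain ⟨w, hw, hw1, hw2⟩ := exists_posPart y hys hyn
  have hws : star w = w := hw.isSelfAdjoint
  set z : A := d0 * w with hz
  have hzk : star z * k * z = w * y * w := by
    rw [hz, hy, star_mul, hws]
    simp only [mul_assoc]
  have hz0 : z ≠ 0 := by
    intro h0
    apply hw2
    rw [← hzk, h0, mul_zero]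
  have hez : e * z = z := by rw [hz, ← mul_assoc, hd0.1]
  have hzn : ‖z * star z‖ ≠ 0 := by
    intro h0
    apply hz0
    exact (CStarRing.mul_star_self_eq_zero_iff z).1 (norm_eq_zero.1 h0)
  set P : A := ‖z * star z‖⁻¹ • (z * star z) with hP
  have hP0 : 0 ≤ P := smul_nonneg (by positivity) (mul_star_self_nonneg z)
  have hPn : ‖P‖ = 1 := by
    rw [hP, norm_smul, norm_inv, norm_norm, inv_mul_cancel₀ hzn]
  have hPe : P ∈ Dd e := by
    refine ⟨?_, ?_⟩
    · rw [hP, mul_smul_comm, ← mul_assoc, hez]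
    · have : star z * e = star z := by
        conv_lhs => rw [← he.sa]
        rw [← star_mul, hez]
      rw [hP, smul_mul_assoc, mul_assoc z (star z) e, this]
  obtain ⟨e', d, g, h1, h2, h3, h4, h5, h6, h7, h8, h9, h10, h11⟩ := shrink he.sa hPe hP0 hPn
  refine ⟨l, e', h1, h2, hl, ?_⟩
  intro x hx
  have hx1 : x = z * (‖z * star z‖⁻¹ • (star z * g * x)) := by
    conv_lhs => rw [← hx.1, h4, hP]
    simp only [smul_mul_assoc, mul_smul_comm, mul_assoc]
  set v : A := ‖z * star z‖⁻¹ • (star z * g * x) with hv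
  have h12 : star x * k * x = star v * (w * y * w) * v := by
    rw [← hzk]
    conv_lhs => rw [hx1]
    rw [star_mul]
    simp only [mul_assoc]
  have h13 : 0 ≤ star x * k * x := by
    rw [h12]
    exact star_left_conjugate_nonneg hw1 v
  have h14 : star x * k * x = star x * h * x - (l - δ) • (star x * x) := by
    rw [hk, mul_sub, sub_mul, mul_smul_comm, mul_one, smul_mul_assoc]
  rw [h14, sub_nonneg] at h13
  exact h13

/-- finite excision for a finite family -/
lemma excise_fin {ι : Type*} (F : Finset ι) (h : ι → A) (hh : ∀ i, IsSelfAdjoint (h i)) {δ : ℝ}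
    (hδ : 0 < δ) {e : A} (he : Rm e) :
    ∃ (l : ι → ℝ) (e' : A), Rm e' ∧ (∀ d ∈ Dd e', d ∈ Dd e) ∧ ∀ i ∈ F, ∀ d ∈ Dd e',
      star d * h i * d ≤ l i • (star d * d) ∧ (l i - δ) • (star d * d) ≤ star d * h i * d := by
  classical
  induction F using Finset.induction_on with
  | empty => exact ⟨fun _ => 0, e, he, fun d hd => hd, by simp⟩
  | insert i F hi ih =>
    obtain ⟨l, e', h1, h2, h3⟩ := ih
    obtain ⟨m, e'', h4, h5, h6, h7⟩ := excise h1 (hh i) hδ
    refine ⟨fun k => if k = i then m else l k, e'', h4, fun d hd => h2 d (Dd_sub h5 hd), ?_⟩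
    intro k hk d hd
    rcases Finset.mem_insert.1 hk with rfl | hk'
    · simp only [if_true]
      exact ⟨h6 d (Dd_sub h5 hd), h7 d hd⟩
    · have hne : k ≠ i := by rintro rfl; exact hi hk'
      simp only [hne, if_false]
      exact h3 k hk' d (Dd_sub h5 hd)

end Pool.Agent.W661.Nrm
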