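import Pool.Agent.W661.Nrm4

/-! # Kishimoto's condition implies norming: the estimates -/

set_option autoImplicit false

open scoped CStarAlgebra ComplexOrder

namespace Pool.Agent.W661.Nrm

variable {A B G : Type*} [CStarAlgebra A] [PartialOrder A] [StarOrderedRing A]
  [CStarAlgebra B] [PartialOrder B] [StarOrderedRing B] [Group G] {α : G →* (A ≃⋆ₐ[ℂ] A)}
  {ι : A →⋆ₐ[ℂ] B} {u : G →* unitary B} {E : B →L[ℂ] A} {k : ℕ}

omit [PartialOrder A] [StarOrderedRing A] [PartialOrder B] [StarOrderedRing B] in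
lemma ι_rsmul (ι : A →⋆ₐ[ℂ] B) (r : ℝ) (a : A) : ι (r • a) = r • ι a := by
  rw [← Complex.coe_smul, map_smul, Complex.coe_smul]

/-- the column over `A` -/
noncomputable def CC (α : G →* (A ≃⋆ₐ[ℂ] A)) (F : Finset G) (c : G → Fin k → A) (ν : G → ℝ)
    (d : A) (i : Fin k) : A := ∑ s ∈ F, (√(ν s))⁻¹ • α s (c s i * d)

/-- the element of `B` -/
noncomputable def ZZ (ι : A →⋆ₐ[ℂ] B) (u : G →* unitary B) (F : Finset G) (ν : G → ℝ) (d' : A) :
    B := ∑ t ∈ F, √(ν t) • ((u t : B) * ι d')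

omit [PartialOrder B] [StarOrderedRing B] in
lemma ι_CC (h : IsReducedCrossedProduct α ι u E) (F : Finset G) (c : G → Fin k → A) (ν : G → ℝ)
    (d : A) (i : Fin k) : ι (CC α F c ν d i) =
      ∑ s ∈ F, (√(ν s))⁻¹ • ((u s : B) * (ι (c s i) * ι d) * star (u s : B)) := by
  unfold CC
  rw [map_sum]
  refine Finset.sum_congr rfl fun s _ => ?_
  rw [ι_rsmul, ← map_mul, h.cov]

/-- the inner terms -/
noncomputable def In (ι : A →⋆ₐ[ℂ] B) (u : G →* unitary B) (c : G → Fin k → A) (d : A)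
    (s t : G) : B :=
  ∑ i, ι d * (star (ι (c s i)) * star (u s : B) * (u t : B) * ι (c t i)) * ι d

omit [PartialOrder B] [StarOrderedRing B] in
lemma ip_CC (h : IsReducedCrossedProduct α ι u E) (F : Finset G) (c : G → Fin k → A) (ν : G → ℝ)
    (d : A) (hd : 0 ≤ d) :
    ip (fun i => ι (CC α F c ν d i)) (fun i => ι (CC α F c ν d i)) =
      ∑ s ∈ F, ∑ t ∈ F, ((√(ν s))⁻¹ * (√(ν t))⁻¹) •
        ((u s : B) * In ι u c d s t * star (u t : B)) := by
  have hds : star (ι d) = ι d := by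
    rw [← map_star, (IsSelfAdjoint.of_nonneg hd).star_eq]
  unfold ip
  simp only [ι_CC h]
  have h1 : ∀ i : Fin k, star (∑ s ∈ F, (√(ν s))⁻¹ • ((u s : B) * (ι (c s i) * ι d) *
        star (u s : B))) * ∑ t ∈ F, (√(ν t))⁻¹ • ((u t : B) * (ι (c t i) * ι d) * star (u t : B)) =
      ∑ s ∈ F, ∑ t ∈ F, ((√(ν s))⁻¹ * (√(ν t))⁻¹) • ((u s : B) *
        (ι d * (star (ι (c s i)) * star (u s : B) * (u t : B) * ι (c t i)) * ι d) *
          star (u t : B)) := by
    intro i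
    rw [star_sum, Finset.sum_mul_sum]
    refine Finset.sum_congr rfl fun s _ => Finset.sum_congr rfl fun t _ => ?_
    rw [star_smul, smul_mul_smul_comm, star_mul, star_mul, star_mul, star_star, hds]
    simp only [mul_assoc, star_trivial]
  simp only [h1]
  rw [Finset.sum_comm]
  refine Finset.sum_congr rfl fun s _ => ?_
  rw [Finset.sum_comm]
  refine Finset.sum_congr rfl fun t _ => ?_
  rw [← Finset.smul_sum, In, Finset.mul_sum, Finset.sum_mul]

lemma In_self (c : G → Fin k → A) (d : A) (s : G) :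
    In ι u c d s s = ι (d * (∑ i, star (c s i) * c s i) * d) := by
  unfold In
  rw [map_mul, map_mul, map_sum, Finset.mul_sum, Finset.sum_mul]
  refine Finset.sum_congr rfl fun i _ => ?_
  rw [mul_assoc (star (ι (c s i))) (star (u s : B)), IsReducedCrossedProduct.star_mul_u, mul_one,
    map_mul, map_star]

lemma ι_mono (ι : A →⋆ₐ[ℂ] B) {a b : A} (h : a ≤ b) : ι a ≤ ι b := by
  rw [← sub_nonneg] at h ⊢
  obtain ⟨x, hx⟩ := (CStarAlgebra.nonneg_iff_eq_star_mul_self).1 h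
  rw [← map_sub, hx, map_mul, map_star]
  exact star_mul_self_nonneg _

lemma norm_ip_CC [DecidableEq G] (h : IsReducedCrossedProduct α ι u E) (F : Finset G)
    (c : G → Fin k → A) (ν : G → ℝ) (hν : ∀ s ∈ F, 0 < ν s) (d : A) (hd : 0 ≤ d) (hd1 : ‖d‖ ≤ 1)
    (hup : ∀ s ∈ F, d * (∑ i, star (c s i) * c s i) * d ≤ ν s • (d * d))
    {ε : ℝ} (hε : 0 ≤ ε)
    (H1 : ∀ s ∈ F, ∀ t ∈ F, s ≠ t → ‖ι d * star (u s : B) * (u t : B) * ι d‖ ≤ ε)
    (H2 : ∀ s ∈ F, ∀ t ∈ F, s ≠ t → ∀ i,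
      ‖ι d * (star (ι (c s i)) * star (u s : B) * (u t : B) * ι (c t i)) * ι d‖ ≤ ε) :
    ‖ip (fun i => ι (CC α F c ν d i)) (fun i => ι (CC α F c ν d i))‖ ≤
      1 + ((∑ s ∈ F, ∑ t ∈ F, 1) +
        (∑ s ∈ F, ∑ t ∈ F, (√(ν s))⁻¹ * (√(ν t))⁻¹ * k)) * ε := by
  rw [ip_CC h F c ν d hd, split_diag]
  refine (norm_add_le _ _).trans ?_
  rw [add_mul, ← add_assoc]
  refine add_le_add ?_ ?_
  · refine le_trans ?_ (norm_sum_orth (ι := ι) (u := u) F d hd hd1 hε H1)
    have hle : ∀ s ∈ F, ((√(ν s))⁻¹ * (√(ν s))⁻¹) • ((u s : B) * In ι u c d s s *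
        star (u s : B)) ≤ (u s : B) * (ι d * ι d) * star (u s : B) := by
      intro s hs
      have h1 := ι_mono ι (hup s hs)
      rw [← In_self (u := u), ι_rsmul, map_mul] at h1
      have h2 := star_right_conjugate_le_conjugate h1 (u s : B)
      have h3 : 0 ≤ (√(ν s))⁻¹ * (√(ν s))⁻¹ := by positivity
      have h4 := smul_le_smul_of_nonneg_left h2 h3
      refine h4.trans (le_of_eq ?_)
      rw [mul_smul_comm, smul_mul_assoc, smul_smul]
      have h5 : (√(ν s))⁻¹ * (√(ν s))⁻¹ * ν s = 1 := by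
        have := hν s hs
        rw [← mul_inv, Real.mul_self_sqrt this.le, inv_mul_cancel₀ this.ne']
      rw [h5, one_smul]
    refine CStarAlgebra.norm_le_norm_of_nonneg_of_le ?_ (Finset.sum_le_sum hle)
    refine Finset.sum_nonneg fun s _ => ?_
    refine smul_nonneg (by positivity) ?_
    refine star_right_conjugate_nonneg ?_ _
    rw [In_self]
    have h6 : 0 ≤ ∑ i, star (c s i) * c s i := Finset.sum_nonneg fun i _ => star_mul_self_nonneg _
    have h7 := star_left_conjugate_nonneg h6 d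
    rw [(IsSelfAdjoint.of_nonneg hd).star_eq] at h7
    have := ι_mono ι h7
    rwa [map_zero] at this
  · refine norm_off F (fun s t => ((√(ν s))⁻¹ * (√(ν t))⁻¹) •
        ((u s : B) * In ι u c d s t * star (u t : B)))
      (fun s t => (√(ν s))⁻¹ * (√(ν t))⁻¹ * k) (fun s _ t _ => by positivity) hε ?_
    intro s hs t ht hst
    rw [norm_smul, Real.norm_eq_abs, abs_of_nonneg (by positivity), mul_assoc (_ * _)]
    gcongr
    refine (norm_conj_u s t _).trans ?_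
    unfold In
    refine (norm_sum_le _ _).trans ?_
    refine (Finset.sum_le_card_nsmul _ _ ε fun i _ => H2 s hs t ht hst i).trans ?_
    simp

lemma norm_ZZ [DecidableEq G] (F : Finset G) (ν : G → ℝ) (hν : ∀ s ∈ F, 0 < ν s) (d' : A)
    (hd : 0 ≤ d') (hd1 : ‖d'‖ ≤ 1) {ε : ℝ} (hε : 0 ≤ ε)
    (H1 : ∀ s ∈ F, ∀ t ∈ F, s ≠ t → ‖ι d' * star (u s : B) * (u t : B) * ι d'‖ ≤ ε) :
    ‖ZZ ι u F ν d'‖ * ‖ZZ ι u F ν d'‖ ≤
      ∑ s ∈ F, ν s + (∑ s ∈ F, ∑ t ∈ F, √(ν s) * √(ν t)) * ε := by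
  have hds : star (ι d') = ι d' := by
    rw [← map_star, (IsSelfAdjoint.of_nonneg hd).star_eq]
  have h1 : star (ZZ ι u F ν d') * ZZ ι u F ν d' =
      ∑ s ∈ F, ∑ t ∈ F, (√(ν s) * √(ν t)) • (ι d' * star (u s : B) * (u t : B) * ι d') := by
    unfold ZZ
    rw [star_sum, Finset.sum_mul_sum]
    refine Finset.sum_congr rfl fun s _ => Finset.sum_congr rfl fun t _ => ?_
    rw [star_smul, smul_mul_smul_comm, star_mul, hds]
    simp only [mul_assoc, star_trivial]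
  rw [← CStarRing.norm_star_mul_self, h1, split_diag]
  refine (norm_add_le _ _).trans (add_le_add ?_ ?_)
  · refine (norm_sum_le _ _).trans (Finset.sum_le_sum fun s hs => ?_)
    rw [norm_smul, Real.norm_eq_abs, abs_of_nonneg (by positivity),
      Real.mul_self_sqrt (hν s hs).le, mul_assoc (ι d'), IsReducedCrossedProduct.star_mul_u,
      mul_one]
    have h2 : ‖ι d' * ι d'‖ ≤ 1 := by
      refine (norm_mul_le _ _).trans ?_
      have := (norm_ι_le ι d').trans hd1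
      calc ‖ι d'‖ * ‖ι d'‖ ≤ 1 * 1 := by gcongr
        _ = 1 := one_mul 1
    calc ν s * ‖ι d' * ι d'‖ ≤ ν s * 1 := mul_le_mul_of_nonneg_left h2 (hν s hs).le
      _ = ν s := mul_one _
  · refine norm_off F (fun s t => (√(ν s) * √(ν t)) • (ι d' * star (u s : B) * (u t : B) * ι d'))
      (fun s t => √(ν s) * √(ν t)) (fun s _ t _ => by positivity) hε ?_
    intro s hs t ht hst
    rw [norm_smul, Real.norm_eq_abs, abs_of_nonneg (by positivity)]
    gcongr
    exact H1 s hs t ht hst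

lemma CC_mul_ZZ [DecidableEq G] (h : IsReducedCrossedProduct α ι u E) (F : Finset G)
    (c : G → Fin k → A) (ν : G → ℝ) (hν : ∀ s ∈ F, 0 < ν s) (d d' : A) (hdd : d * d' = d')
    {ε : ℝ} (hε : 0 ≤ ε)
    (H1 : ∀ s ∈ F, ∀ t ∈ F, s ≠ t → ‖ι d * star (u s : B) * (u t : B) * ι d'‖ ≤ ε) (i : Fin k) :
    ‖ι (CC α F c ν d i) * ZZ ι u F ν d' - (∑ s ∈ F, (u s : B) * ι (c s i)) * ι d'‖ ≤
      (∑ s ∈ F, ∑ t ∈ F, (√(ν s))⁻¹ * √(ν t) * ‖c s i‖) * ε := by
  have h1 : ι (CC α F c ν d i) * ZZ ι u F ν d' = ∑ s ∈ F, ∑ t ∈ F, ((√(ν s))⁻¹ * √(ν t)) •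
      ((u s : B) * ι (c s i) * (ι d * star (u s : B) * (u t : B) * ι d')) := by
    rw [ι_CC h]
    unfold ZZ
    rw [Finset.sum_mul_sum]
    refine Finset.sum_congr rfl fun s _ => Finset.sum_congr rfl fun t _ => ?_
    rw [smul_mul_smul_comm]
    simp only [mul_assoc]
  have h2 : ∑ s ∈ F, ((√(ν s))⁻¹ * √(ν s)) •
      ((u s : B) * ι (c s i) * (ι d * star (u s : B) * (u s : B) * ι d')) =
      (∑ s ∈ F, (u s : B) * ι (c s i)) * ι d' := by
    rw [Finset.sum_mul]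
    refine Finset.sum_congr rfl fun s hs => ?_
    have h3 : √(ν s) ≠ 0 := (Real.sqrt_pos.2 (hν s hs)).ne'
    rw [inv_mul_cancel₀ h3, one_smul, mul_assoc (ι d), IsReducedCrossedProduct.star_mul_u, mul_one,
      ← map_mul, hdd]
  rw [h1, split_diag, h2, add_sub_cancel_left]
  refine norm_off F (fun s t => ((√(ν s))⁻¹ * √(ν t)) •
      ((u s : B) * ι (c s i) * (ι d * star (u s : B) * (u t : B) * ι d')))
    (fun s t => (√(ν s))⁻¹ * √(ν t) * ‖c s i‖) (fun s _ t _ => by positivity) hε ?_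
  intro s hs t ht hst
  have h3 := H1 s hs t ht hst
  have h4 : ‖(u s : B) * ι (c s i)‖ ≤ ‖c s i‖ := by
    obtain (hB | _) := subsingleton_or_nontrivial B
    · rw [Subsingleton.elim ((u s : B) * ι (c s i)) 0, norm_zero]
      exact norm_nonneg _
    refine (norm_mul_le _ _).trans ?_
    rw [IsReducedCrossedProduct.norm_u, one_mul]
    exact norm_ι_le ι _
  calc ‖((√(ν s))⁻¹ * √(ν t)) •
        ((u s : B) * ι (c s i) * (ι d * star (u s : B) * (u t : B) * ι d'))‖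
      = ((√(ν s))⁻¹ * √(ν t)) *
        ‖((u s : B) * ι (c s i)) * (ι d * star (u s : B) * (u t : B) * ι d')‖ := by
        rw [norm_smul, Real.norm_eq_abs, abs_of_nonneg (by positivity)]
    _ ≤ ((√(ν s))⁻¹ * √(ν t)) * (‖c s i‖ * ε) := by
        refine mul_le_mul_of_nonneg_left ?_ (by positivity)
        exact (norm_mul_le _ _).trans (mul_le_mul h4 h3 (norm_nonneg _) (norm_nonneg _))
    _ = (√(ν s))⁻¹ * √(ν t) * ‖c s i‖ * ε := by ring

end Pool.Agent.W661.Nrm
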