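import Pool.Agent.W661.Nrm9
import Pool.Agent.W661.Nrm5

/-! # States with large values on `y` when Kishimoto's condition fails -/

set_option autoImplicit false

open scoped CStarAlgebra ComplexOrder ComplexStarModule

namespace Pool.Agent.W661.Nrm

variable {A B G : Type*} [CStarAlgebra A] [PartialOrder A] [StarOrderedRing A]
  [CStarAlgebra B] [PartialOrder B] [StarOrderedRing B] [Group G] {α : G →* (A ≃⋆ₐ[ℂ] A)}
  {ι : A →⋆ₐ[ℂ] B} {u : G →* unitary B} {E : B →L[ℂ] A}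

lemma re_realPart (φ : A →ₚ[ℂ] ℂ) (a : A) : (φ (ℜ a : A)).re = (φ a).re := by
  have h5 : φ (ℜ a : A) = (2 : ℂ)⁻¹ * (φ a + star (φ a)) := by
    rw [realPart_apply_coe, ← map_star, ← map_add]
    have : ((2 : ℝ)⁻¹ • (a + star a) : A) = (2 : ℂ)⁻¹ • (a + star a) := by
      rw [← Complex.coe_smul]
      norm_num
    rw [this, map_smul, smul_eq_mul]
  rw [h5]
  simp
  ring

/-- a positive element at which `p` is small -/
lemma exists_small (p : A) (hp : IsSelfAdjoint p) (φ : A →ₚ[ℂ] ℂ) (hφ : φ 1 = 1) {κ : ℝ}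
    (hlt : (φ p).re < κ) : ∃ d : A, 0 ≤ d ∧ ‖d‖ = 1 ∧ d * p * d ≤ κ • (d * d) := by
  obtain ⟨x0, hx0, hx0'⟩ : ∃ x ∈ spectrum ℝ p, x < κ := by
    by_contra hcon
    push Not at hcon
    have h1 : algebraMap ℝ A κ ≤ p := algebraMap_le_of_le_spectrum (a := p) hcon
    have h2 := re_mono φ h1
    rw [Algebra.algebraMap_eq_smul_one, re_rsmul, hφ, Complex.one_re, mul_one] at h2
    linarith
  have hcf : Continuous (fun x : ℝ => max (κ - x) 0) := by fun_prop
  set d0 : A := cfc (fun x : ℝ => max (κ - x) 0) p with hd0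
  have h1 : 0 < ‖d0‖ := by
    have h2 := norm_apply_le_norm_cfc (fun x : ℝ => max (κ - x) 0) p hx0 hcf.continuousOn
    rw [Real.norm_eq_abs, abs_of_nonneg (le_max_right _ _)] at h2
    have h3 : κ - x0 ≤ max (κ - x0) 0 := le_max_left _ _
    linarith
  have h4 : 0 ≤ d0 := cfc_nonneg fun x _ => le_max_right _ _
  have h5 : d0 * p * d0 ≤ κ • (d0 * d0) := by
    have e1 : d0 * p * d0 = cfc (fun x : ℝ => max (κ - x) 0 * x * max (κ - x) 0) p := by
      rw [cfc_mul (fun x : ℝ => max (κ - x) 0 * x) (fun x : ℝ => max (κ - x) 0) p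
        (by fun_prop) (by fun_prop), cfc_mul (fun x : ℝ => max (κ - x) 0) (fun x : ℝ => x) p
        (by fun_prop) (by fun_prop), cfc_id' ℝ p]
    have e2 : κ • (d0 * d0) = cfc (fun x : ℝ => κ • (max (κ - x) 0 * max (κ - x) 0)) p := by
      rw [cfc_smul κ (fun x : ℝ => max (κ - x) 0 * max (κ - x) 0) p (by fun_prop),
        cfc_mul (fun x : ℝ => max (κ - x) 0) (fun x : ℝ => max (κ - x) 0) p
        (by fun_prop) (by fun_prop)]
    rw [e1, e2]
    refine cfc_mono (fun x _ => ?_) (by fun_prop) (by fun_prop)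
    rw [smul_eq_mul]
    rcases le_total κ x with hx | hx
    · rw [max_eq_right (by linarith)]
      simp
    · have h6 : 0 ≤ max (κ - x) 0 := le_max_right _ _
      have h7 : 0 ≤ max (κ - x) 0 * max (κ - x) 0 := mul_nonneg h6 h6
      nlinarith
  refine ⟨‖d0‖⁻¹ • d0, smul_nonneg (by positivity) h4, ?_, ?_⟩
  · rw [norm_smul, norm_inv, norm_norm, inv_mul_cancel₀ h1.ne']
  · have h6 : (‖d0‖⁻¹ • d0) * p * (‖d0‖⁻¹ • d0) = (‖d0‖⁻¹ * ‖d0‖⁻¹) • (d0 * p * d0) := by
      rw [smul_mul_assoc, smul_mul_smul_comm]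
    have h7 : κ • ((‖d0‖⁻¹ • d0) * (‖d0‖⁻¹ • d0)) = (‖d0‖⁻¹ * ‖d0‖⁻¹) • (κ • (d0 * d0)) := by
      rw [smul_mul_smul_comm, smul_comm]
    rw [h6, h7]
    exact smul_le_smul_of_nonneg_left h5 (by positivity)

namespace IsReducedCrossedProduct

lemma reflect (h : IsReducedCrossedProduct α ι u E) (a : A) (ha : 0 ≤ ι a) : 0 ≤ a := by
  have := h.E_nonneg ha
  rwa [h.coeff_one] at this

/-- compressed elements of small oscillation with vanishing expectation are small -/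
lemma small_of_sandwich (h : IsReducedCrossedProduct α ι u E) {d a1 a2 : A} {b : B} {κ : ℝ}
    (hd : 0 ≤ d) (hd1 : ‖d‖ ≤ 1) (ha1 : IsSelfAdjoint a1)
    (hb : IsSelfAdjoint b) (hE : E b = 0) (h1 : b ≤ ι a1) (h2 : -b ≤ ι a2) (hκ : 0 ≤ κ)
    (h3 : d * (a1 + a2) * d ≤ κ • (d * d)) : ‖ι d * b * ι d‖ ≤ 2 * κ := by
  have hds : star d = d := (IsSelfAdjoint.of_nonneg hd).star_eq
  have hιds : star (ι d) = ι d := by rw [← map_star, hds]
  set X : B := ι d * (ι a1 - b) * ι d with hX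
  have hX0 : 0 ≤ X := by
    have := star_left_conjugate_nonneg (sub_nonneg.2 h1) (ι d)
    rwa [hιds] at this
  have hX1 : X ≤ κ • (ι d * ι d) := by
    have h4 : ι a1 - b ≤ ι (a1 + a2) := by
      rw [map_add, sub_eq_add_neg]
      exact add_le_add le_rfl h2
    have h5 := star_left_conjugate_le_conjugate h4 (ι d)
    rw [hιds, ← map_mul, ← map_mul] at h5
    refine h5.trans ?_
    have h6 := ι_mono ι h3
    rwa [ι_rsmul, map_mul ι d d] at h6
  have hXn : ‖X‖ ≤ κ := by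
    refine (CStarAlgebra.norm_le_norm_of_nonneg_of_le hX0 hX1).trans ?_
    rw [norm_smul, Real.norm_eq_abs, abs_of_nonneg hκ]
    have h6 : ‖ι d * ι d‖ ≤ 1 := by
      refine (norm_mul_le _ _).trans ?_
      have := (norm_ι_le ι d).trans hd1
      calc ‖ι d‖ * ‖ι d‖ ≤ 1 * 1 := by gcongr
        _ = 1 := one_mul 1
    calc κ * ‖ι d * ι d‖ ≤ κ * 1 := by gcongr
      _ = κ := mul_one κ
  have hEX : E X = d * a1 * d := by
    rw [hX, h.E_bimod, map_sub, h.coeff_one, hE, sub_zero]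
  have h7 : ‖d * a1 * d‖ ≤ κ := by
    rw [← hEX]
    exact (h.norm_E_le (IsSelfAdjoint.of_nonneg hX0)).trans hXn
  have h8 : ι d * b * ι d = ι (d * a1 * d) - X := by
    rw [hX, mul_sub, sub_mul, map_mul, map_mul]
    abel
  rw [h8]
  refine (norm_sub_le _ _).trans ?_
  have := (norm_ι_le ι (d * a1 * d)).trans h7
  linarith

/-- the extension lemma -/
theorem exists_ext (h : IsReducedCrossedProduct α ι u E) {y : B} (hEy : E y = 0)
    {e e1 : A} (he1 : e1 ∈ Dd e) (h0 : 0 ≤ e1) (h1 : ‖e1‖ ≤ 1) {ε0 : ℝ} (hε0 : 0 < ε0)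
    (hfail : ∀ d ∈ Dd e, 0 ≤ d → ε0 * (‖d‖ * ‖d‖) ≤ ‖ι d * y * ι d‖) (φ : A →ₚ[ℂ] ℂ)
    (hφ : φ 1 = 1) (hφe : φ e1 = 1) :
    ∃ ψ : B →ₚ[ℂ] ℂ, (∀ a, ψ (ι a) = φ a) ∧ ε0 / 64 ≤ ‖ψ y‖ := by
  by_contra hcon
  push Not at hcon
  have key : ∀ w : ℂ, ‖w‖ = 1 → ∃ a : A, IsSelfAdjoint a ∧ (ℜ (w • y) : B) ≤ ι a ∧
      (φ a).re < ε0 / 32 := by
    intro w hw
    obtain ⟨ψ, hψ, hψ2⟩ := hahn_banach ι h.reflect φ (ℜ (w • y) : B) (ℜ (w • y)).2
    obtain ⟨a, ha, hba, hlt⟩ := hψ2 (ε0 / 64) (by positivity)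
    refine ⟨a, ha, hba, ?_⟩
    have h2 := hcon ψ hψ
    have h3 : (ψ (ℜ (w • y) : B)).re ≤ ‖ψ y‖ := by
      rw [re_realPart, map_smul, smul_eq_mul]
      refine (Complex.re_le_norm _).trans ?_
      rw [norm_mul, hw, one_mul]
    linarith
  obtain ⟨a1, ha1, hb1, hv1⟩ := key 1 (by simp)
  obtain ⟨a2, ha2, hb2, hv2⟩ := key (-1) (by simp)
  obtain ⟨a3, ha3, hb3, hv3⟩ := key Complex.I (by simp)
  obtain ⟨a4, ha4, hb4, hv4⟩ := key (-Complex.I) (by simp)
  rw [one_smul] at hb1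
  rw [neg_smul, one_smul, map_neg, NegMemClass.coe_neg] at hb2
  rw [neg_smul, map_neg, NegMemClass.coe_neg] at hb4
  set bR : B := (ℜ y : B) with hbR
  set bI : B := (ℜ (Complex.I • y) : B) with hbI
  have hy : y = bR - Complex.I • bI := by
    have h2 : bI = -(ℑ y : B) := by
      rw [hbI, realPart_I_smul, NegMemClass.coe_neg]
    rw [h2, smul_neg, sub_neg_eq_add]
    exact (realPart_add_I_smul_imaginaryPart y).symm
  have hEs : E (star y) = 0 := by rw [h.E_star, hEy, star_zero]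
  have hER : E bR = 0 := by
    rw [hbR, realPart_apply_coe, ← Complex.coe_smul, map_smul, map_add, hEy, hEs, add_zero,
      smul_zero]
  have hEI : E bI = 0 := by
    rw [hbI, realPart_apply_coe, ← Complex.coe_smul, map_smul, map_add, star_smul, map_smul,
      map_smul, hEy, hEs, smul_zero, smul_zero, add_zero, smul_zero]
  have hs : 0 ≤ a1 + a2 := by
    apply h.reflect
    rw [map_add]
    have := add_le_add hb1 hb2
    rwa [add_neg_cancel] at this
  have ht : 0 ≤ a3 + a4 := by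
    apply h.reflect
    rw [map_add]
    have := add_le_add hb3 hb4
    rwa [add_neg_cancel] at this
  set κ : ℝ := ε0 / 8 with hκ
  have hκ0 : 0 < κ := by positivity
  set ρ : ℝ := min (1 / 16) (ε0 / (64 * (‖y‖ + 1))) with hρ
  have hρ0 : 0 < ρ := by positivity
  have hρ1 : ρ ≤ 1 / 16 := min_le_left _ _
  have hρ2 : ρ * ‖y‖ ≤ ε0 / 64 := by
    have h2 : ρ ≤ ε0 / (64 * (‖y‖ + 1)) := min_le_right _ _
    have h3 : 0 ≤ ‖y‖ := norm_nonneg y
    calc ρ * ‖y‖ ≤ ε0 / (64 * (‖y‖ + 1)) * (‖y‖ + 1) := by gcongr; linarith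
      _ = ε0 / 64 := by field_simp
  set M : ℝ := κ / (ρ * ρ) with hM
  have hM0 : 0 < M := by positivity
  have he10 : 0 ≤ 1 - e1 :=
    sub_nonneg.2 ((CStarAlgebra.norm_le_one_iff_of_nonneg e1 h0).1 h1)
  set p : A := (a1 + a2) + (a3 + a4) + M • (1 - e1) with hp
  have hMe : 0 ≤ M • (1 - e1) := smul_nonneg hM0.le he10
  have hp0 : 0 ≤ p := add_nonneg (add_nonneg hs ht) hMe
  have hφp : (φ p).re < κ := by
    rw [hp]
    simp only [map_add, Complex.add_re]
    rw [re_rsmul, map_sub, hφ, hφe, sub_self, Complex.zero_re, mul_zero, add_zero]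
    linarith
  obtain ⟨d, hd, hdn, hdp⟩ := exists_small p (IsSelfAdjoint.of_nonneg hp0) φ hφ hφp
  have hds : star d = d := (IsSelfAdjoint.of_nonneg hd).star_eq
  have hconj : ∀ {x z : A}, x ≤ z → d * x * d ≤ d * z * d := by
    intro x z hxz
    have := star_left_conjugate_le_conjugate hxz d
    rwa [hds] at this
  have hR : ‖ι d * bR * ι d‖ ≤ 2 * κ := by
    refine h.small_of_sandwich hd hdn.le ha1 (ℜ y).2 hER hb1 hb2 hκ0.le ?_
    refine (hconj ?_).trans hdp
    rw [hp, add_assoc]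
    exact le_add_of_nonneg_right (add_nonneg ht hMe)
  have hI : ‖ι d * bI * ι d‖ ≤ 2 * κ := by
    refine h.small_of_sandwich hd hdn.le ha3 (ℜ (Complex.I • y)).2 hEI hb3 hb4 hκ0.le ?_
    refine (hconj ?_).trans hdp
    rw [hp, add_comm (a1 + a2), add_assoc]
    exact le_add_of_nonneg_right (add_nonneg hs hMe)
  have hyd : ‖ι d * y * ι d‖ ≤ 4 * κ := by
    have h2 : ι d * y * ι d = ι d * bR * ι d - Complex.I • (ι d * bI * ι d) := by
      conv_lhs => rw [hy]
      rw [mul_sub, sub_mul, mul_smul_comm, smul_mul_assoc]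
    rw [h2]
    refine (norm_sub_le _ _).trans ?_
    rw [norm_smul, Complex.norm_I, one_mul]
    linarith
  -- cutting down by e1
  have hcut : ‖(1 - e1) * d‖ ≤ ρ := by
    have h2 : (1 - e1) * (1 - e1) ≤ 1 - e1 := by
      have h3 : 0 ≤ (1 - e1) * (1 - (1 - e1)) := by
        refine Commute.mul_nonneg he10 ?_ ?_
        · rw [sub_sub_cancel]
          exact h0
        · simp [commute_iff_eq, mul_sub, sub_mul]
      rw [mul_sub, mul_one, sub_nonneg] at h3
      exact h3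
    have h3 : star ((1 - e1) * d) * ((1 - e1) * d) ≤ (ρ * ρ) • (d * d) := by
      have h4 : star ((1 - e1) * d) * ((1 - e1) * d) = d * ((1 - e1) * (1 - e1)) * d := by
        rw [star_mul, hds, star_sub, star_one, (IsSelfAdjoint.of_nonneg h0).star_eq]
        simp only [mul_assoc]
      rw [h4]
      refine (hconj h2).trans ?_
      have h5 : M • (d * (1 - e1) * d) ≤ κ • (d * d) := by
        have h6 : M • (1 - e1) ≤ p := by
          rw [hp]
          exact le_add_of_nonneg_left (add_nonneg hs ht)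
        have h7 := (hconj h6).trans hdp
        rwa [mul_smul_comm, smul_mul_assoc] at h7
      have h6 := smul_le_smul_of_nonneg_left h5 (inv_nonneg.2 hM0.le)
      rw [smul_smul, smul_smul, inv_mul_cancel₀ hM0.ne', one_smul] at h6
      have h7 : M⁻¹ * κ = ρ * ρ := by
        rw [hM, inv_div]
        field_simp
      rwa [h7] at h6
    have h4 := CStarAlgebra.norm_le_norm_of_nonneg_of_le (star_mul_self_nonneg _) h3
    have h5 : ‖d * d‖ = 1 := by
      have := CStarRing.norm_star_mul_self (x := d)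
      rw [hds, hdn, mul_one] at this
      exact this
    rw [CStarRing.norm_star_mul_self, norm_smul, h5, mul_one, Real.norm_eq_abs,
      abs_of_nonneg (by positivity)] at h4
    have h6 := norm_nonneg ((1 - e1) * d)
    nlinarith
  have hcut' : ‖d * (1 - e1)‖ ≤ ρ := by
    rw [← norm_star, star_mul, hds, star_sub, star_one, (IsSelfAdjoint.of_nonneg h0).star_eq]
    exact hcut
  set d2 : A := e1 * d * e1 with hd2
  have hd2D : d2 ∈ Dd e := by
    refine ⟨?_, ?_⟩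
    · rw [hd2, ← mul_assoc, ← mul_assoc, he1.1]
    · rw [hd2, mul_assoc, he1.2]
  have hd20 : 0 ≤ d2 := by
    have := star_left_conjugate_nonneg hd e1
    rwa [(IsSelfAdjoint.of_nonneg h0).star_eq] at this
  have hd2n : ‖d2‖ ≤ 1 := by
    refine (norm_mul_le _ _).trans ?_
    calc ‖e1 * d‖ * ‖e1‖ ≤ (‖e1‖ * ‖d‖) * ‖e1‖ := by
          gcongr
          exact norm_mul_le _ _
      _ ≤ (1 * 1) * 1 := by
          have := hdn.le
          gcongr
      _ = 1 := by norm_num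
  have hdiff : ‖d - d2‖ ≤ 2 * ρ := by
    have h2 : d - d2 = (1 - e1) * d + e1 * (d * (1 - e1)) := by
      rw [hd2]
      noncomm_ring
    rw [h2]
    refine (norm_add_le _ _).trans ?_
    have h3 : ‖e1 * (d * (1 - e1))‖ ≤ ρ := by
      refine (norm_mul_le _ _).trans ?_
      calc ‖e1‖ * ‖d * (1 - e1)‖ ≤ 1 * ρ := by gcongr
        _ = ρ := one_mul ρ
    linarith
  have hlow : 1 - 2 * ρ ≤ ‖d2‖ := by
    have := norm_sub_norm_le d d2
    linarith
  have h9 := hfail d2 hd2D hd20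
  have h10 : ‖ι d2 * y * ι d2‖ ≤ 4 * κ + 4 * (ρ * ‖y‖) := by
    have h11 : ι d2 * y * ι d2 = ι d * y * ι d - (ι (d - d2) * y * ι d) -
        ι d2 * y * ι (d - d2) := by
      rw [map_sub]
      noncomm_ring
    rw [h11]
    have h12 : ‖ι (d - d2) * y * ι d‖ ≤ 2 * (ρ * ‖y‖) := by
      calc ‖ι (d - d2) * y * ι d‖ ≤ ‖ι (d - d2) * y‖ * ‖ι d‖ := norm_mul_le _ _
        _ ≤ (‖ι (d - d2)‖ * ‖y‖) * ‖ι d‖ := by
            gcongr
            exact norm_mul_le _ _
        _ ≤ ((2 * ρ) * ‖y‖) * 1 := by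
            have e1 := (norm_ι_le ι (d - d2)).trans hdiff
            have e2 := (norm_ι_le ι d).trans hdn.le
            gcongr
        _ = 2 * (ρ * ‖y‖) := by ring
    have h13 : ‖ι d2 * y * ι (d - d2)‖ ≤ 2 * (ρ * ‖y‖) := by
      calc ‖ι d2 * y * ι (d - d2)‖ ≤ ‖ι d2 * y‖ * ‖ι (d - d2)‖ := norm_mul_le _ _
        _ ≤ (‖ι d2‖ * ‖y‖) * ‖ι (d - d2)‖ := by
            gcongr
            exact norm_mul_le _ _
        _ ≤ (1 * ‖y‖) * (2 * ρ) := by
            have e1 := (norm_ι_le ι (d - d2)).trans hdiff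
            have e2 := (norm_ι_le ι d2).trans hd2n
            gcongr
        _ = 2 * (ρ * ‖y‖) := by ring
    have h14 := norm_sub_le (ι d * y * ι d - ι (d - d2) * y * ι d) (ι d2 * y * ι (d - d2))
    have h15 := norm_sub_le (ι d * y * ι d) (ι (d - d2) * y * ι d)
    linarith
  have h16 : (7 / 8 : ℝ) * (7 / 8) ≤ ‖d2‖ * ‖d2‖ := by
    have : (7 / 8 : ℝ) ≤ ‖d2‖ := by linarith
    exact mul_self_le_mul_self (by norm_num) this
  nlinarith

end IsReducedCrossedProduct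

end Pool.Agent.W661.Nrm
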