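import Pool.Agent.W661.Nrm9

/-! # Pure states -/

set_option autoImplicit false

open scoped CStarAlgebra ComplexOrder ComplexStarModule InnerProductSpace

namespace Pool.Agent.W661.Nrm

variable {A : Type*} [CStarAlgebra A] [PartialOrder A] [StarOrderedRing A]

/-- pure states -/
structure Pure (φ : A →ₚ[ℂ] ℂ) : Prop where
  one : φ 1 = 1
  pure : ∀ χ : A →ₚ[ℂ] ℂ, (∀ a, 0 ≤ a → χ a ≤ φ a) → ∃ t : ℂ, ∀ a, χ a = t * φ a

lemma norm_pos_le (φ : A →ₚ[ℂ] ℂ) (a : A) : ‖φ a‖ ≤ 4 * (‖φ 1‖ * ‖a‖) := by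
  obtain ⟨y, hy, hyn, ha⟩ := CStarAlgebra.exists_sum_four_nonneg a
  conv_lhs => rw [ha]
  rw [map_sum]
  refine (norm_sum_le _ _).trans ?_
  have h1 : ∀ i : Fin 4, ‖φ (Complex.I ^ (i : ℕ) • y i)‖ ≤ ‖φ 1‖ * ‖a‖ := by
    intro i
    rw [map_smul, norm_smul, norm_pow, Complex.norm_I, one_pow, one_mul]
    refine (φ.norm_apply_le_of_nonneg (y i) (hy i)).trans ?_
    gcongr
    exact hyn i
  refine (Finset.sum_le_card_nsmul _ _ _ fun i _ => h1 i).trans ?_
  simp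

/-- the state space -/
def St (A : Type*) [CStarAlgebra A] [PartialOrder A] [StarOrderedRing A] : Set (A → ℂ) :=
  {f | ∃ φ : A →ₚ[ℂ] ℂ, φ 1 = 1 ∧ f = φ}

lemma St_compact : IsCompact (St A) := by
  have h1 : St A = {f : A → ℂ | (∀ a b, f (a + b) = f a + f b) ∧ (∀ (c : ℂ) a, f (c • a) = c * f a)
      ∧ (∀ a, 0 ≤ f (star a * a)) ∧ f 1 = 1} ∩
        Set.pi Set.univ (fun a : A => Metric.closedBall (0 : ℂ) (4 * ‖a‖)) := by
    ext f
    constructor
    · rintro ⟨φ, hφ, rfl⟩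
      refine ⟨⟨fun a b => map_add φ a b, fun c a => ?_, fun a => ?_, hφ⟩, ?_⟩
      · rw [map_smul, smul_eq_mul]
      · exact φ.map_nonneg (star_mul_self_nonneg a)
      · intro a _
        rw [mem_closedBall_zero_iff]
        have := norm_pos_le φ a
        rwa [hφ, norm_one, one_mul] at this
    · rintro ⟨⟨h1, h2, h3, h4⟩, -⟩
      let g : A →ₗ[ℂ] ℂ := { toFun := f, map_add' := h1, map_smul' := h2 }
      refine ⟨PositiveLinearMap.mk₀ g ?_, h4, rfl⟩
      intro x hx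
      obtain ⟨y, rfl⟩ := (CStarAlgebra.nonneg_iff_eq_star_mul_self).1 hx
      exact h3 y
  rw [h1]
  refine IsCompact.inter_left (isCompact_univ_pi fun a => isCompact_closedBall _ _) ?_
  have e1 : IsClosed {f : A → ℂ | ∀ a b, f (a + b) = f a + f b} := by
    simp only [Set.ofPred_forall]
    exact isClosed_iInter fun a => isClosed_iInter fun b => isClosed_eq (by fun_prop) (by fun_prop)
  have e2 : IsClosed {f : A → ℂ | ∀ (c : ℂ) a, f (c • a) = c * f a} := by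
    simp only [Set.ofPred_forall]
    exact isClosed_iInter fun a => isClosed_iInter fun b => isClosed_eq (by fun_prop) (by fun_prop)
  have e3 : IsClosed {f : A → ℂ | ∀ a, 0 ≤ f (star a * a)} := by
    simp only [Set.ofPred_forall]
    exact isClosed_iInter fun a => isClosed_le (by fun_prop) (by fun_prop)
  have e4 : IsClosed {f : A → ℂ | f 1 = 1} := isClosed_eq (by fun_prop) (by fun_prop)
  exact e1.and (e2.and (e3.and e4))

omit [StarOrderedRing A] in
lemma exists_state [StarOrderedRing A] (b : A) (hb : 0 ≤ b) (hb0 : b ≠ 0) :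
    ∃ φ : A →ₚ[ℂ] ℂ, φ 1 = 1 ∧ 0 < (φ b).re := by
  have hnt : Nontrivial A := ⟨⟨b, 0, hb0⟩⟩
  let ι : ℂ →⋆ₐ[ℂ] A := StarAlgHom.ofId ℂ A
  have hι : ∀ z, 0 ≤ ι z → 0 ≤ z := by
    intro z hz
    have h1 : ι z = algebraMap ℂ A z := rfl
    rw [h1] at hz
    have h2 := hz.isSelfAdjoint
    have h3 : star z = z := by
      have h4 : star (algebraMap ℂ A z) = algebraMap ℂ A z := h2
      rw [← algebraMap_star_comm] at h4
      exact (algebraMap ℂ A).injective h4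
    have h4 : z = ((z.re : ℝ) : ℂ) := (Complex.conj_eq_iff_re.1 h3).symm
    rw [h4] at hz ⊢
    have h5 : algebraMap ℂ A ((z.re : ℝ) : ℂ) = algebraMap ℝ A z.re := by
      rw [Algebra.algebraMap_eq_smul_one, Algebra.algebraMap_eq_smul_one, Complex.coe_smul]
    rw [h5, Algebra.algebraMap_eq_smul_one] at hz
    have h6 := le_of_smul_nonneg (zero_le_one' A) one_ne_zero hz
    exact_mod_cast h6
  obtain ⟨ψ, h1, h2⟩ := hahn_banach ι hι (PositiveLinearMap.id (R := ℂ) (E₁ := ℂ)) b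
    (IsSelfAdjoint.of_nonneg hb)
  refine ⟨ψ, ?_, ?_⟩
  · have := h1 1
    rw [map_one] at this
    exact this
  · by_contra hcon
    push Not at hcon
    have hn : 0 < ‖b‖ := norm_pos_iff.2 hb0
    obtain ⟨z, hz, hbz, hlt⟩ := h2 (‖b‖ / 2) (by positivity)
    have h3 : ι z = algebraMap ℝ A z.re := by
      have h4 : z = ((z.re : ℝ) : ℂ) := (Complex.conj_eq_iff_re.1 hz).symm
      have h5 : ι z = algebraMap ℂ A z := rfl
      rw [h5]
      conv_lhs => rw [h4]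
      rw [Algebra.algebraMap_eq_smul_one, Algebra.algebraMap_eq_smul_one, Complex.coe_smul]
    rw [h3] at hbz
    have h4 : (0 : A) ≤ algebraMap ℝ A z.re := hb.trans hbz
    rw [Algebra.algebraMap_eq_smul_one] at h4
    have h5 := le_of_smul_nonneg (zero_le_one' A) one_ne_zero h4
    have h6 := (CStarAlgebra.norm_le_iff_le_algebraMap b h5 hb).2 hbz
    have h7 : ((PositiveLinearMap.id (R := ℂ) (E₁ := ℂ)) z).re = z.re := rfl
    rw [h7] at hlt
    linarith

lemma zero_of_one (χ : A →ₚ[ℂ] ℂ) (h : χ 1 = 0) (a : A) : χ a = 0 := by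
  have := norm_pos_le χ a
  rw [h, norm_zero, zero_mul, mul_zero] at this
  exact norm_le_zero_iff.1 this

/-- pure states detect nonzero positive elements -/
theorem exists_pure (b : A) (hb : 0 ≤ b) (hb0 : b ≠ 0) :
    ∃ φ : A →ₚ[ℂ] ℂ, Pure φ ∧ φ b ≠ 0 := by
  obtain ⟨φ0, h01, h02⟩ := exists_state b hb hb0
  set c : (A → ℂ) → ℝ := fun f => (f b).re with hc
  have hcc : Continuous c := by
    unfold c
    fun_prop
  obtain ⟨f0, hf0, hmax⟩ := St_compact.exists_isMaxOn ⟨(φ0 : A → ℂ), φ0, h01, rfl⟩ hcc.continuousOn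
  set F : Set (A → ℂ) := {f ∈ St A | c f = c f0} with hF
  have hFc : IsCompact F := St_compact.inter_right (isClosed_eq hcc continuous_const)
  obtain ⟨f, hf⟩ := hFc.extremePoints_nonempty ⟨f0, hf0, rfl⟩
  rw [mem_extremePoints_iff_left] at hf
  obtain ⟨⟨⟨φ, hφ1, rfl⟩, hφc⟩, hext⟩ := hf
  refine ⟨φ, ⟨hφ1, ?_⟩, ?_⟩
  · intro χ hχ
    have hχ1 := hχ 1 zero_le_one
    have hχ0 : 0 ≤ χ 1 := χ.map_nonneg zero_le_one
    rw [hφ1] at hχ1
    set t : ℝ := (χ 1).re with ht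
    have htc : χ 1 = (t : ℂ) := by
      apply Complex.ext
      · simp [ht]
      · simpa using (Complex.le_def.1 hχ0).2.symm
    have ht0 : 0 ≤ t := by simpa using (Complex.le_def.1 hχ0).1
    have ht1 : t ≤ 1 := by simpa using (Complex.le_def.1 hχ1).1
    -- the difference
    let χ' : A →ₚ[ℂ] ℂ := PositiveLinearMap.mk₀ ((φ : A →ₗ[ℂ] ℂ) - (χ : A →ₗ[ℂ] ℂ)) (by
      intro x hx
      have := hχ x hx
      exact sub_nonneg.2 this)
    have hχ'a : ∀ a, χ' a = φ a - χ a := fun a => rfl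
    rcases ht0.eq_or_lt with h0 | h0
    · refine ⟨0, fun a => ?_⟩
      rw [zero_mul]
      exact zero_of_one χ (by rw [htc, ← h0]; simp) a
    rcases ht1.eq_or_lt with h1 | h1
    · refine ⟨1, fun a => ?_⟩
      have := zero_of_one χ' (by rw [hχ'a, hφ1, htc, h1]; simp) a
      rw [hχ'a, sub_eq_zero] at this
      rw [one_mul, this]
    have ht' : 0 < 1 - t := by linarith
    have hpos : ∀ (η : A →ₚ[ℂ] ℂ) (r : ℝ), 0 ≤ r → ∀ x : A, 0 ≤ x →
        0 ≤ ((r : ℂ) • (η : A →ₗ[ℂ] ℂ)) x := by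
      intro η r hr x hx
      have h1 : 0 ≤ η x := η.map_nonneg hx
      have h2 : (0 : ℂ) ≤ (r : ℂ) := by exact_mod_cast hr
      exact mul_nonneg h2 h1
    let η1 : A →ₚ[ℂ] ℂ := PositiveLinearMap.mk₀ (((t⁻¹ : ℝ) : ℂ) • (χ : A →ₗ[ℂ] ℂ))
      (hpos χ _ (by positivity))
    let η2 : A →ₚ[ℂ] ℂ := PositiveLinearMap.mk₀ ((((1 - t)⁻¹ : ℝ) : ℂ) • (χ' : A →ₗ[ℂ] ℂ))
      (hpos χ' _ (by positivity))
    have hη1 : ∀ a, η1 a = ((t⁻¹ : ℝ) : ℂ) * χ a := fun a => rfl
    have hη2 : ∀ a, η2 a = (((1 - t)⁻¹ : ℝ) : ℂ) * χ' a := fun a => rfl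
    have htne : (t : ℂ) ≠ 0 := by exact_mod_cast h0.ne'
    have htne' : (1 - t : ℂ) ≠ 0 := by exact_mod_cast ht'.ne'
    have m1 : (η1 : A → ℂ) ∈ St A := ⟨η1, by rw [hη1, htc]; push_cast; field_simp, rfl⟩
    have m2 : (η2 : A → ℂ) ∈ St A := ⟨η2, by
      rw [hη2, hχ'a, hφ1, htc]; push_cast; field_simp, rfl⟩
    have hcomb : (φ : A → ℂ) = t • (η1 : A → ℂ) + (1 - t) • (η2 : A → ℂ) := by
      funext a
      rw [Pi.add_apply, Pi.smul_apply, Pi.smul_apply, hη1, hη2, hχ'a, Complex.real_smul,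
        Complex.real_smul]
      push_cast
      field_simp
      ring
    have hc1 : c η1 ≤ c f0 := hmax m1
    have hc2 : c η2 ≤ c f0 := hmax m2
    have hcφ : c φ = t * c η1 + (1 - t) * c η2 := by
      rw [hcomb]
      simp [hc]
    have hc1' : c η1 = c f0 := by
      by_contra hne
      have : c η1 < c f0 := lt_of_le_of_ne hc1 hne
      nlinarith
    have hc2' : c η2 = c f0 := by
      by_contra hne
      have : c η2 < c f0 := lt_of_le_of_ne hc2 hne
      nlinarith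
    have := hext η1 ⟨m1, hc1'⟩ η2 ⟨m2, hc2'⟩ ⟨t, 1 - t, h0, ht', by ring, hcomb.symm⟩
    refine ⟨t, fun a => ?_⟩
    have h3 := congrFun this a
    rw [hη1] at h3
    rw [← h3]
    push_cast
    field_simp
  · intro h0
    have h1 : c φ0 ≤ c f0 := hmax ⟨φ0, h01, rfl⟩
    rw [← hφc] at h1
    have h2 : c φ = 0 := by
      show (φ b).re = 0
      rw [h0, Complex.zero_re]
    have h3 : c φ0 = (φ0 b).re := rfl
    linarith

end Pool.Agent.W661.Nrm
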