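import Pool.Agent.W661.Nrm11

/-! # Completely positive maps from extensions of vector states -/

set_option autoImplicit false

open scoped CStarAlgebra ComplexOrder ComplexStarModule InnerProductSpace
open ContinuousLinearMap

namespace Pool.Agent.W661.Nrm

variable {A B : Type*} [CStarAlgebra A] [PartialOrder A] [StarOrderedRing A]
  [CStarAlgebra B] [PartialOrder B] [StarOrderedRing B]
  {H : Type*} [NormedAddCommGroup H] [InnerProductSpace ℂ H] [CompleteSpace H]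

/-- the cyclic vector of the GNS representation -/
noncomputable def om (φ : A →ₚ[ℂ] ℂ) : φ.GNS := ((φ.toPreGNS 1 : φ.PreGNS) : φ.GNS)

lemma gns_om (φ : A →ₚ[ℂ] ℂ) (a : A) :
    φ.gnsStarAlgHom a (om φ) = ((φ.toPreGNS a : φ.PreGNS) : φ.GNS) := by
  have h1 : φ.gnsStarAlgHom a (om φ) = φ.gnsNonUnitalStarAlgHom a (om φ) := rfl
  rw [h1, om, PositiveLinearMap.gnsNonUnitalStarAlgHom_apply_coe]
  congr 1
  show φ.toPreGNS (a * 1) = φ.toPreGNS a
  rw [mul_one]

lemma gns_inner (φ : A →ₚ[ℂ] ℂ) (a : A) : ⟪om φ, φ.gnsStarAlgHom a (om φ)⟫_ℂ = φ a := by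
  rw [gns_om, om, UniformSpace.Completion.inner_coe, PositiveLinearMap.preGNS_inner_def]
  show φ (star 1 * a) = φ a
  rw [star_one, one_mul]

lemma gns_dense (φ : A →ₚ[ℂ] ℂ) : DenseRange fun a => φ.gnsStarAlgHom a (om φ) := by
  have h1 : (fun a => φ.gnsStarAlgHom a (om φ)) = (fun x : φ.PreGNS => (x : φ.GNS)) ∘ φ.toPreGNS :=
    funext fun a => gns_om φ a
  rw [h1]
  exact (UniformSpace.Completion.denseRange_coe).comp φ.toPreGNS.surjective.denseRange
    (UniformSpace.Completion.continuous_coe _)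

/-- compressions of the GNS representation of an extension -/
structure Comp (ι : A →⋆ₐ[ℂ] B) (π : A →⋆ₐ[ℂ] (H →L[ℂ] H)) (Θ : B →ₗ[ℂ] (H →L[ℂ] H)) : Prop where
  left : ∀ a b, Θ (ι a * b) = π a * Θ b
  right : ∀ a b, Θ (b * ι a) = Θ b * π a
  one : Θ 1 = 1
  norm_le : ∀ b, ‖Θ b‖ ≤ ‖b‖
  cp : ∀ (k : ℕ) (M : CStarMatrix (Fin k) (Fin k) B), 0 ≤ M → ∀ v : Fin k → H,
    0 ≤ ∑ i, ∑ j, ⟪v i, Θ (M i j) (v j)⟫_ℂ

omit [PartialOrder A] [StarOrderedRing A] in
theorem exists_comp (ι : A →⋆ₐ[ℂ] B) (π : A →⋆ₐ[ℂ] (H →L[ℂ] H)) (η : H)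
    (hη : DenseRange fun a => π a η) (ψ : B →ₚ[ℂ] ℂ) (hψ : ∀ a, ψ (ι a) = ⟪η, π a η⟫_ℂ) :
    ∃ Θ : B →ₗ[ℂ] (H →L[ℂ] H), Comp ι π Θ ∧ ∀ b, ⟪η, Θ b η⟫_ℂ = ψ b := by
  set ρ : B →⋆ₐ[ℂ] (ψ.GNS →L[ℂ] ψ.GNS) := ψ.gnsStarAlgHom with hρ
  set ω : ψ.GNS := om ψ with hω
  have hinner : ∀ b, ⟪ω, ρ b ω⟫_ℂ = ψ b := gns_inner ψ
  let f : A →ₗ[ℂ] ψ.GNS :=
    { toFun := fun a => ρ (ι a) ω
      map_add' := fun a b => by rw [map_add, map_add, add_apply]
      map_smul' := fun c a => by rw [map_smul, map_smul, smul_apply, RingHom.id_apply] }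
  let e : A →ₗ[ℂ] H :=
    { toFun := fun a => π a η
      map_add' := fun a b => by rw [map_add, add_apply]
      map_smul' := fun c a => by rw [map_smul, smul_apply, RingHom.id_apply] }
  have hf : ∀ a, f a = ρ (ι a) ω := fun a => rfl
  have he : ∀ a, e a = π a η := fun a => rfl
  have hρi : ∀ (b : B) (x y : ψ.GNS), ⟪ρ b x, y⟫_ℂ = ⟪x, ρ (star b) y⟫_ℂ := by
    intro b x y
    rw [map_star, star_eq_adjoint, adjoint_inner_right]
  have hπi : ∀ (a : A) (x y : H), ⟪π a x, y⟫_ℂ = ⟪x, π (star a) y⟫_ℂ := by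
    intro b x y
    rw [map_star, star_eq_adjoint, adjoint_inner_right]
  have hfe : ∀ a b, ⟪f a, f b⟫_ℂ = ⟪e a, e b⟫_ℂ := by
    intro a b
    rw [hf, hf, he, he, hρi, hπi, ← mul_apply_eq_comp, ← mul_apply_eq_comp, ← map_mul, ← map_mul,
      ← map_star, ← map_mul, hinner, hψ]
  have hnorm : ∀ a, ‖f a‖ = ‖e a‖ := by
    intro a
    have h1 := hfe a a
    rw [inner_self_eq_norm_sq_to_K, inner_self_eq_norm_sq_to_K] at h1
    have h2 : ‖f a‖ ^ 2 = ‖e a‖ ^ 2 := by exact_mod_cast h1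
    exact (sq_eq_sq₀ (norm_nonneg _) (norm_nonneg _)).1 h2
  have hde : DenseRange e := hη
  set V : H →L[ℂ] ψ.GNS := f.extendOfNorm e with hV
  have hVe : ∀ a, V (π a η) = ρ (ι a) ω := by
    intro a
    exact LinearMap.extendOfNorm_eq hde ⟨1, fun x => by rw [one_mul, hnorm]⟩ a
  have hVη : V η = ω := by
    have := hVe 1
    rwa [map_one, map_one, map_one, one_apply_eq_self, one_apply_eq_self] at this
  have hVV : ∀ x y, ⟪V x, V y⟫_ℂ = ⟪x, y⟫_ℂ := by
    intro x y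
    refine hde.induction_on₂ (p := fun x y => ⟪V x, V y⟫_ℂ = ⟪x, y⟫_ℂ) ?_ ?_ x y
    · exact isClosed_eq (by fun_prop) (by fun_prop)
    · intro a b
      have := hfe a b
      rw [hf, hf, ← hVe, ← hVe] at this
      exact this
  have hVπ : ∀ a x, V (π a x) = ρ (ι a) (V x) := by
    intro a x
    refine hde.induction_on (p := fun x => V (π a x) = ρ (ι a) (V x)) x ?_ ?_
    · exact isClosed_eq (by fun_prop) (by fun_prop)
    · intro b
      rw [he, ← mul_apply_eq_comp, ← map_mul, hVe, hVe, map_mul, map_mul, mul_apply_eq_comp]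
  have hVstar : adjoint V ∘L V = 1 := by
    ext x
    apply ext_inner_right ℂ
    intro y
    rw [ContinuousLinearMap.comp_apply, adjoint_inner_left, hVV, one_apply_eq_self]
  have hVle : ‖V‖ ≤ 1 := by
    refine opNorm_le_bound _ zero_le_one fun x => ?_
    have h1 := hVV x x
    rw [inner_self_eq_norm_sq_to_K, inner_self_eq_norm_sq_to_K] at h1
    have h2 : ‖V x‖ ^ 2 = ‖x‖ ^ 2 := by exact_mod_cast h1
    rw [one_mul, (sq_eq_sq₀ (norm_nonneg _) (norm_nonneg _)).1 h2]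
  have hadj : ∀ a z, adjoint V (ρ (ι a) z) = π a (adjoint V z) := by
    intro a z
    apply ext_inner_right ℂ
    intro y
    rw [adjoint_inner_left, hρi, hπi, adjoint_inner_left, ← map_star, hVπ]
  let Θ : B →ₗ[ℂ] (H →L[ℂ] H) :=
    { toFun := fun b => adjoint V ∘L (ρ b) ∘L V
      map_add' := fun a b => by
        ext x
        simp only [map_add, ContinuousLinearMap.comp_apply, add_apply]
      map_smul' := fun c a => by
        ext x
        simp only [map_smul, ContinuousLinearMap.comp_apply, smul_apply, RingHom.id_apply] }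
  have hΘ : ∀ b x, Θ b x = adjoint V (ρ b (V x)) := fun b x => rfl
  refine ⟨Θ, ⟨?_, ?_, ?_, ?_, ?_⟩, ?_⟩
  · intro a b
    ext x
    rw [hΘ, map_mul, mul_apply_eq_comp, hadj, mul_apply_eq_comp, hΘ]
  · intro a b
    ext x
    rw [hΘ, map_mul, mul_apply_eq_comp, ← hVπ, mul_apply_eq_comp, hΘ]
  · ext x
    rw [hΘ, map_one, one_apply_eq_self, ← ContinuousLinearMap.comp_apply, hVstar]
  · intro b
    have h1 : Θ b = adjoint V ∘L (ρ b ∘L V) := rfl
    rw [h1]
    refine (opNorm_comp_le _ _).trans ?_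
    have h2 : ‖adjoint V‖ ≤ 1 := by
      rw [LinearIsometryEquiv.norm_map]
      exact hVle
    have h3 : ‖ρ b ∘L V‖ ≤ ‖b‖ := by
      refine (opNorm_comp_le _ _).trans ?_
      calc ‖ρ b‖ * ‖V‖ ≤ ‖b‖ * 1 := by
            gcongr
            exact NonUnitalStarAlgHom.norm_apply_le ρ b
        _ = ‖b‖ := mul_one _
    calc ‖adjoint V‖ * ‖ρ b ∘L V‖ ≤ 1 * ‖b‖ := by gcongr
      _ = ‖b‖ := one_mul _
  · intro k M hM v
    obtain ⟨N, rfl⟩ : ∃ N : CStarMatrix (Fin k) (Fin k) B, M = star N * N := by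
      set_option backward.isDefEq.respectTransparency false in
      exact (CStarAlgebra.nonneg_iff_eq_star_mul_self).1 hM
    have key : ∑ i, ∑ j, ⟪v i, Θ ((star N * N) i j) (v j)⟫_ℂ =
        ∑ l, ⟪∑ i, ρ (N l i) (V (v i)), ∑ j, ρ (N l j) (V (v j))⟫_ℂ := by
      have h1 : ∀ i j, ⟪v i, Θ ((star N * N) i j) (v j)⟫_ℂ =
          ∑ l, ⟪ρ (N l i) (V (v i)), ρ (N l j) (V (v j))⟫_ℂ := by
        intro i j
        rw [hΘ, adjoint_inner_right, CStarMatrix.mul_apply, map_sum, sum_apply, inner_sum]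
        refine Finset.sum_congr rfl fun l _ => ?_
        rw [CStarMatrix.star_apply, map_mul, mul_apply_eq_comp, hρi (N l i)]
      simp only [h1]
      have h2 : ∀ i, ∑ j, ∑ l, ⟪ρ (N l i) (V (v i)), ρ (N l j) (V (v j))⟫_ℂ =
          ∑ l, ∑ j, ⟪ρ (N l i) (V (v i)), ρ (N l j) (V (v j))⟫_ℂ := fun i => Finset.sum_comm
      simp only [h2]
      rw [Finset.sum_comm]
      refine Finset.sum_congr rfl fun l _ => ?_
      rw [sum_inner]
      refine Finset.sum_congr rfl fun i _ => ?_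
      rw [inner_sum]
    rw [key]
    refine Finset.sum_nonneg fun l _ => ?_
    rw [inner_self_eq_norm_sq_to_K, ← RCLike.ofReal_pow]
    exact RCLike.ofReal_nonneg.2 (sq_nonneg _)
  · intro b
    rw [hΘ, adjoint_inner_right, hVη, hinner]

end Pool.Agent.W661.Nrm
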