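import Pool.Agent.W661.Nrm12
import Pool.Agent.W661.Nrm10
import Pool.Agent.H640R2.PhaseMuC

/-! # Irreducibility of the GNS representation of a pure state, Schur's lemma -/

set_option autoImplicit false

open scoped CStarAlgebra ComplexOrder ComplexStarModule InnerProductSpace
open ContinuousLinearMap

namespace Pool.Agent.W661.Nrm

variable {A B : Type*} [CStarAlgebra A] [PartialOrder A] [StarOrderedRing A]
  [CStarAlgebra B] [PartialOrder B] [StarOrderedRing B]
  {H : Type*} [NormedAddCommGroup H] [InnerProductSpace ℂ H] [CompleteSpace H]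

/-- Schur's lemma as a property -/
def Irr (π : A →⋆ₐ[ℂ] (H →L[ℂ] H)) : Prop :=
  ∀ T : H →L[ℂ] H, (∀ a, T * π a = π a * T) → ∃ c : ℂ, T = c • 1

omit [PartialOrder A] [StarOrderedRing A] in
lemma pi_inner (π : A →⋆ₐ[ℂ] (H →L[ℂ] H)) (a : A) (x y : H) :
    ⟪π a x, y⟫_ℂ = ⟪x, π (star a) y⟫_ℂ := by
  rw [map_star, star_eq_adjoint, adjoint_inner_right]

omit [PartialOrder A] [StarOrderedRing A] in
lemma commute_star {π : A →⋆ₐ[ℂ] (H →L[ℂ] H)} {T : H →L[ℂ] H} (hT : ∀ a, T * π a = π a * T)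
    (a : A) : star T * π a = π a * star T := by
  have := congrArg star (hT (star a))
  rw [star_mul, star_mul, ← map_star, star_star] at this
  exact this.symm

lemma irr_of_pure {φ : A →ₚ[ℂ] ℂ} (hφ : Pure φ) : Irr φ.gnsStarAlgHom := by
  set π := φ.gnsStarAlgHom with hπ
  set ω := om φ with hω
  have step1 : ∀ T : φ.GNS →L[ℂ] φ.GNS, (∀ a, T * π a = π a * T) → 0 ≤ T → T ≤ 1 →
      ∃ c : ℂ, T = c • 1 := by
    intro T hT hT0 hT1
    have hcalc : ∀ a b : A, ⟪ω, T (π (star b * a) ω)⟫_ℂ = ⟪π b ω, T (π a ω)⟫_ℂ := by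
      intro a b
      rw [pi_inner, ← mul_apply_eq_comp T, hT, mul_apply_eq_comp, map_mul, mul_apply_eq_comp]
      congr 1
      have := hT a
      have h2 : π a (T ω) = T (π a ω) := by
        rw [← mul_apply_eq_comp, ← mul_apply_eq_comp, hT]
      rw [h2]
    let χ0 : A →ₗ[ℂ] ℂ :=
      { toFun := fun a => ⟪ω, T (π a ω)⟫_ℂ
        map_add' := fun a b => by rw [map_add, add_apply, map_add, inner_add_right]
        map_smul' := fun c a => by
          rw [map_smul, smul_apply, map_smul, inner_smul_right, RingHom.id_apply, smul_eq_mul] }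
    have hχ0 : ∀ a, χ0 a = ⟪ω, T (π a ω)⟫_ℂ := fun a => rfl
    have hT0' := (nonneg_iff_isPositive T).1 hT0
    have hT1' := (nonneg_iff_isPositive (1 - T)).1 (sub_nonneg.2 hT1)
    let χ : A →ₚ[ℂ] ℂ := PositiveLinearMap.mk₀ χ0 (by
      intro x hx
      obtain ⟨b, rfl⟩ := (CStarAlgebra.nonneg_iff_eq_star_mul_self).1 hx
      rw [hχ0, hcalc]
      exact hT0'.inner_nonneg_right _)
    have hχ : ∀ a, χ a = ⟪ω, T (π a ω)⟫_ℂ := fun a => rfl
    obtain ⟨t, ht⟩ := hφ.pure χ (by
      intro a ha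
      obtain ⟨b, rfl⟩ := (CStarAlgebra.nonneg_iff_eq_star_mul_self).1 ha
      rw [hχ, hcalc, ← gns_inner φ, map_mul, mul_apply_eq_comp, ← pi_inner, ← sub_nonneg,
        ← inner_sub_right]
      have := hT1'.inner_nonneg_right (π b ω)
      rwa [sub_apply, one_apply_eq_self] at this)
    refine ⟨t, ?_⟩
    have hd := gns_dense φ
    have key : ∀ x y : φ.GNS, ⟪x, T y⟫_ℂ = t * ⟪x, y⟫_ℂ := by
      intro x y
      refine hd.induction_on₂ (p := fun x y => ⟪x, T y⟫_ℂ = t * ⟪x, y⟫_ℂ) ?_ ?_ x y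
      · exact isClosed_eq (by fun_prop) (by fun_prop)
      · intro b a
        have := ht (star b * a)
        rw [hχ, hcalc, ← gns_inner φ, map_mul, mul_apply_eq_comp, ← pi_inner] at this
        exact this
    ext y
    apply ext_inner_left ℂ
    intro x
    rw [key, smul_apply, one_apply_eq_self, inner_smul_right]
  have step2 : ∀ T : φ.GNS →L[ℂ] φ.GNS, (∀ a, T * π a = π a * T) → IsSelfAdjoint T →
      ∃ c : ℂ, T = c • 1 := by
    intro T hT hTs
    set N : ℝ := 2 * ‖T‖ + 1 with hN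
    have hn : 0 ≤ ‖T‖ := norm_nonneg T
    have hN0 : 0 < N := by positivity
    have hle : T ≤ algebraMap ℝ _ ‖T‖ := hTs.le_algebraMap_norm_self
    have hge : -algebraMap ℝ _ ‖T‖ ≤ T := hTs.neg_algebraMap_norm_le_self
    have hle' : algebraMap ℝ (φ.GNS →L[ℂ] φ.GNS) ‖T‖ = ‖T‖ • 1 := Algebra.algebraMap_eq_smul_one _
    rw [hle'] at hle hge
    obtain ⟨c, hc⟩ := step1 (N⁻¹ • (T + ‖T‖ • 1)) (by
        intro a
        rw [smul_mul_assoc, mul_smul_comm, add_mul, mul_add, hT, smul_mul_assoc, mul_smul_comm,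
          one_mul, mul_one]) (by
        refine smul_nonneg (by positivity) ?_
        have := add_le_add_left hge (‖T‖ • 1)
        simpa using this) (by
        have h2 : T + ‖T‖ • 1 ≤ N • 1 := by
          have h3 : (0 : φ.GNS →L[ℂ] φ.GNS) ≤ 1 := zero_le_one' _
          have h4 : N • (1 : φ.GNS →L[ℂ] φ.GNS) = ‖T‖ • 1 + ‖T‖ • 1 + 1 := by
            rw [hN, add_smul, two_mul, add_smul, one_smul]
          rw [h4]
          have h5 := add_le_add hle (le_refl (‖T‖ • (1 : φ.GNS →L[ℂ] φ.GNS)))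
          exact h5.trans (le_add_of_nonneg_right h3)
        have h3 := smul_le_smul_of_nonneg_left h2 (inv_nonneg.2 hN0.le)
        rwa [smul_smul, inv_mul_cancel₀ hN0.ne', one_smul] at h3)
    refine ⟨N * c - ‖T‖, ?_⟩
    have h1 : T + ‖T‖ • 1 = N • (c • 1) := by
      rw [← hc, smul_smul, mul_inv_cancel₀ hN0.ne', one_smul]
    have h2 : T = N • (c • 1) - ‖T‖ • 1 := eq_sub_of_add_eq h1
    rw [sub_smul, mul_smul, Complex.coe_smul, Complex.coe_smul]
    exact h2
  intro T hT
  have hTs := commute_star hT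
  obtain ⟨c1, hc1⟩ := step2 (ℜ T : φ.GNS →L[ℂ] φ.GNS) (by
    intro a
    rw [realPart_apply_coe, smul_mul_assoc, mul_smul_comm, add_mul, mul_add, hT, hTs]) (ℜ T).2
  obtain ⟨c2, hc2⟩ := step2 (ℑ T : φ.GNS →L[ℂ] φ.GNS) (by
    intro a
    rw [imaginaryPart_apply_coe, smul_mul_assoc, mul_smul_comm, smul_mul_assoc, mul_smul_comm,
      sub_mul, mul_sub, hT, hTs]) (ℑ T).2
  refine ⟨c1 + Complex.I * c2, ?_⟩
  rw [← realPart_add_I_smul_imaginaryPart T, hc1, hc2, add_smul, mul_smul]

omit [PartialOrder A] [StarOrderedRing A] in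
/-- nonzero vectors are cyclic -/
lemma cyclic_of_irr {π : A →⋆ₐ[ℂ] (H →L[ℂ] H)} (hπ : Irr π) {ξ : H} (hξ : ξ ≠ 0) :
    DenseRange fun a => π a ξ := by
  let e : A →ₗ[ℂ] H :=
    { toFun := fun a => π a ξ
      map_add' := fun a b => by rw [map_add, add_apply]
      map_smul' := fun c a => by rw [map_smul, smul_apply, RingHom.id_apply] }
  have he : ∀ a, e a = π a ξ := fun a => rfl
  set K : Submodule ℂ H := (LinearMap.range e).topologicalClosure with hK
  have hKc : IsClosed (K : Set H) := Submodule.isClosed_topologicalClosure _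
  have : CompleteSpace K := hKc.completeSpace_coe
  have hinv : ∀ a, ∀ x ∈ K, π a x ∈ K := by
    intro a x hx
    have h1 : Set.MapsTo (π a) (LinearMap.range e : Set H) (LinearMap.range e : Set H) := by
      rintro _ ⟨b, rfl⟩
      refine ⟨a * b, ?_⟩
      rw [he, he, map_mul, mul_apply_eq_comp]
    exact h1.closure (π a).continuous hx
  set P : H →L[ℂ] H := K.starProjection with hP
  have hcomm : ∀ a, P * π a = π a * P := by
    intro a
    ext x
    rw [mul_apply_eq_comp, mul_apply_eq_comp]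
    have hx : x = P x + (x - P x) := by abel
    have h1 : P (π a (P x)) = π a (P x) := by
      rw [hP, Submodule.starProjection_eq_self_iff]
      exact hinv a _ (Submodule.starProjection_apply_mem K x)
    have h2 : P (π a (x - P x)) = 0 := by
      rw [hP, Submodule.starProjection_apply_eq_zero_iff, Submodule.mem_orthogonal]
      intro z hz
      have h3 := hinv (star a) z hz
      have h4 : ⟪π (star a) z, x - P x⟫_ℂ = 0 := by
        have h5 : x - P x ∈ Kᗮ := Submodule.sub_starProjection_mem_orthogonal x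
        exact (Submodule.mem_orthogonal _ _).1 h5 _ h3
      rwa [pi_inner, star_star] at h4
    calc P (π a x) = P (π a (P x + (x - P x))) := by rw [← hx]
      _ = P (π a (P x)) + P (π a (x - P x)) := by rw [map_add, map_add]
      _ = π a (P x) := by rw [h1, h2, add_zero]
  obtain ⟨c, hc⟩ := hπ P hcomm
  have hξK : ξ ∈ K := by
    refine Submodule.le_topologicalClosure _ ⟨1, ?_⟩
    rw [he, map_one, one_apply_eq_self]
  have hPξ : P ξ = ξ := by
    rw [hP, Submodule.starProjection_eq_self_iff]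
    exact hξK
  have hc1 : c = 1 := by
    rw [hc, smul_apply, one_apply_eq_self] at hPξ
    have : (c - 1) • ξ = 0 := by rw [sub_smul, hPξ, one_smul, sub_self]
    rcases smul_eq_zero.1 this with h | h
    · exact sub_eq_zero.1 h
    · exact absurd h hξ
  intro x
  have h1 : P x = x := by rw [hc, hc1, one_smul, one_apply_eq_self]
  have h2 : x ∈ K := by
    rw [← h1]
    exact Submodule.starProjection_apply_mem K x
  exact h2

omit [PartialOrder A] [StarOrderedRing A] in
/-- intertwiners between an irreducible representation and a twist of it are proportional -/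
lemma intertwiner {π : A →⋆ₐ[ℂ] (H →L[ℂ] H)} (hπ : Irr π) (β : A ≃⋆ₐ[ℂ] A)
    {T1 T2 : H →L[ℂ] H} (h1 : ∀ a, T1 * π a = π (β a) * T1) (h2 : ∀ a, T2 * π a = π (β a) * T2)
    (h0 : T2 ≠ 0) : ∃ c : ℂ, T1 = c • T2 := by
  have h2' : ∀ a, π a * star T2 = star T2 * π (β a) := by
    intro a
    have := congrArg star (h2 (star a))
    rw [star_mul, star_mul, ← map_star, ← map_star, star_star, map_star β, star_star] at this
    exact this
  obtain ⟨c, hc⟩ := hπ (star T2 * T1) (by
    intro a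
    rw [mul_assoc, h1, ← mul_assoc, ← h2', mul_assoc])
  obtain ⟨s, hs⟩ := hπ (T2 * star T2) (by
    intro a
    obtain ⟨b, hb⟩ := EquivLike.surjective β a
    rw [← hb, mul_assoc, ← h2', ← mul_assoc, h2, mul_assoc])
  have hs0 : s ≠ 0 := by
    rintro rfl
    rw [zero_smul] at hs
    exact h0 (CStarRing.mul_star_self_eq_zero_iff T2 |>.1 hs)
  refine ⟨s⁻¹ * c, ?_⟩
  have h3 : s • T1 = c • T2 := by
    calc s • T1 = (T2 * star T2) * T1 := by rw [hs, smul_mul_assoc, one_mul]
      _ = T2 * (star T2 * T1) := mul_assoc _ _ _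
      _ = c • T2 := by rw [hc, mul_smul_comm, mul_one]
  rw [mul_smul, ← h3, smul_smul, inv_mul_cancel₀ hs0, one_smul]

/-- a convex set of complex numbers which stays away from zero lies in a half plane -/
lemma exists_phase (K : Set ℂ) (hK : Convex ℝ K) (hne : K.Nonempty) {c : ℝ} (hc : 0 < c)
    (h : ∀ z ∈ K, c ≤ ‖z‖) : ∃ μ : ℂ, ‖μ‖ = 1 ∧ ∀ z ∈ K, c ≤ (μ * z).re := by
  obtain ⟨v, hv, hv2⟩ := exists_norm_eq_iInf_of_complete_convex (K := closure K) hne.closure
    isClosed_closure.isComplete hK.closure (0 : ℂ)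
  have h3 := (norm_eq_iInf_iff_real_inner_le_zero hK.closure hv).1 hv2
  have hvc : c ≤ ‖v‖ := by
    have : closure K ⊆ {z | c ≤ ‖z‖} := closure_minimal h (isClosed_le (by fun_prop) (by fun_prop))
    exact this hv
  have hv0 : 0 < ‖v‖ := lt_of_lt_of_le hc hvc
  refine ⟨(‖v‖⁻¹ : ℝ) • (starRingEnd ℂ) v, ?_, ?_⟩
  · rw [norm_smul, norm_inv, norm_norm, RCLike.norm_conj, inv_mul_cancel₀ hv0.ne']
  · intro z hz
    have h4 := h3 z (subset_closure hz)
    rw [zero_sub, inner_neg_left, Left.neg_nonpos_iff, inner_sub_right, sub_nonneg,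
      real_inner_self_eq_norm_sq] at h4
    have h5 : ((starRingEnd ℂ) v * z).re = ⟪v, z⟫_ℝ := by
      rw [Complex.inner, mul_comm]
    rw [smul_mul_assoc, Complex.smul_re, h5, smul_eq_mul]
    have h6 : ‖v‖ ≤ ‖v‖⁻¹ * ⟪v, z⟫_ℝ := by
      rw [le_inv_mul_iff₀ hv0, ← sq]
      exact h4
    exact hvc.trans h6

end Pool.Agent.W661.Nrm
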