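import Pool.Agent.W661.Nrm13

/-! # The local choice of a completely positive map -/

set_option autoImplicit false

open scoped CStarAlgebra ComplexOrder ComplexStarModule InnerProductSpace
open ContinuousLinearMap

namespace Pool.Agent.W661.Nrm

variable {A B G : Type*} [CStarAlgebra A] [PartialOrder A] [StarOrderedRing A]
  [CStarAlgebra B] [PartialOrder B] [StarOrderedRing B] [Group G] {α : G →* (A ≃⋆ₐ[ℂ] A)}
  {ι : A →⋆ₐ[ℂ] B} {u : G →* unitary B} {E : B →L[ℂ] A}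
  {H : Type*} [NormedAddCommGroup H] [InnerProductSpace ℂ H] [CompleteSpace H]

/-- vector functionals -/
noncomputable def vec (π : A →⋆ₐ[ℂ] (H →L[ℂ] H)) (η : H) : A →ₚ[ℂ] ℂ :=
  PositiveLinearMap.mk₀
    { toFun := fun a => ⟪η, π a η⟫_ℂ
      map_add' := fun a b => by rw [map_add, add_apply, inner_add_right]
      map_smul' := fun c a => by
        rw [map_smul, smul_apply, inner_smul_right, RingHom.id_apply, smul_eq_mul] }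
    (by
      intro x hx
      obtain ⟨b, rfl⟩ := (CStarAlgebra.nonneg_iff_eq_star_mul_self).1 hx
      show 0 ≤ ⟪η, π (star b * b) η⟫_ℂ
      rw [map_mul, mul_apply_eq_comp, ← pi_inner, inner_self_eq_norm_sq_to_K, ← RCLike.ofReal_pow]
      exact RCLike.ofReal_nonneg.2 (sq_nonneg _))

lemma vec_apply (π : A →⋆ₐ[ℂ] (H →L[ℂ] H)) (η : H) (a : A) : vec π η a = ⟪η, π a η⟫_ℂ := rfl

omit [PartialOrder A] [StarOrderedRing A] in
lemma Comp.intertwines {π : A →⋆ₐ[ℂ] (H →L[ℂ] H)} {Θ : B →ₗ[ℂ] (H →L[ℂ] H)} (hΘ : Comp ι π Θ)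
    [PartialOrder A] [StarOrderedRing A]
    (h : IsReducedCrossedProduct α ι u E) (g : G) (a : A) :
    Θ (u g : B) * π a = π (α g a) * Θ (u g : B) := by
  rw [← hΘ.right, ← hΘ.left, h.u_mul_ι]

/-- the expectation as a compression -/
theorem exists_comp_expect (h : IsReducedCrossedProduct α ι u E) (φ : A →ₚ[ℂ] ℂ) :
    ∃ Θ : B →ₗ[ℂ] (φ.GNS →L[ℂ] φ.GNS), Comp ι φ.gnsStarAlgHom Θ ∧
      ∀ b, Θ b = φ.gnsStarAlgHom (E b) := by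
  let ψ : B →ₚ[ℂ] ℂ := PositiveLinearMap.mk₀ ((φ : A →ₗ[ℂ] ℂ) ∘ₗ (E : B →ₗ[ℂ] A)) (by
    intro x hx
    exact φ.map_nonneg (h.E_nonneg hx))
  have hψ : ∀ b, ψ b = φ (E b) := fun b => rfl
  obtain ⟨Θ, hΘ, hΘ2⟩ := exists_comp ι φ.gnsStarAlgHom (om φ) (gns_dense φ) ψ (by
    intro a
    rw [hψ, h.coeff_one, gns_inner])
  refine ⟨Θ, hΘ, fun b => ?_⟩
  have key : ∀ x y : φ.GNS, ⟪x, Θ b y⟫_ℂ = ⟪x, φ.gnsStarAlgHom (E b) y⟫_ℂ := by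
    intro x y
    refine (gns_dense φ).induction_on₂
      (p := fun x y => ⟪x, Θ b y⟫_ℂ = ⟪x, φ.gnsStarAlgHom (E b) y⟫_ℂ) ?_ ?_ x y
    · exact isClosed_eq (by fun_prop) (by fun_prop)
    · intro c a
      rw [pi_inner, pi_inner, ← mul_apply_eq_comp (Θ b), ← mul_apply_eq_comp (φ.gnsStarAlgHom (E b)),
        ← mul_apply_eq_comp (φ.gnsStarAlgHom (star c)),
        ← mul_apply_eq_comp (φ.gnsStarAlgHom (star c)), ← map_mul, ← map_mul, ← hΘ.right,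
        ← hΘ.left, hΘ2, hψ, gns_inner, ← mul_assoc, ← mul_assoc, h.E_bimod]
  ext y
  exact ext_inner_left ℂ fun x => key x y

/-- the local choice -/
theorem local_choice (h : IsReducedCrossedProduct α ι u E) {g : G} (hg : g ≠ 1) (a0 : A)
    {e e1 : A} (he1 : e1 ∈ Dd e) (h0 : 0 ≤ e1) (h1 : ‖e1‖ ≤ 1) {ε0 : ℝ} (hε0 : 0 < ε0)
    (hfail : ∀ d ∈ Dd e, 0 ≤ d → ε0 * (‖d‖ * ‖d‖) ≤ ‖ι d * (ι a0 * (u g : B)) * ι d‖)
    {φ : A →ₚ[ℂ] ℂ} (hφ : Pure φ) :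
    ∃ μ : ℂ, ‖μ‖ = 1 ∧ ∃ Θ : B →ₗ[ℂ] (φ.GNS →L[ℂ] φ.GNS), Comp ι φ.gnsStarAlgHom Θ ∧
      ∀ η : φ.GNS, φ.gnsStarAlgHom e1 η = η →
        (ε0 / 64) ^ 2 / (‖a0‖ + 1) * ‖η‖ ^ 2 ≤ (μ * ⟪η, Θ (ι a0 * (u g : B)) η⟫_ℂ).re := by
  set π := φ.gnsStarAlgHom with hπ
  have hirr : Irr π := irr_of_pure hφ
  set c0 : ℝ := ε0 / 64 with hc0
  have hc0p : 0 < c0 := by positivity
  have ha0 : 0 ≤ ‖a0‖ := norm_nonneg a0
  set y : B := ι a0 * (u g : B) with hy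
  have hEy : E y = 0 := h.coeff_ne g a0 hg
  have hun : ‖(u g : B)‖ ≤ 1 := by
    rcases subsingleton_or_nontrivial B with hB | hB
    · rw [Subsingleton.elim (u g : B) 0, norm_zero]
      exact zero_le_one
    · exact (CStarRing.norm_coe_unitary (u g)).le
  -- compressions with large values
  have hlarge : ∀ η : φ.GNS, ‖η‖ = 1 → π e1 η = η → ∃ Θ : B →ₗ[ℂ] (φ.GNS →L[ℂ] φ.GNS),
      Comp ι π Θ ∧ c0 ≤ ‖⟪η, Θ y η⟫_ℂ‖ := by
    intro η hη hη1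
    have hη0 : η ≠ 0 := by
      rintro rfl
      rw [norm_zero] at hη
      exact zero_ne_one hη
    have hv1 : vec π η 1 = 1 := by
      rw [vec_apply, map_one, one_apply_eq_self, inner_self_eq_norm_sq_to_K, hη]
      simp
    have hve : vec π η e1 = 1 := by
      rw [vec_apply, hη1, inner_self_eq_norm_sq_to_K, hη]
      simp
    obtain ⟨ψ, hψ1, hψ2⟩ := h.exists_ext hEy he1 h0 h1 hε0 hfail (vec π η) hv1 hve
    obtain ⟨Θ, hΘ, hΘ2⟩ := exists_comp ι π η (cyclic_of_irr hirr hη0) ψ (fun a => by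
      rw [hψ1, vec_apply])
    exact ⟨Θ, hΘ, by rw [hΘ2]; exact hψ2⟩
  by_cases hex : ∃ η : φ.GNS, ‖η‖ = 1 ∧ π e1 η = η
  · obtain ⟨η0, hη0, hη01⟩ := hex
    obtain ⟨Θ0, hΘ0, hval0⟩ := hlarge η0 hη0 hη01
    set T0 : φ.GNS →L[ℂ] φ.GNS := Θ0 (u g : B) with hT0
    have hΘy : ∀ {Θ : B →ₗ[ℂ] (φ.GNS →L[ℂ] φ.GNS)}, Comp ι π Θ → Θ y = π a0 * Θ (u g : B) := by
      intro Θ hΘ
      rw [hy, hΘ.left]
    have hπn : ‖π a0‖ ≤ ‖a0‖ := NonUnitalStarAlgHom.norm_apply_le π a0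
    have hbd : ∀ (T : φ.GNS →L[ℂ] φ.GNS) (η : φ.GNS), ‖η‖ = 1 →
        ‖⟪η, (π a0 * T) η⟫_ℂ‖ ≤ ‖a0‖ * ‖T‖ := by
      intro T η hη
      refine (norm_inner_le_norm _ _).trans ?_
      rw [hη, one_mul]
      refine ((π a0 * T).le_opNorm η).trans ?_
      rw [hη, mul_one]
      refine (norm_mul_le _ _).trans ?_
      gcongr
    have hT0n : c0 ≤ ‖a0‖ * ‖T0‖ := by
      rw [hΘy hΘ0] at hval0
      exact hval0.trans (hbd T0 η0 hη0)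
    have hT00 : T0 ≠ 0 := by
      intro h2
      rw [h2, norm_zero, mul_zero] at hT0n
      linarith
    have hT0p : 0 < ‖T0‖ := norm_pos_iff.2 hT00
    have ha0p : 0 < ‖a0‖ := by
      rcases ha0.eq_or_lt with h2 | h2
      · rw [← h2, zero_mul] at hT0n
        linarith
      · exact h2
    set c1 : ℝ := c0 ^ 2 / (‖a0‖ + 1) with hc1
    have hc1p : 0 < c1 := by positivity
    have hall : ∀ η : φ.GNS, ‖η‖ = 1 → π e1 η = η → c1 ≤ ‖⟪η, Θ0 y η⟫_ℂ‖ := by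
      intro η hη hη1
      obtain ⟨Θ, hΘ, hval⟩ := hlarge η hη hη1
      obtain ⟨c, hc⟩ := intertwiner hirr (α g) (hΘ.intertwines h g) (hΘ0.intertwines h g) hT00
      have h2 : ⟪η, Θ y η⟫_ℂ = c * ⟪η, Θ0 y η⟫_ℂ := by
        rw [hΘy hΘ, hΘy hΘ0, hc, mul_smul_comm, smul_apply, inner_smul_right]
      have h3 : ‖c‖ * ‖T0‖ ≤ 1 := by
        rw [hT0, ← norm_smul, ← hc]
        exact (hΘ.norm_le _).trans hun
      rw [h2, norm_mul] at hval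
      have h4 : ‖c‖ * c0 ≤ ‖a0‖ := by
        calc ‖c‖ * c0 ≤ ‖c‖ * (‖a0‖ * ‖T0‖) := by gcongr
          _ = ‖a0‖ * (‖c‖ * ‖T0‖) := by ring
          _ ≤ ‖a0‖ * 1 := by gcongr
          _ = ‖a0‖ := mul_one _
      rw [hc1, div_le_iff₀ (by positivity)]
      set X := ‖⟪η, Θ0 y η⟫_ℂ‖ with hX
      have hX0 : 0 ≤ X := norm_nonneg _
      calc c0 ^ 2 = c0 * c0 := sq c0
        _ ≤ c0 * (‖c‖ * X) := by gcongr
        _ = (‖c‖ * c0) * X := by ring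
        _ ≤ ‖a0‖ * X := by gcongr
        _ ≤ X * (‖a0‖ + 1) := by nlinarith
    -- the numerical range of the compression
    set K : Submodule ℂ φ.GNS := LinearMap.ker ((π e1 - 1 : φ.GNS →L[ℂ] φ.GNS) : φ.GNS →ₗ[ℂ] φ.GNS)
      with hK
    have hKm : ∀ x : φ.GNS, x ∈ K ↔ π e1 x = x := by
      intro x
      rw [hK, LinearMap.mem_ker]
      show (π e1 - 1 : φ.GNS →L[ℂ] φ.GNS) x = 0 ↔ _
      rw [sub_apply, one_apply_eq_self, sub_eq_zero]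
    have hKc : IsClosed (K : Set φ.GNS) := (π e1 - 1 : φ.GNS →L[ℂ] φ.GNS).isClosed_ker
    have : CompleteSpace K := hKc.completeSpace_coe
    let C : K →L[ℂ] K := adjoint K.subtypeL ∘L (Θ0 y) ∘L K.subtypeL
    have hC : ∀ x : K, ⟪x, C x⟫_ℂ = ⟪(x : φ.GNS), Θ0 y x⟫_ℂ := by
      intro x
      show ⟪x, adjoint K.subtypeL (Θ0 y x)⟫_ℂ = _
      rw [adjoint_inner_right]
      rfl
    obtain ⟨μ, hμ, hμ2⟩ := exists_phase _ (H640R2.PhaseMu.toeplitz_hausdorff C)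
      ⟨⟪(⟨η0, (hKm η0).2 hη01⟩ : K), C ⟨η0, (hKm η0).2 hη01⟩⟫_ℂ, ⟨η0, (hKm η0).2 hη01⟩, hη0, rfl⟩
      hc1p (by
        rintro z ⟨x, hx, rfl⟩
        rw [hC]
        exact hall x hx ((hKm x).1 x.2))
    refine ⟨μ, hμ, Θ0, hΘ0, fun η hη => ?_⟩
    rcases eq_or_ne η 0 with h2 | h2
    · rw [h2]
      simp
    · have hn : 0 < ‖η‖ := norm_pos_iff.2 h2
      set x : φ.GNS := ((‖η‖⁻¹ : ℝ) : ℂ) • η with hx
      have hx1 : ‖x‖ = 1 := by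
        rw [hx, norm_smul, Complex.norm_real, norm_inv, norm_norm, inv_mul_cancel₀ hn.ne']
      have hxK : x ∈ K := by
        rw [hKm, hx, map_smul, hη]
      have h3 := hμ2 _ ⟨⟨x, hxK⟩, hx1, rfl⟩
      rw [hC] at h3
      have h4 : ⟪x, Θ0 y x⟫_ℂ = (((‖η‖⁻¹ * ‖η‖⁻¹ : ℝ)) : ℂ) * ⟪η, Θ0 y η⟫_ℂ := by
        rw [hx, map_smul, inner_smul_left, inner_smul_right, Complex.conj_ofReal, ← mul_assoc]
        push_cast
        rfl
      have h5 : (μ * ⟪x, Θ0 y x⟫_ℂ).re = (‖η‖⁻¹ * ‖η‖⁻¹) * (μ * ⟪η, Θ0 y η⟫_ℂ).re := by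
        rw [h4, mul_left_comm, Complex.re_ofReal_mul]
      have h6 : c1 ≤ (‖η‖⁻¹ * ‖η‖⁻¹) * (μ * ⟪η, Θ0 y η⟫_ℂ).re := by
        rw [← h5]
        exact h3
      have h7 := mul_le_mul_of_nonneg_left h6 (by positivity : 0 ≤ ‖η‖ ^ 2)
      have h8 : ‖η‖ ^ 2 * ((‖η‖⁻¹ * ‖η‖⁻¹) * (μ * ⟪η, Θ0 y η⟫_ℂ).re) =
          (μ * ⟪η, Θ0 y η⟫_ℂ).re := by
        field_simp
      rw [h8] at h7
      rw [mul_comm]
      exact h7
  · obtain ⟨Θ, hΘ, -⟩ := exists_comp_expect h φ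
    refine ⟨1, by simp, Θ, hΘ, fun η hη => ?_⟩
    have h2 : η = 0 := by
      by_contra h3
      have hn : 0 < ‖η‖ := norm_pos_iff.2 h3
      refine hex ⟨((‖η‖⁻¹ : ℝ) : ℂ) • η, ?_, ?_⟩
      · rw [norm_smul, Complex.norm_real, norm_inv, norm_norm, inv_mul_cancel₀ hn.ne']
      · rw [map_smul, hη]
    rw [h2]
    simp

end Pool.Agent.W661.Nrm
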