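import Pool.Agent.W661.Nrm3

/-! # Bounded products and complete positivity -/

set_option autoImplicit false

open scoped CStarAlgebra ComplexOrder InnerProductSpace ENNReal
open ContinuousLinearMap

namespace Pool.Agent.W661.Nrm

universe u v

section bil

variable {B : Type*} [CStarAlgebra B] [PartialOrder B] [StarOrderedRing B] {k : ℕ}

/-- a matrix is nonnegative if its form is -/
lemma nonneg_of_bil (M : CStarMatrix (Fin k) (Fin k) B) (hM : IsSelfAdjoint M)
    (h : ∀ z : Fin k → B, 0 ≤ bil M z z) : 0 ≤ M := by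
  by_contra hcon
  have h1 : ¬ (-M) ≤ 0 := by
    intro h2
    exact hcon (neg_nonpos.1 h2)
  obtain ⟨z, hz1, hz2⟩ := exists_column (-M) hM.neg h1
  have h2 : bil (-M) z z = - bil M z z := by
    unfold bil
    rw [← Finset.sum_neg_distrib]
    refine Finset.sum_congr rfl fun i _ => ?_
    rw [← Finset.sum_neg_distrib]
    refine Finset.sum_congr rfl fun j _ => ?_
    rw [CStarMatrix.neg_apply, mul_neg, neg_mul]
  rw [h2] at hz1 hz2
  have h3 : bil M z z = 0 := le_antisymm (by simpa using hz1) (h z)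
  rw [h3, neg_zero] at hz2
  exact hz2 rfl

set_option backward.isDefEq.respectTransparency false in
lemma bil_nonneg (M : CStarMatrix (Fin k) (Fin k) B) (hM : 0 ≤ M) (z : Fin k → B) :
    0 ≤ bil M z z := by
  obtain ⟨N, rfl⟩ := (CStarAlgebra.nonneg_iff_eq_star_mul_self).1 hM
  have : bil (star N * N) z z = ∑ l, star (∑ i, N l i * z i) * (∑ j, N l j * z j) := by
    unfold bil
    simp only [CStarMatrix.mul_apply, CStarMatrix.star_apply, Finset.mul_sum, Finset.sum_mul,
      star_sum, star_mul]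
    have h1 : ∀ x : Fin k, ∑ y, ∑ i, star (z x) * (star (N i x) * N i y) * z y =
        ∑ i, ∑ y, star (z x) * (star (N i x) * N i y) * z y := fun y => Finset.sum_comm
    simp only [h1]
    rw [Finset.sum_comm]
    refine Finset.sum_congr rfl fun i _ => ?_
    rw [Finset.sum_comm]
    refine Finset.sum_congr rfl fun x _ => Finset.sum_congr rfl fun y _ => ?_
    simp only [mul_assoc]
  rw [this]
  exact Finset.sum_nonneg fun l _ => star_mul_self_nonneg _

end bil

section prod

variable {J : Type u} (T : J → Type v) [∀ j, CStarAlgebra (T j)] [∀ j, Nontrivial (T j)]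
  [∀ j, PartialOrder (T j)] [∀ j, StarOrderedRing (T j)]

/-- the bounded product -/
abbrev BP : Type (max u v) := lp T ∞

noncomputable instance : CStarAlgebra (BP T) where

noncomputable instance : PartialOrder (BP T) := CStarAlgebra.spectralOrder (BP T)

instance : StarOrderedRing (BP T) := CStarAlgebra.spectralOrderedRing (BP T)

variable {T}

omit [∀ j, PartialOrder (T j)] [∀ j, StarOrderedRing (T j)] in
lemma BP.sum_apply {κ : Type*} (s : Finset κ) (f : κ → BP T) (j : J) :
    (∑ i ∈ s, f i) j = ∑ i ∈ s, f i j := by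
  rw [lp.coeFn_sum, Finset.sum_apply]

lemma BP.nonneg (x : BP T) (h : ∀ j, 0 ≤ x j) : 0 ≤ x := by
  have hb : BddAbove (Set.range fun j => ‖CFC.sqrt (x j)‖) := by
    refine ⟨Real.sqrt ‖x‖, ?_⟩
    rintro _ ⟨j, rfl⟩
    refine Real.le_sqrt_of_sq_le ?_
    have h1 : CFC.sqrt (x j) * CFC.sqrt (x j) = x j := CFC.sqrt_mul_sqrt_self (x j) (h j)
    have h2 : star (CFC.sqrt (x j)) = CFC.sqrt (x j) :=
      (IsSelfAdjoint.of_nonneg (CFC.sqrt_nonneg (x j))).star_eq
    have h3 := CStarRing.norm_star_mul_self (x := CFC.sqrt (x j))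
    rw [h2, h1] at h3
    show ‖CFC.sqrt (x j)‖ ^ 2 ≤ ‖x‖
    rw [sq, ← h3]
    exact lp.norm_apply_le_norm ENNReal.top_ne_zero x j
  let y : BP T := ⟨fun j => CFC.sqrt (x j), memℓp_infty hb⟩
  have hy : x = star y * y := by
    apply lp.ext
    funext j
    rw [lp.infty_coeFn_mul, Pi.mul_apply, lp.star_apply]
    show x j = star (CFC.sqrt (x j)) * CFC.sqrt (x j)
    rw [(IsSelfAdjoint.of_nonneg (CFC.sqrt_nonneg (x j))).star_eq,
      CFC.sqrt_mul_sqrt_self (x j) (h j)]
  rw [hy]
  exact star_mul_self_nonneg y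

variable {B : Type*} [CStarAlgebra B] [PartialOrder B] [StarOrderedRing B]

/-- a bounded family of linear maps gives a linear map into the bounded product -/
noncomputable def BP.lift (f : ∀ j, B →ₗ[ℂ] T j) (hf : ∀ j b, ‖f j b‖ ≤ ‖b‖) : B →ₗ[ℂ] BP T where
  toFun b := ⟨fun j => f j b, memℓp_infty ⟨‖b‖, by rintro _ ⟨j, rfl⟩; exact hf j b⟩⟩
  map_add' a b := by
    apply lp.ext
    funext j
    exact map_add (f j) a b
  map_smul' c a := by
    apply lp.ext
    funext j
    exact map_smul (f j) c a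

lemma BP.lift_apply (f : ∀ j, B →ₗ[ℂ] T j) (hf : ∀ j b, ‖f j b‖ ≤ ‖b‖) (b : B) (j : J) :
    BP.lift f hf b j = f j b := rfl

lemma BP.lift_cp (f : ∀ j, B →CP T j) (hf : ∀ j b, ‖f j b‖ ≤ ‖b‖) (k : ℕ)
    (M : CStarMatrix (Fin k) (Fin k) B) (hM : 0 ≤ M) :
    0 ≤ M.map (BP.lift (fun j => (f j).toLinearMap) hf) := by
  have hstar : ∀ b, BP.lift (fun j => (f j).toLinearMap) hf (star b) =
      star (BP.lift (fun j => (f j).toLinearMap) hf b) := by
    intro b
    apply lp.ext
    funext j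
    rw [lp.star_apply]
    exact map_star (f j) b
  refine nonneg_of_bil _ ?_ ?_
  · have h1 : star M = M := (IsSelfAdjoint.of_nonneg hM).star_eq
    ext i j
    rw [CStarMatrix.star_apply, CStarMatrix.map_apply, CStarMatrix.map_apply, ← hstar]
    conv_rhs => rw [← h1]
    rw [CStarMatrix.star_apply]
  · intro z
    refine BP.nonneg _ fun j => ?_
    have h1 : (bil (M.map (BP.lift (fun j => (f j).toLinearMap) hf)) z z) j =
        bil (M.map (f j)) (fun i => z i j) (fun i => z i j) := by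
      unfold bil
      rw [BP.sum_apply]
      refine Finset.sum_congr rfl fun i _ => ?_
      rw [BP.sum_apply]
      refine Finset.sum_congr rfl fun l _ => ?_
      rw [lp.infty_coeFn_mul, Pi.mul_apply, lp.infty_coeFn_mul, Pi.mul_apply, lp.star_apply]
      rfl
    rw [h1]
    exact bil_nonneg _ (CompletelyPositiveMapClass.map_cstarMatrix_nonneg' (f j) k M hM) _

end prod

section hilb

variable {A B : Type*} [CStarAlgebra A]
  [CStarAlgebra B] [PartialOrder B] [StarOrderedRing B]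
  {H : Type*} [NormedAddCommGroup H] [InnerProductSpace ℂ H] [CompleteSpace H]

omit [CompleteSpace H] in
lemma inner_flip (x y : H) (h : 0 ≤ ⟪x, y⟫_ℂ) :
    ((⟪y, x⟫_ℂ).re : ℂ) = ⟪y, x⟫_ℂ ∧ 0 ≤ (⟪y, x⟫_ℂ).re := by
  have h3 : ⟪y, x⟫_ℂ = starRingEnd ℂ ⟪x, y⟫_ℂ := (inner_conj_symm _ _).symm
  rw [h3]
  generalize ⟪x, y⟫_ℂ = z at h
  have h2 := Complex.le_def.1 h
  rw [Complex.zero_re, Complex.zero_im] at h2
  refine ⟨?_, ?_⟩
  · apply Complex.ext
    · simp
    · simp [← h2.2]
  · simpa using h2.1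

/-- the inner product criterion for complete positivity -/
lemma cp_of_inner (Θ : B →ₗ[ℂ] (H →L[ℂ] H))
    (hΘ : ∀ (k : ℕ) (M : CStarMatrix (Fin k) (Fin k) B), 0 ≤ M → ∀ v : Fin k → H,
      0 ≤ ∑ i, ∑ j, ⟪v i, Θ (M i j) (v j)⟫_ℂ) (k : ℕ) (M : CStarMatrix (Fin k) (Fin k) B)
    (hM : 0 ≤ M) : 0 ≤ M.map Θ := by
  have hpos : ∀ b : B, 0 ≤ b → 0 ≤ Θ b := by
    intro b hb
    rw [nonneg_iff_isPositive, isPositive_iff_complex]
    intro x
    have h1 := hΘ 1 (kap 0 b) (map_nonneg (kap 0) hb) (fun _ => x)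
    simp only [Finset.univ_unique, Finset.sum_singleton, kap_apply] at h1
    rw [if_pos ⟨rfl, rfl⟩] at h1
    exact inner_flip _ _ h1
  let Θp : B →ₚ[ℂ] (H →L[ℂ] H) := PositiveLinearMap.mk₀ Θ hpos
  have hstar : ∀ b, Θ (star b) = star (Θ b) := fun b => map_star Θp b
  refine nonneg_of_bil _ ?_ ?_
  · have h1 : star M = M := (IsSelfAdjoint.of_nonneg hM).star_eq
    ext1 i j
    rw [CStarMatrix.star_apply, CStarMatrix.map_apply, CStarMatrix.map_apply, ← hstar]
    congr 1
    conv_rhs => rw [← h1]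
    rw [CStarMatrix.star_apply]
  · intro z
    rw [nonneg_iff_isPositive, isPositive_iff_complex]
    intro x
    have h1 := hΘ k M hM (fun i => z i x)
    have h4 : ⟪x, bil (M.map Θ) z z x⟫_ℂ = ∑ i, ∑ j, ⟪z i x, Θ (M i j) (z j x)⟫_ℂ := by
      unfold bil
      rw [sum_apply, inner_sum]
      refine Finset.sum_congr rfl fun i _ => ?_
      rw [sum_apply, inner_sum]
      refine Finset.sum_congr rfl fun j _ => ?_
      rw [mul_apply_eq_comp, mul_apply_eq_comp, star_eq_adjoint, adjoint_inner_right]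
      rfl
    rw [← h4] at h1
    exact inner_flip _ _ h1

end hilb

end Pool.Agent.W661.Nrm
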