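import Pool.Agent.W661.Nrm7

/-! # Kishimoto's condition implies norming: conclusion -/

set_option autoImplicit false

open scoped CStarAlgebra ComplexOrder

namespace Pool.Agent.W661.Nrm

variable {A B G : Type*} [CStarAlgebra A] [PartialOrder A] [StarOrderedRing A]
  [CStarAlgebra B] [PartialOrder B] [StarOrderedRing B] [Group G] {α : G →* (A ≃⋆ₐ[ℂ] A)}
  {ι : A →⋆ₐ[ℂ] B} {u : G →* unitary B} {E : B →L[ℂ] A} {k : ℕ}

lemma sum_eq_bil (X : CStarMatrix (Fin k) (Fin k) B) (r c : Fin k → A) :
    ∑ i, ∑ j, ι (r i) * X i j * ι (c j) =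
      bil X (fun i => ι (star (r i))) (fun j => ι (c j)) := by
  unfold bil
  refine Finset.sum_congr rfl fun i _ => Finset.sum_congr rfl fun j _ => ?_
  rw [← map_star, star_star]

lemma ip_ι (c d : Fin k → A) :
    ip (fun i => ι (c i)) (fun i => ι (d i)) = ι (∑ i, star (c i) * d i) := by
  unfold ip
  rw [map_sum]
  refine Finset.sum_congr rfl fun i _ => ?_
  rw [map_mul, map_star]

lemma bil_star_mul (X : CStarMatrix (Fin k) (Fin k) B) (z : Fin k → B) :
    bil (star X * X) z z = ip (fun l => ∑ j, X l j * z j) (fun l => ∑ j, X l j * z j) := by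
  unfold bil ip
  simp only [CStarMatrix.mul_apply, CStarMatrix.star_apply, Finset.mul_sum, Finset.sum_mul,
    star_sum, star_mul]
  rw [Finset.sum_comm]
  have h1 : ∀ y : Fin k, ∑ x, ∑ i, star (z x) * (star (X i x) * X i y) * z y =
      ∑ i, ∑ x, star (z x) * (star (X i x) * X i y) * z y := fun y => Finset.sum_comm
  simp only [h1]
  rw [Finset.sum_comm]
  refine Finset.sum_congr rfl fun i _ => ?_
  refine Finset.sum_congr rfl fun x _ => Finset.sum_congr rfl fun y _ => ?_
  simp only [mul_assoc]

lemma bil_col (j0 : Fin k) (v z : Fin k → B) :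
    bil (col j0 v * star (col j0 v)) z z = ip z v * star (ip z v) := by
  unfold bil ip
  have h1 : ∀ i j : Fin k, (col j0 v * star (col j0 v)) i j = v i * star (v j) := by
    intro i j
    simp only [CStarMatrix.mul_apply, CStarMatrix.star_apply, col_apply]
    rw [Finset.sum_eq_single j0]
    · simp
    · intro l _ hl
      simp [hl]
    · intro hl
      exact absurd (Finset.mem_univ _) hl
  simp only [h1]
  rw [star_sum, Finset.sum_mul_sum]
  refine Finset.sum_congr rfl fun i _ => Finset.sum_congr rfl fun j _ => ?_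
  rw [star_mul, star_star]
  simp only [mul_assoc]

/-- **Kishimoto's condition implies norming.** -/
theorem norms_of_KC (h : IsReducedCrossedProduct α ι u E) (hKC : ∀ g : G, g ≠ 1 → KC ι u g) :
    Norms ι := by
  intro k hk X
  constructor
  · rintro t ⟨r, c, hr, hc, rfl⟩
    rw [sum_eq_bil]
    refine norm_bil_le X _ _ ?_ ?_
    · rw [ip_ι]
      refine (norm_ι_le ι _).trans ?_
      simpa only [star_star] using hr
    · rw [ip_ι]
      exact (norm_ι_le ι _).trans hc
  · intro b hb
    by_contra hcon
    push Not at hcon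
    have hb0 : 0 ≤ b := by
      have := hb ⟨fun _ => 0, fun _ => 0, by simp, by simp, rfl⟩
      exact (norm_nonneg _).trans this
    set ε : ℝ := (‖X‖ * ‖X‖ - b * b) / 4 with hε
    have hε0 : 0 < ε := by
      have : b * b < ‖X‖ * ‖X‖ := by nlinarith
      rw [hε]
      linarith
    have hYX : 0 ≤ star X * X := by
      set_option backward.isDefEq.respectTransparency false in
      exact star_mul_self_nonneg X
    obtain ⟨c, hc1, hc2⟩ := main_pos h hKC (star X * X) hYX hε0
    rw [CStarRing.norm_star_mul_self, bil_star_mul] at hc2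
    set v : Fin k → B := fun l => ∑ j, X l j * ι (c j) with hv
    let j0 : Fin k := ⟨0, hk⟩
    have hY2 : 0 ≤ col j0 v * star (col j0 v) := by
      set_option backward.isDefEq.respectTransparency false in
      exact mul_star_self_nonneg (col j0 v)
    obtain ⟨c', hc1', hc2'⟩ := main_pos h hKC (col j0 v * star (col j0 v)) hY2 hε0
    have hn : ‖col j0 v * star (col j0 v)‖ = ‖ip v v‖ := by
      rw [CStarRing.norm_self_mul_star, ← sq, norm_col_sq]
    rw [bil_col, hn, CStarRing.norm_self_mul_star] at hc2'
    have hmem := hb ⟨fun i => star (c' i), c, by simpa only [star_star] using hc1', hc1, rfl⟩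
    have h1 : ∑ i, ∑ j, ι (star (c' i)) * X i j * ι (c j) = ip (fun i => ι (c' i)) v := by
      unfold ip
      refine Finset.sum_congr rfl fun i _ => ?_
      rw [hv, Finset.mul_sum]
      refine Finset.sum_congr rfl fun j _ => ?_
      rw [map_star, mul_assoc]
    rw [h1] at hmem
    set q : ℝ := ‖ip (fun i => ι (c' i)) v‖ with hq
    have hq0 : 0 ≤ q := norm_nonneg _
    have h2 : q * q ≤ b * b := mul_self_le_mul_self hq0 hmem
    linarith

end Pool.Agent.W661.Nrm
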