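import Pool.Agent.W661.NrmDefs

/-! # Injective envelopes and pseudo-expectations: definitions -/

set_option autoImplicit false

open scoped CStarAlgebra ComplexOrder

namespace Pool.Agent.W661.Nrm

universe u v

/-- the completely positive map `F` extends the map `f` along `i` -/
def Extends {C : Type u} {T : Type v} {I : Type*} [CStarAlgebra C] [CStarAlgebra T]
    [PartialOrder T] [StarOrderedRing T] [CStarAlgebra I] [PartialOrder I] [StarOrderedRing I]
    (i : C →⋆ₐ[ℂ] T) (f : C → I) (F : T →CP I) : Prop :=
  ∀ c, F (i c) = f c

/-- the unital C*-algebra `I` is injective: unital completely positive maps `C → I` extend to unital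
completely positive maps `T → I`, for every inclusion `i` of unital C*-algebras `C ⊆ T` -/
def IsInjective (I : Type u) [CStarAlgebra I] [PartialOrder I] [StarOrderedRing I] : Prop :=
  ∀ (C T : Type u) [CStarAlgebra C] [PartialOrder C] [StarOrderedRing C] [CStarAlgebra T]
    [PartialOrder T] [StarOrderedRing T] (i : C →⋆ₐ[ℂ] T) (f : C →CP I),
    Function.Injective i → f 1 = 1 → ∃ F : T →CP I, Extends i f F

/-- `j : A → I` is an injective envelope of the unital C*-algebra `A`: `I` is injective, `j` is
injective, and the extension is rigid: the identity is the only completely positive map `I → I` which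
is the identity on `A` -/
structure IsInjectiveEnvelope {A I : Type u} [CStarAlgebra A] [CStarAlgebra I] [PartialOrder I]
    [StarOrderedRing I] (j : A →⋆ₐ[ℂ] I) : Prop where
  inj : Function.Injective j
  injective : IsInjective I
  rigid : ∀ F : I →CP I, Extends j j F → ∀ x, F x = x

/-- the inclusion `ι : A → B` has a unique pseudo-expectation, where `j : A → I` is the injective
envelope of `A`: there is exactly one completely positive map `θ : B → I` with `θ ∘ ι = j`
(such a map is unital) -/
def UniquePseudo {A I : Type u} {B : Type v} [CStarAlgebra A] [CStarAlgebra I] [PartialOrder I]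
    [StarOrderedRing I] [CStarAlgebra B] [PartialOrder B] [StarOrderedRing B] (ι : A →⋆ₐ[ℂ] B)
    (j : A →⋆ₐ[ℂ] I) : Prop :=
  ∃! θ : B →CP I, Extends ι j θ

end Pool.Agent.W661.Nrm
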