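import Pool.Agent.W661.Nrm14
import Pool.Agent.W661.Nrm15
import Pool.Agent.W661.Nrm8
import Pool.Agent.W661.NrmInj

/-! # A unique pseudo-expectation implies Kishimoto's condition -/

set_option autoImplicit false

open scoped CStarAlgebra ComplexOrder ComplexStarModule InnerProductSpace ENNReal
open ContinuousLinearMap

namespace Pool.Agent.W661.Nrm

universe u v w

section PS

variable (A : Type u) [CStarAlgebra A] [PartialOrder A] [StarOrderedRing A]

/-- the pure states -/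
def PS : Type u := {φ : A →ₚ[ℂ] ℂ // Pure φ}

variable {A}

/-- the operators on the GNS space of a pure state -/
abbrev TT (φ : PS A) : Type u := φ.1.GNS →L[ℂ] φ.1.GNS

instance (φ : PS A) : Nontrivial (TT φ) := by
  have h1 : om φ.1 ≠ 0 := by
    intro h
    have h2 := gns_inner φ.1 1
    rw [h, inner_zero_left, φ.2.one] at h2
    exact zero_ne_one h2
  refine ⟨⟨1, 0, fun h => h1 ?_⟩⟩
  have := congrArg (fun T : TT φ => T (om φ.1)) h
  simpa using this

/-- the direct sum of the GNS representations of the pure states -/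
noncomputable def piAll : A →⋆ₐ[ℂ] BP (fun φ : PS A => TT φ) where
  toFun a := ⟨fun φ => φ.1.gnsStarAlgHom a, memℓp_infty ⟨‖a‖, by
    rintro _ ⟨φ, rfl⟩
    exact NonUnitalStarAlgHom.norm_apply_le φ.1.gnsStarAlgHom a⟩⟩
  map_one' := by
    apply lp.ext
    funext φ
    rw [lp.infty_coeFn_one]
    exact map_one φ.1.gnsStarAlgHom
  map_mul' a b := by
    apply lp.ext
    funext φ
    rw [lp.infty_coeFn_mul]
    exact map_mul φ.1.gnsStarAlgHom a b
  map_zero' := by
    apply lp.ext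
    funext φ
    exact map_zero φ.1.gnsStarAlgHom
  map_add' a b := by
    apply lp.ext
    funext φ
    exact map_add φ.1.gnsStarAlgHom a b
  commutes' r := by
    apply lp.ext
    funext φ
    rw [Algebra.algebraMap_eq_smul_one, Algebra.algebraMap_eq_smul_one, lp.coeFn_smul,
      lp.infty_coeFn_one]
    show φ.1.gnsStarAlgHom (r • 1) = r • 1
    rw [map_smul, map_one]
  map_star' a := by
    apply lp.ext
    funext φ
    rw [lp.star_apply]
    exact map_star φ.1.gnsStarAlgHom a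

lemma piAll_apply (a : A) (φ : PS A) : piAll a φ = φ.1.gnsStarAlgHom a := rfl

lemma piAll_injective : Function.Injective (piAll (A := A)) := by
  intro a b hab
  by_contra hne
  have h0 : star (a - b) * (a - b) ≠ 0 := by
    intro h
    exact hne (sub_eq_zero.1 ((CStarRing.star_mul_self_eq_zero_iff _).1 h))
  obtain ⟨φ, hφ, hφ0⟩ := exists_pure _ (star_mul_self_nonneg (a - b)) h0
  apply hφ0
  have h1 : piAll (a - b) = 0 := by rw [map_sub, hab, sub_self]
  have h2 : φ.gnsStarAlgHom (a - b) = 0 := by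
    exact congrArg (fun x : BP (fun φ : PS A => TT φ) => x ⟨φ, hφ⟩) h1
  rw [← gns_inner, map_mul, h2, mul_zero, zero_apply, inner_zero_right]

variable {B : Type v} [CStarAlgebra B] [PartialOrder B] [StarOrderedRing B] {ι : A →⋆ₐ[ℂ] B}

/-- assembling compressions -/
lemma exists_assemble (Θ : ∀ φ : PS A, B →ₗ[ℂ] TT φ)
    (hΘ : ∀ φ : PS A, Comp ι φ.1.gnsStarAlgHom (Θ φ)) :
    ∃ F : B →CP BP (fun φ : PS A => TT φ), ∀ b φ, F b φ = Θ φ b := by
  let f : ∀ φ : PS A, B →CP TT φ := fun φ =>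
    { toLinearMap := Θ φ
      map_cstarMatrix_nonneg' := cp_of_inner (Θ φ) (hΘ φ).cp }
  have hf : ∀ φ b, ‖f φ b‖ ≤ ‖b‖ := fun φ b => (hΘ φ).norm_le b
  exact ⟨{ toLinearMap := BP.lift (fun φ => (f φ).toLinearMap) hf
           map_cstarMatrix_nonneg' := BP.lift_cp f hf }, fun b φ => rfl⟩

end PS

lemma exists_cp_comp {X Y Z : Type*} [CStarAlgebra X] [PartialOrder X] [StarOrderedRing X]
    [CStarAlgebra Y] [PartialOrder Y] [StarOrderedRing Y] [CStarAlgebra Z] [PartialOrder Z]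
    [StarOrderedRing Z] (F : X →CP Y) (K : Y →CP Z) : ∃ L : X →CP Z, ∀ x, L x = K (F x) := by
  refine ⟨{ toLinearMap := K.toLinearMap ∘ₗ F.toLinearMap
            map_cstarMatrix_nonneg' := fun k M hM => ?_ }, fun x => rfl⟩
  exact CompletelyPositiveMapClass.map_cstarMatrix_nonneg' K k _
    (CompletelyPositiveMapClass.map_cstarMatrix_nonneg' F k M hM)

lemma cp_star {X Y : Type*} [CStarAlgebra X] [PartialOrder X] [StarOrderedRing X]
    [CStarAlgebra Y] [PartialOrder Y] [StarOrderedRing Y] (F : X →CP Y) (x : X) :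
    F (star x) = star (F x) := map_star F x

/-- the key lower bound in one representation -/
lemma lower_bound {H : Type*} [NormedAddCommGroup H] [InnerProductSpace ℂ H] [CompleteSpace H]
    (R : H →L[ℂ] H) (D : H →L[ℂ] H) {c : ℝ}
    (h : ∀ ξ : H, c * ‖D ξ‖ ^ 2 ≤ 2 * (⟪ξ, R ξ⟫_ℂ).re) :
    0 ≤ star R + R - c • (star D * D) := by
  rw [nonneg_iff_isPositive, isPositive_iff_complex]
  intro ξ
  apply inner_flip
  have h1 : ⟪ξ, (star R + R - c • (star D * D)) ξ⟫_ℂ =
      ((2 * (⟪ξ, R ξ⟫_ℂ).re - c * ‖D ξ‖ ^ 2 : ℝ) : ℂ) := by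
    have e1 : (star R + R - c • (star D * D)) ξ = star R ξ + R ξ - (c : ℂ) • (star D (D ξ)) := by
      rw [sub_apply, add_apply]
      rfl
    rw [e1, inner_sub_right, inner_add_right, inner_smul_right, star_eq_adjoint, star_eq_adjoint,
      adjoint_inner_right, adjoint_inner_right, inner_self_eq_norm_sq_to_K, ← inner_conj_symm]
    push_cast
    have e2 : ∀ z : ℂ, starRingEnd ℂ z + z = 2 * (z.re : ℂ) := by
      intro z
      apply Complex.ext
      · simp
        ring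
      · simp
    rw [e2]
    rfl
  rw [h1]
  have := h ξ
  exact_mod_cast sub_nonneg.2 this

variable {A I : Type u} {B : Type v} {G : Type w} [CStarAlgebra A] [PartialOrder A]
  [StarOrderedRing A] [CStarAlgebra B] [PartialOrder B] [StarOrderedRing B] [CStarAlgebra I]
  [PartialOrder I] [StarOrderedRing I] [Group G] {α : G →* (A ≃⋆ₐ[ℂ] A)}
  {ι : A →⋆ₐ[ℂ] B} {u : G →* unitary B} {E : B →L[ℂ] A}

/-- all the compressions have the same composition with the projection onto the injective algebra -/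
lemma exists_proj (h : IsReducedCrossedProduct α ι u E) (j : A →⋆ₐ[ℂ] I) (hI : IsInjective I)
    (hu : ∀ θ1 θ2 : B →CP I, Extends ι j θ1 → Extends ι j θ2 → θ1 = θ2) :
    ∃ Ψ : BP (fun φ : PS A => TT φ) →CP I, (∀ a, Ψ (piAll a) = j a) ∧
      ∀ F : B →CP BP (fun φ : PS A => TT φ), (∀ a, F (ι a) = piAll a) → ∀ b, Ψ (F b) = j (E b) := by
  let f : A →CP I :=
    { toLinearMap := (j : A →ₗ[ℂ] I)
      map_cstarMatrix_nonneg' := fun k M hM =>
        CompletelyPositiveMapClass.map_cstarMatrix_nonneg' j k M hM }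
  obtain ⟨Ψ, hΨ⟩ := hI A (BP (fun φ : PS A => TT φ)) piAll f piAll_injective (map_one j)
  have hΨ' : ∀ a, Ψ (piAll a) = j a := hΨ
  refine ⟨Ψ, hΨ', fun F hF b => ?_⟩
  choose ΘE hΘE hΘE2 using fun φ : PS A => exists_comp_expect h φ.1
  obtain ⟨FE, hFE⟩ := exists_assemble ΘE hΘE
  have hFE2 : ∀ b, FE b = piAll (E b) := by
    intro b
    apply lp.ext
    funext φ
    rw [hFE, hΘE2]
    rfl
  obtain ⟨L1, hL1⟩ := exists_cp_comp F Ψ
  obtain ⟨L2, hL2⟩ := exists_cp_comp FE Ψ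
  have h3 : L1 = L2 := by
    refine hu L1 L2 (fun a => ?_) (fun a => ?_)
    · rw [hL1, hF, hΨ']
    · rw [hL2, hFE2, h.coeff_one, hΨ']
  rw [← hL1, h3, hL2, hFE2, hΨ']

/-- **a unique pseudo-expectation implies Kishimoto's condition** -/
theorem KC_of_unique (h : IsReducedCrossedProduct α ι u E) (j : A →⋆ₐ[ℂ] I)
    (hj : Function.Injective j) (hI : IsInjective I)
    (hu : ∀ θ1 θ2 : B →CP I, Extends ι j θ1 → Extends ι j θ2 → θ1 = θ2) {g : G} (hg : g ≠ 1) :
    KC ι u g := by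
  classical
  by_contra hcon
  unfold KC at hcon
  push Not at hcon
  obtain ⟨a0, e, he, ε, hε, hfail0⟩ := hcon
  have hfail : ∀ d ∈ Dd e, 0 ≤ d → ε * (‖d‖ * ‖d‖) ≤ ‖ι d * (ι a0 * (u g : B)) * ι d‖ := by
    intro d hd hd0
    rcases eq_or_ne d 0 with h0 | h0
    · rw [h0]
      simp
    · have hn : 0 < ‖d‖ := norm_pos_iff.2 h0
      have h1 := hfail0 (‖d‖⁻¹ • d) (Dd_smul _ hd) (smul_nonneg (by positivity) hd0) (by
        rw [norm_smul, norm_inv, norm_norm, inv_mul_cancel₀ hn.ne'])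
      have h2 : ι (‖d‖⁻¹ • d) * ι a0 * (u g : B) * ι (‖d‖⁻¹ • d) =
          (‖d‖⁻¹ * ‖d‖⁻¹) • (ι d * (ι a0 * (u g : B)) * ι d) := by
        rw [ι_rsmul, smul_mul_assoc, smul_mul_assoc, smul_mul_smul_comm]
        simp only [mul_assoc]
      rw [h2, norm_smul, Real.norm_eq_abs, abs_of_nonneg (by positivity)] at h1
      have h3 := mul_le_mul_of_nonneg_left h1 (by positivity : 0 ≤ ‖d‖ * ‖d‖)
      have h4 : ‖d‖ * ‖d‖ * (‖d‖⁻¹ * ‖d‖⁻¹ * ‖ι d * (ι a0 * (u g : B)) * ι d‖) =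
          ‖ι d * (ι a0 * (u g : B)) * ι d‖ := by
        field_simp
      rw [h4] at h3
      linarith
  obtain ⟨P, hP, hP0, hPn⟩ := exists_pos he
  obtain ⟨e1, d, -, -, he1, -, -, -, he10, he1n, hd, -, hd0, hdn⟩ := shrink he.sa hP hP0 hPn
  set y : B := ι a0 * (u g : B) with hy
  set c : ℝ := (ε / 64) ^ 2 / (‖a0‖ + 1) with hc
  have ha0 : 0 ≤ ‖a0‖ := norm_nonneg a0
  have hcp : 0 < c := by positivity
  choose μ hμ Θ hΘ hval using fun φ : PS A => local_choice h hg a0 he1 he10 he1n hε hfail φ.2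
  choose ΘE hΘE hΘE2 using fun φ : PS A => exists_comp_expect h φ.1
  obtain ⟨Ψ, hΨ, hΨ2⟩ := exists_proj h j hI hu
  -- the finite net
  set δ : ℝ := c / (2 * (‖y‖ + 1)) with hδ
  have hy0 : 0 ≤ ‖y‖ := norm_nonneg y
  have hδp : 0 < δ := by positivity
  have hδy : δ * ‖y‖ ≤ c / 2 := by
    calc δ * ‖y‖ ≤ δ * (‖y‖ + 1) := by gcongr; linarith
      _ = c / 2 := by rw [hδ]; field_simp
  obtain ⟨t, -, htf, htc⟩ := (isCompact_sphere (0 : ℂ) 1).finite_cover_balls hδp
  have hν : ∀ φ : PS A, ∃ ν ∈ htf.toFinset, ‖μ φ - ν‖ < δ := by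
    intro φ
    have h1 : μ φ ∈ Metric.sphere (0 : ℂ) 1 := by
      rw [mem_sphere_zero_iff_norm]
      exact hμ φ
    obtain ⟨ν, hν, hν2⟩ := Set.mem_iUnion₂.1 (htc h1)
    refine ⟨ν, htf.mem_toFinset.2 hν, ?_⟩
    rwa [mem_ball_iff_norm] at hν2
  choose ν hνt hνδ using hν
  set t' := htf.toFinset with ht'
  choose F hF using fun ν0 : ℂ => exists_assemble (fun φ : PS A => if ν φ = ν0 then Θ φ else ΘE φ)
    (fun φ => by
      split_ifs
      · exact hΘ φ
      · exact hΘE φ)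
  have hFι : ∀ ν0 a, F ν0 (ι a) = piAll a := by
    intro ν0 a
    apply lp.ext
    funext φ
    rw [hF, piAll_apply]
    have hgen : ∀ Θ' : B →ₗ[ℂ] TT φ, Comp ι φ.1.gnsStarAlgHom Θ' →
        Θ' (ι a) = φ.1.gnsStarAlgHom a := by
      intro Θ' h'
      have := h'.left a 1
      rwa [mul_one, h'.one, mul_one] at this
    by_cases hcase : ν φ = ν0
    · rw [if_pos hcase]
      exact hgen _ (hΘ φ)
    · rw [if_neg hcase]
      exact hgen _ (hΘE φ)
  set y' : B := ι d * y * ι d with hy'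
  have hEy' : E y' = 0 := by
    rw [hy', h.E_bimod, hy, h.coeff_ne g a0 hg, mul_zero, zero_mul]
  set R : BP (fun φ : PS A => TT φ) := ∑ ν0 ∈ t', ν0 • F ν0 y' with hR
  have hΨR : Ψ R = 0 := by
    rw [hR, map_sum]
    refine Finset.sum_eq_zero fun ν0 _ => ?_
    rw [map_smul, hΨ2 _ (hFι ν0), hEy', map_zero, smul_zero]
  have hRφ : ∀ φ : PS A, R φ = ν φ • Θ φ y' := by
    intro φ
    rw [hR, BP.sum_apply]
    rw [Finset.sum_eq_single (ν φ)]
    · rw [lp.coeFn_smul, Pi.smul_apply, hF, if_pos rfl]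
    · intro ν0 _ hne
      rw [lp.coeFn_smul, Pi.smul_apply, hF, if_neg hne.symm, hΘE2, hEy', map_zero, smul_zero]
    · intro hn
      exact absurd (hνt φ) hn
  have hds : star d = d := (IsSelfAdjoint.of_nonneg hd0).star_eq
  have hS : 0 ≤ star R + R - c • (star (piAll d) * piAll d) := by
    refine BP.nonneg _ fun φ => ?_
    have h1 : (star R + R - c • (star (piAll d) * piAll d)) φ =
        star (R φ) + R φ - c • (star (φ.1.gnsStarAlgHom d) * φ.1.gnsStarAlgHom d) := by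
      rw [lp.coeFn_sub, Pi.sub_apply, lp.coeFn_add, Pi.add_apply, lp.star_apply, lp.coeFn_smul,
        Pi.smul_apply, lp.infty_coeFn_mul, Pi.mul_apply, lp.star_apply, piAll_apply]
    rw [h1]
    refine lower_bound _ _ fun ξ => ?_
    set π := φ.1.gnsStarAlgHom with hπ
    set η : φ.1.GNS := π d ξ with hη
    have hη1 : π e1 η = η := by
      rw [hη, ← mul_apply_eq_comp, ← map_mul, hd.1]
    have h2 := hval φ η hη1
    have h3 : ⟪ξ, R φ ξ⟫_ℂ = ν φ * ⟪η, Θ φ y η⟫_ℂ := by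
      rw [hRφ, smul_apply, inner_smul_right, hy', (hΘ φ).right, (hΘ φ).left, mul_apply_eq_comp,
        mul_apply_eq_comp]
      congr 1
      rw [hη, pi_inner, hds]
    have h4 : ‖(μ φ - ν φ) * ⟪η, Θ φ y η⟫_ℂ‖ ≤ c / 2 * ‖η‖ ^ 2 := by
      have h5 : ‖⟪η, Θ φ y η⟫_ℂ‖ ≤ ‖y‖ * ‖η‖ ^ 2 := by
        refine (norm_inner_le_norm _ _).trans ?_
        calc ‖η‖ * ‖Θ φ y η‖ ≤ ‖η‖ * (‖y‖ * ‖η‖) := by
              gcongr
              refine ((Θ φ y).le_opNorm η).trans ?_
              gcongr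
              exact (hΘ φ).norm_le y
          _ = ‖y‖ * ‖η‖ ^ 2 := by ring
      rw [norm_mul]
      calc ‖μ φ - ν φ‖ * ‖⟪η, Θ φ y η⟫_ℂ‖ ≤ δ * (‖y‖ * ‖η‖ ^ 2) := by
            have := (hνδ φ).le
            gcongr
        _ = (δ * ‖y‖) * ‖η‖ ^ 2 := by ring
        _ ≤ c / 2 * ‖η‖ ^ 2 := by gcongr
    have h6 : μ φ * ⟪η, Θ φ y η⟫_ℂ = (μ φ - ν φ) * ⟪η, Θ φ y η⟫_ℂ + ν φ * ⟪η, Θ φ y η⟫_ℂ := by
      ring
    rw [h3]
    rw [h6, Complex.add_re] at h2
    have h7 := (Complex.re_le_norm ((μ φ - ν φ) * ⟪η, Θ φ y η⟫_ℂ)).trans h4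
    linarith
  have hΨS : 0 ≤ Ψ (star R + R - c • (star (piAll d) * piAll d)) := map_nonneg Ψ hS
  have h8 : Ψ (star R + R - c • (star (piAll d) * piAll d)) = -(c • j (star d * d)) := by
    have e1 : Ψ (star R) = 0 := by
      rw [cp_star, hΨR, star_zero]
    have e2 : c • (star (piAll d) * piAll d) = (c : ℂ) • piAll (star d * d) := by
      rw [map_mul, map_star]
      rfl
    rw [map_sub, map_add, e1, hΨR, e2, map_smul, hΨ, add_zero, zero_sub, Complex.coe_smul]
  rw [h8] at hΨS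
  have h9 : 0 ≤ j (star d * d) := by
    rw [map_mul, map_star]
    exact star_mul_self_nonneg _
  have h10 : c • j (star d * d) = 0 :=
    le_antisymm (neg_nonneg.1 hΨS) (smul_nonneg hcp.le h9)
  have h11 : j (star d * d) = 0 := by
    rcases smul_eq_zero.1 h10 with h12 | h12
    · exact absurd h12 hcp.ne'
    · exact h12
  have h12 : star d * d = 0 := by
    apply hj
    rw [h11, map_zero]
  have h13 : d = 0 := (CStarRing.star_mul_self_eq_zero_iff d).1 h12
  rw [h13, norm_zero] at hdn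
  exact zero_ne_one hdn

/-- **a unique pseudo-expectation implies norming** -/
theorem norms_of_unique (h : IsReducedCrossedProduct α ι u E) (j : A →⋆ₐ[ℂ] I)
    (hj : Function.Injective j) (hI : IsInjective I)
    (hu : ∀ θ1 θ2 : B →CP I, Extends ι j θ1 → Extends ι j θ2 → θ1 = θ2) : Norms ι :=
  norms_of_KC h fun _ hg => KC_of_unique h j hj hI hu hg

end Pool.Agent.W661.Nrm
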