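import Pool.Agent.W661.NrmDefs
import Pool.Agent.W661.Nrm1

/-! # Elementary facts on reduced crossed products -/

set_option autoImplicit false

open scoped CStarAlgebra ComplexOrder

namespace Pool.Agent.W661.Nrm

variable {A B G : Type*} [CStarAlgebra A] [PartialOrder A] [StarOrderedRing A]
  [CStarAlgebra B] [PartialOrder B] [StarOrderedRing B] [Group G] {α : G →* (A ≃⋆ₐ[ℂ] A)}
  {ι : A →⋆ₐ[ℂ] B} {u : G →* unitary B} {E : B →L[ℂ] A}

namespace IsReducedCrossedProduct

omit [PartialOrder B] [StarOrderedRing B] in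
lemma ind (h : IsReducedCrossedProduct α ι u E) {p : B → Prop} (hc : IsClosed {b | p b})
    (h0 : p 0) (hadd : ∀ b c, p b → p c → p (b + c)) (hgen : ∀ a g, p (ι a * (u g : B))) :
    ∀ b, p b := by
  have h1 : ∀ c : G →₀ A, p (c.sum fun g a => ι a * (u g : B)) := by
    intro c
    refine Finset.sum_induction _ p hadd h0 ?_
    intro g _
    exact hgen _ _
  intro b
  have h2 : closure (Set.range fun c : G →₀ A => c.sum fun g a => ι a * (u g : B)) ⊆ {b | p b} :=
    closure_minimal (by rintro _ ⟨c, rfl⟩; exact h1 c) hc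
  exact h2 (h.dense b)

omit [PartialOrder A] [StarOrderedRing A] [PartialOrder B] [StarOrderedRing B] in
lemma u_mul_star (g : G) : (u g : B) * star (u g : B) = 1 := Unitary.coe_mul_star_self _

omit [PartialOrder A] [StarOrderedRing A] [PartialOrder B] [StarOrderedRing B] in
lemma star_mul_u (g : G) : star (u g : B) * (u g : B) = 1 := Unitary.coe_star_mul_self _

omit [PartialOrder B] [StarOrderedRing B] in
lemma u_mul_ι (h : IsReducedCrossedProduct α ι u E) (g : G) (a : A) :
    (u g : B) * ι a = ι (α g a) * (u g : B) := by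
  rw [← h.cov, mul_assoc _ (star (u g : B)), star_mul_u, mul_one]

omit [PartialOrder A] [StarOrderedRing A] [PartialOrder B] [StarOrderedRing B] in
lemma star_u (g : G) : star (u g : B) = (u g⁻¹ : B) := by
  rw [map_inv, ← Unitary.star_eq_inv]
  rfl

omit [PartialOrder A] [StarOrderedRing A] [PartialOrder B] [StarOrderedRing B] in
lemma u_mul_u (g k : G) : (u g : B) * (u k : B) = (u (g * k) : B) := by
  rw [map_mul]
  rfl

omit [PartialOrder A] [StarOrderedRing A] [PartialOrder B] [StarOrderedRing B] in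
lemma u_one : ((u 1 : unitary B) : B) = 1 := by
  rw [map_one]
  rfl

omit [PartialOrder A] [StarOrderedRing A] [PartialOrder B] [StarOrderedRing B] in
lemma norm_u [Nontrivial B] (g : G) : ‖(u g : B)‖ = 1 := CStarRing.norm_coe_unitary _

lemma E_bimod (h : IsReducedCrossedProduct α ι u E) (a c : A) (b : B) :
    E (ι a * b * ι c) = a * E b * c := by
  revert b
  refine h.ind ?_ ?_ ?_ ?_
  · apply isClosed_eq <;> fun_prop
  · simp
  · intro b b' h1 h2
    rw [mul_add, add_mul, map_add, h1, h2, map_add, mul_add, add_mul]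
  · intro x g
    have h1 : ι a * (ι x * (u g : B)) * ι c = ι (a * x * α g c) * (u g : B) := by
      rw [mul_assoc, mul_assoc (ι x), h.u_mul_ι, map_mul, map_mul]
      simp only [mul_assoc]
    rw [h1]
    by_cases hg : g = 1
    · subst hg
      rw [u_one, mul_one, mul_one, h.coeff_one, h.coeff_one, map_one]
      rfl
    · rw [h.coeff_ne _ _ hg, h.coeff_ne _ _ hg, mul_zero, zero_mul]

lemma E_star (h : IsReducedCrossedProduct α ι u E) (b : B) : E (star b) = star (E b) := by
  revert b
  refine h.ind ?_ ?_ ?_ ?_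
  · apply isClosed_eq <;> fun_prop
  · simp
  · intro b b' h1 h2
    rw [star_add, map_add, h1, h2, map_add, star_add]
  · intro x g
    have h1 : star (ι x * (u g : B)) = ι (α g⁻¹ (star x)) * (u g⁻¹ : B) := by
      rw [star_mul, star_u, ← map_star, h.u_mul_ι]
    rw [h1]
    by_cases hg : g = 1
    · subst hg
      rw [inv_one, u_one, mul_one, mul_one, h.coeff_one, h.coeff_one, map_one]
      rfl
    · rw [h.coeff_ne _ _ hg, h.coeff_ne _ _ (inv_ne_one.2 hg), star_zero]

lemma E_nonneg (h : IsReducedCrossedProduct α ι u E) {b : B} (hb : 0 ≤ b) : 0 ≤ E b := by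
  obtain ⟨c, rfl⟩ := (CStarAlgebra.nonneg_iff_eq_star_mul_self).1 hb
  exact h.pos c

lemma E_mono (h : IsReducedCrossedProduct α ι u E) {b c : B} (hb : b ≤ c) : E b ≤ E c := by
  rw [← sub_nonneg, ← map_sub]
  exact h.E_nonneg (sub_nonneg.2 hb)

lemma E_one (h : IsReducedCrossedProduct α ι u E) : E 1 = 1 := by
  rw [← map_one ι, h.coeff_one]

lemma norm_E_le (h : IsReducedCrossedProduct α ι u E) {b : B} (hb : IsSelfAdjoint b) :
    ‖E b‖ ≤ ‖b‖ := by
  have h1 := h.E_mono hb.le_algebraMap_norm_self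
  have h2 := h.E_mono hb.neg_algebraMap_norm_le_self
  have h3 : E (algebraMap ℝ B ‖b‖) = algebraMap ℝ A ‖b‖ := by
    rw [Algebra.algebraMap_eq_smul_one, Algebra.algebraMap_eq_smul_one, ← h.E_one]
    exact (E.restrictScalars ℝ).map_smul ‖b‖ 1
  have h4 : IsSelfAdjoint (E b) := by
    rw [IsSelfAdjoint, ← h.E_star, hb.star_eq]
  rw [map_neg] at h2
  rw [h3] at h1 h2
  exact norm_le_of_bounds h4 h1 h2 (norm_nonneg b)

end IsReducedCrossedProduct

end Pool.Agent.W661.Nrm
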