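import Pool.Agent.W661.Nrm1

/-! # Matrices over a C*-algebra -/

set_option autoImplicit false

open scoped CStarAlgebra ComplexOrder

namespace Pool.Agent.W661.Nrm

variable {B : Type*} [CStarAlgebra B] [PartialOrder B] [StarOrderedRing B] {k : ℕ}

/-- the sesquilinear form of a matrix -/
noncomputable def bil (X : CStarMatrix (Fin k) (Fin k) B) (z w : Fin k → B) : B :=
  ∑ i, ∑ j, star (z i) * X i j * w j

/-- the inner product of columns -/
noncomputable def ip (z w : Fin k → B) : B := ∑ i, star (z i) * w i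

/-- a column as a matrix -/
noncomputable def col (j0 : Fin k) (z : Fin k → B) : CStarMatrix (Fin k) (Fin k) B :=
  CStarMatrix.ofMatrix (fun i j => if j = j0 then z i else 0)

lemma col_apply (j0 : Fin k) (z : Fin k → B) (i j : Fin k) :
    col j0 z i j = if j = j0 then z i else 0 := rfl

lemma star_col_mul_mul (j0 : Fin k) (X : CStarMatrix (Fin k) (Fin k) B) (z w : Fin k → B) :
    (star (col j0 z) * X * col j0 w) j0 j0 = bil X z w := by
  simp only [CStarMatrix.mul_apply, CStarMatrix.star_apply, col_apply, if_true, bil,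
    Finset.sum_mul]
  rw [Finset.sum_comm]

/-- scalar placed at one diagonal entry -/
noncomputable def kapFun (j0 : Fin k) (b : B) : CStarMatrix (Fin k) (Fin k) B :=
  CStarMatrix.ofMatrix (fun i j => if i = j0 ∧ j = j0 then b else 0)

lemma kapFun_apply (j0 : Fin k) (b : B) (i j : Fin k) :
    kapFun j0 b i j = if i = j0 ∧ j = j0 then b else 0 := rfl

/-- scalar placed at one diagonal entry -/
noncomputable def kap (j0 : Fin k) : B →⋆ₙₐ[ℂ] CStarMatrix (Fin k) (Fin k) B where
  toFun b := kapFun j0 b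
  map_smul' c b := by
    ext i j
    rw [CStarMatrix.smul_apply, kapFun_apply, kapFun_apply, MonoidHom.id_apply, smul_ite,
      smul_zero]
  map_zero' := by
    ext i j
    rw [kapFun_apply, ite_self]
    rfl
  map_add' a b := by
    ext i j
    rw [CStarMatrix.add_apply, kapFun_apply, kapFun_apply, kapFun_apply]
    split_ifs <;> simp
  map_mul' a b := by
    ext i j
    simp only [CStarMatrix.mul_apply, kapFun_apply]
    by_cases hi : i = j0 <;> by_cases hj : j = j0 <;> simp [hi, hj]
  map_star' a := by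
    ext i j
    simp only [CStarMatrix.star_apply, kapFun_apply]
    by_cases hi : i = j0 <;> by_cases hj : j = j0 <;> simp [hi, hj]

lemma kap_apply (j0 : Fin k) (b : B) (i j : Fin k) :
    kap j0 b i j = if i = j0 ∧ j = j0 then b else 0 := rfl

lemma norm_kap_le (j0 : Fin k) (b : B) : ‖kap j0 b‖ ≤ ‖b‖ :=
  NonUnitalStarAlgHom.norm_apply_le (kap j0) b

lemma star_col_mul_col (j0 : Fin k) (z w : Fin k → B) :
    star (col j0 z) * col j0 w = kap j0 (ip z w) := by
  ext i j
  simp only [CStarMatrix.mul_apply, CStarMatrix.star_apply, col_apply, kap_apply, ip]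
  by_cases hi : i = j0 <;> by_cases hj : j = j0 <;> simp [hi, hj]

lemma norm_col_sq (j0 : Fin k) (z : Fin k → B) : ‖col j0 z‖ ^ 2 = ‖ip z z‖ := by
  have h : ‖col j0 z‖ ^ 2 = ‖kap j0 (ip z z)‖ := by
    rw [← star_col_mul_col, CStarRing.norm_star_mul_self, sq]
  rw [h]
  refine le_antisymm (norm_kap_le _ _) ?_
  have := CStarMatrix.norm_entry_le_norm (M := kap j0 (ip z z)) (i := j0) (j := j0)
  rwa [kap_apply, if_pos ⟨rfl, rfl⟩] at this

lemma norm_bil_le (X : CStarMatrix (Fin k) (Fin k) B) (z w : Fin k → B) (hz : ‖ip z z‖ ≤ 1)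
    (hw : ‖ip w w‖ ≤ 1) : ‖bil X z w‖ ≤ ‖X‖ := by
  rcases isEmpty_or_nonempty (Fin k) with he | ⟨⟨j0⟩⟩
  · have : bil X z w = 0 := by
      unfold bil
      simp
    rw [this, norm_zero]
    exact norm_nonneg _
  rw [← star_col_mul_mul j0]
  refine (CStarMatrix.norm_entry_le_norm).trans ?_
  refine (norm_mul_le _ _).trans ?_
  have h1 : ‖col j0 z‖ ≤ 1 := by
    rw [← norm_col_sq j0] at hz
    have := norm_nonneg (col j0 z)
    nlinarith
  have h2 : ‖col j0 w‖ ≤ 1 := by
    rw [← norm_col_sq j0] at hw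
    have := norm_nonneg (col j0 w)
    nlinarith
  have h3 : ‖star (col j0 z) * X‖ ≤ ‖X‖ := by
    refine (norm_mul_le _ _).trans ?_
    rw [norm_star]
    calc ‖col j0 z‖ * ‖X‖ ≤ 1 * ‖X‖ := by gcongr
      _ = ‖X‖ := one_mul _
  calc ‖star (col j0 z) * X‖ * ‖col j0 w‖ ≤ ‖X‖ * 1 := by gcongr
    _ = ‖X‖ := mul_one _

set_option backward.isDefEq.respectTransparency false in
lemma diag_nonneg {M : CStarMatrix (Fin k) (Fin k) B} (hM : 0 ≤ M) (j : Fin k) : 0 ≤ M j j := by
  obtain ⟨N, rfl⟩ := (CStarAlgebra.nonneg_iff_eq_star_mul_self).1 hM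
  rw [CStarMatrix.mul_apply]
  refine Finset.sum_nonneg fun l _ => ?_
  rw [CStarMatrix.star_apply]
  exact star_mul_self_nonneg _

set_option backward.isDefEq.respectTransparency false in
lemma exists_diag_ne {M : CStarMatrix (Fin k) (Fin k) B} (hM : 0 ≤ M) (h0 : M ≠ 0) :
    ∃ j, M j j ≠ 0 := by
  obtain ⟨N, rfl⟩ := (CStarAlgebra.nonneg_iff_eq_star_mul_self).1 hM
  by_contra hcon
  push Not at hcon
  apply h0
  have : N = 0 := by
    ext i j
    have h1 := hcon j
    rw [CStarMatrix.mul_apply, Finset.sum_eq_zero_iff_of_nonneg] at h1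
    · have h2 := h1 i (Finset.mem_univ _)
      rw [CStarMatrix.star_apply] at h2
      rw [(CStarRing.star_mul_self_eq_zero_iff _).1 h2]
      rfl
    · intro l _
      rw [CStarMatrix.star_apply]
      exact star_mul_self_nonneg _
  rw [this, mul_zero]

set_option backward.isDefEq.respectTransparency false in
/-- columns of a matrix detecting that `Y - m` is not negative -/
lemma exists_column (Y : CStarMatrix (Fin k) (Fin k) B) (hY : IsSelfAdjoint Y)
    (h : ¬ Y ≤ 0) : ∃ z : Fin k → B, 0 ≤ bil Y z z ∧ bil Y z z ≠ 0 := by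
  obtain ⟨w, hw, h1, h2⟩ := exists_posPart Y hY h
  obtain ⟨j, hj⟩ := exists_diag_ne h1 h2
  have hws : star w = w := hw.isSelfAdjoint
  have key : bil Y (fun i => w i j) (fun i => w i j) = (w * Y * w) j j := by
    conv_rhs => rw [← hws]
    simp only [CStarMatrix.mul_apply, CStarMatrix.star_apply, bil, Finset.sum_mul]
    rw [Finset.sum_comm]
    refine Finset.sum_congr rfl fun a _ => Finset.sum_congr rfl fun b _ => ?_
    have : star (w j a) = w a j := by
      conv_rhs => rw [← hws]
      rw [CStarMatrix.star_apply]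
    rw [this]
  refine ⟨fun i => w i j, ?_, ?_⟩
  · rw [key]; exact diag_nonneg h1 j
  · rw [key]; exact hj

end Pool.Agent.W661.Nrm
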