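import Pool.Agent.W661.Nrm2
import Pool.Agent.W661.Nrm3

/-! # Kishimoto's condition implies norming -/

set_option autoImplicit false

open scoped CStarAlgebra ComplexOrder

namespace Pool.Agent.W661.Nrm

variable {A B G : Type*} [CStarAlgebra A] [PartialOrder A] [StarOrderedRing A]
  [CStarAlgebra B] [PartialOrder B] [StarOrderedRing B] [Group G] {α : G →* (A ≃⋆ₐ[ℂ] A)}
  {ι : A →⋆ₐ[ℂ] B} {u : G →* unitary B} {E : B →L[ℂ] A}

/-- Kishimoto's condition for one group element -/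
def KC (ι : A →⋆ₐ[ℂ] B) (u : G →* unitary B) (g : G) : Prop :=
  ∀ (a e : A), Rm e → ∀ ε : ℝ, 0 < ε → ∃ d ∈ Dd e, 0 ≤ d ∧ ‖d‖ = 1 ∧
    ‖ι d * ι a * (u g : B) * ι d‖ < ε

omit [PartialOrder A] [StarOrderedRing A] [PartialOrder B] [StarOrderedRing B] in
lemma norm_ι_le (ι : A →⋆ₐ[ℂ] B) (a : A) : ‖ι a‖ ≤ ‖a‖ :=
  NonUnitalStarAlgHom.norm_apply_le (ι : A →⋆ₙₐ[ℂ] B) a

lemma small_fin (hKC : ∀ g : G, g ≠ 1 → KC ι u g) {κ : Type*} (F : Finset κ) (gg : κ → G)
    (aa : κ → A) (hne : ∀ i ∈ F, gg i ≠ 1) {ε : ℝ} (hε : 0 < ε) {e : A} (he : Rm e) :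
    ∃ e' : A, Rm e' ∧ (∀ d ∈ Dd e', d ∈ Dd e) ∧ ∀ i ∈ F, ∀ x ∈ Dd e', ∀ y ∈ Dd e',
      ‖ι x * ι (aa i) * (u (gg i) : B) * ι y‖ ≤ ε * ‖x‖ * ‖y‖ := by
  classical
  induction F using Finset.induction_on with
  | empty => exact ⟨e, he, fun d hd => hd, by simp⟩
  | insert i F hi ih =>
    obtain ⟨e1, h1, h2, h3⟩ := ih (fun j hj => hne j (Finset.mem_insert_of_mem hj))
    obtain ⟨d, hd, hd0, hdn, hds⟩ := hKC (gg i) (hne i (Finset.mem_insert_self _ _)) (aa i) e1 h1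
      (ε / 4) (by positivity)
    obtain ⟨e', d', g, k1, k2, k3, k4, k5, k6, k7, k8, k9, k10, k11⟩ := shrink h1.sa hd hd0 hdn
    refine ⟨e', k1, fun x hx => h2 x (Dd_sub k2 hx), ?_⟩
    intro j hj x hx y hy
    rcases Finset.mem_insert.1 hj with rfl | hj'
    · have hx1 : ι x = ι x * ι g * ι d := by
        rw [← map_mul, ← map_mul, mul_assoc, ← k5, hx.2]
      have hy1 : ι y = ι d * (ι g * ι y) := by
        rw [← map_mul, ← map_mul, ← mul_assoc, ← k4, hy.1]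
      have key : ι x * ι (aa j) * (u (gg j) : B) * ι y =
          ι x * ι g * (ι d * ι (aa j) * (u (gg j) : B) * ι d) * (ι g * ι y) := by
        conv_lhs => rw [hx1, hy1]
        simp only [mul_assoc]
      rw [key]
      have e1 : ‖ι x * ι g‖ ≤ ‖x‖ * 2 := by
        refine (norm_mul_le _ _).trans ?_
        gcongr
        · exact norm_ι_le ι x
        · exact (norm_ι_le ι g).trans k3
      have e2 : ‖ι g * ι y‖ ≤ 2 * ‖y‖ := by
        refine (norm_mul_le _ _).trans ?_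
        gcongr
        · exact (norm_ι_le ι g).trans k3
        · exact norm_ι_le ι y
      calc ‖ι x * ι g * (ι d * ι (aa j) * (u (gg j) : B) * ι d) * (ι g * ι y)‖
          ≤ ‖ι x * ι g * (ι d * ι (aa j) * (u (gg j) : B) * ι d)‖ * ‖ι g * ι y‖ := norm_mul_le _ _
        _ ≤ ‖ι x * ι g‖ * ‖ι d * ι (aa j) * (u (gg j) : B) * ι d‖ * ‖ι g * ι y‖ := by
            gcongr
            exact norm_mul_le _ _
        _ ≤ (‖x‖ * 2) * (ε / 4) * (2 * ‖y‖) := by gcongr
        _ = ε * ‖x‖ * ‖y‖ := by ring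
    · exact h3 j hj' x (Dd_sub k2 hx) y (Dd_sub k2 hy)

/-! ### double sums -/

lemma split_diag {M κ : Type*} [AddCommMonoid M] [DecidableEq κ] (F : Finset κ) (X : κ → κ → M) :
    ∑ s ∈ F, ∑ t ∈ F, X s t =
      ∑ s ∈ F, X s s + ∑ s ∈ F, ∑ t ∈ F, (if s = t then 0 else X s t) := by
  rw [← Finset.sum_add_distrib]
  refine Finset.sum_congr rfl fun s hs => ?_
  have h1 : X s s = ∑ t ∈ F, (if s = t then X s t else 0) := by
    rw [Finset.sum_ite_eq F s (fun t => X s t), if_pos hs]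
  rw [h1, ← Finset.sum_add_distrib]
  refine Finset.sum_congr rfl fun t _ => ?_
  by_cases h : s = t <;> simp [h]

lemma norm_off {M κ : Type*} [SeminormedAddCommGroup M] [DecidableEq κ] (F : Finset κ)
    (X : κ → κ → M) (K : κ → κ → ℝ) (hK : ∀ s ∈ F, ∀ t ∈ F, 0 ≤ K s t) {ε : ℝ} (hε : 0 ≤ ε)
    (h : ∀ s ∈ F, ∀ t ∈ F, s ≠ t → ‖X s t‖ ≤ K s t * ε) :
    ‖∑ s ∈ F, ∑ t ∈ F, (if s = t then 0 else X s t)‖ ≤ (∑ s ∈ F, ∑ t ∈ F, K s t) * ε := by
  refine (norm_sum_le _ _).trans ?_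
  rw [Finset.sum_mul]
  refine Finset.sum_le_sum fun s hs => ?_
  refine (norm_sum_le _ _).trans ?_
  rw [Finset.sum_mul]
  refine Finset.sum_le_sum fun t ht => ?_
  by_cases hst : s = t
  · rw [if_pos hst, norm_zero]
    exact mul_nonneg (hK s hs t ht) hε
  · rw [if_neg hst]
    exact h s hs t ht hst

omit [PartialOrder B] [StarOrderedRing B] in
lemma norm_conj_u (s t : G) (x : B) : ‖(u s : B) * x * star (u t : B)‖ ≤ ‖x‖ := by
  obtain (h | _) := subsingleton_or_nontrivial B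
  · rw [Subsingleton.elim ((u s : B) * x * star (u t : B)) x]
  refine (norm_mul_le _ _).trans ?_
  rw [norm_star, IsReducedCrossedProduct.norm_u, mul_one]
  refine (norm_mul_le _ _).trans ?_
  rw [IsReducedCrossedProduct.norm_u, one_mul]

/-- almost orthogonal sums -/
lemma norm_sum_orth [DecidableEq G] (F : Finset G) (d : A) (hd : 0 ≤ d) (hd1 : ‖d‖ ≤ 1) {ε : ℝ} (hε : 0 ≤ ε)
    (hs : ∀ s ∈ F, ∀ t ∈ F, s ≠ t → ‖ι d * star (u s : B) * (u t : B) * ι d‖ ≤ ε) :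
    ‖∑ s ∈ F, (u s : B) * (ι d * ι d) * star (u s : B)‖ ≤ 1 + (∑ s ∈ F, ∑ t ∈ F, 1) * ε := by
  have hds : star (ι d) = ι d := by
    rw [← map_star, (IsSelfAdjoint.of_nonneg hd).star_eq]
  have hdn : ‖ι d‖ ≤ 1 := (norm_ι_le ι d).trans hd1
  set p : G → B := fun s => (u s : B) * (ι d * ι d) * star (u s : B) with hp
  set T : B := ∑ s ∈ F, p s with hT
  have hpn : ∀ s, ‖p s‖ ≤ 1 := by
    intro s
    refine (norm_conj_u s s _).trans ?_
    refine (norm_mul_le _ _).trans ?_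
    calc ‖ι d‖ * ‖ι d‖ ≤ 1 * 1 := by gcongr
      _ = 1 := one_mul 1
  have hp0 : ∀ s, 0 ≤ p s := by
    intro s
    have h1 : 0 ≤ ι d * ι d := by
      have := star_mul_self_nonneg (ι d)
      rwa [hds] at this
    exact star_right_conjugate_nonneg h1 _
  have hps : ∀ s, star (p s) = p s := fun s => (hp0 s).isSelfAdjoint
  have hp2 : ∀ s, p s * p s ≤ p s := by
    intro s
    have h1 : p s ≤ 1 := (CStarAlgebra.norm_le_one_iff_of_nonneg (p s) (hp0 s)).1 (hpn s)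
    have h2 : 0 ≤ p s * (1 - p s) :=
      Commute.mul_nonneg (hp0 s) (sub_nonneg.2 h1) (by
        simp [commute_iff_eq, mul_sub, sub_mul])
    rw [mul_sub, mul_one, sub_nonneg] at h2
    exact h2
  have hT0 : 0 ≤ T := Finset.sum_nonneg fun s _ => hp0 s
  have hTs : star T = T := hT0.isSelfAdjoint
  have hTT : T * T = ∑ s ∈ F, p s * p s + ∑ s ∈ F, ∑ t ∈ F, (if s = t then 0 else p s * p t) := by
    rw [hT, Finset.sum_mul_sum]
    exact split_diag F (fun s t => p s * p t)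
  have hoff : ‖∑ s ∈ F, ∑ t ∈ F, (if s = t then 0 else p s * p t)‖ ≤
      (∑ s ∈ F, ∑ t ∈ F, 1) * ε := by
    refine norm_off F (fun s t => p s * p t) (fun _ _ => 1) (fun _ _ _ _ => zero_le_one) hε ?_
    intro s hs1 t ht1 hst
    have h1 : p s * p t = (u s : B) * (ι d * (ι d * star (u s : B) * (u t : B) * ι d) * ι d) *
        star (u t : B) := by
      simp only [hp, mul_assoc]
    rw [h1]
    refine (norm_conj_u s t _).trans ?_
    refine (norm_mul_le _ _).trans ?_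
    calc ‖ι d * (ι d * star (u s : B) * (u t : B) * ι d)‖ * ‖ι d‖
        ≤ (‖ι d‖ * ‖ι d * star (u s : B) * (u t : B) * ι d‖) * ‖ι d‖ := by
          gcongr
          exact norm_mul_le _ _
      _ ≤ (1 * ε) * 1 := by
          have := hs s hs1 t ht1 hst
          gcongr
      _ = 1 * ε := by ring
  have hdiag : ‖∑ s ∈ F, p s * p s‖ ≤ ‖T‖ := by
    refine CStarAlgebra.norm_le_norm_of_nonneg_of_le ?_ ?_
    · refine Finset.sum_nonneg fun s _ => ?_
      have := star_mul_self_nonneg (p s)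
      rwa [hps] at this
    · exact Finset.sum_le_sum fun s _ => hp2 s
  set q : ℝ := (∑ s ∈ F, ∑ t ∈ F, 1) * ε with hq
  have hq0 : 0 ≤ q := by
    rw [hq]
    refine mul_nonneg ?_ hε
    exact Finset.sum_nonneg fun s _ => Finset.sum_nonneg fun t _ => zero_le_one
  have hfin : ‖T‖ * ‖T‖ ≤ ‖T‖ + q := by
    rw [← CStarRing.norm_star_mul_self (x := T), hTs, hTT]
    exact (norm_add_le _ _).trans (add_le_add hdiag hoff)
  by_contra hcon
  push Not at hcon
  have : 1 < ‖T‖ := by linarith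
  nlinarith

end Pool.Agent.W661.Nrm
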