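import Pool.Agent.W661.Nrm5

/-! # Kishimoto's condition implies norming: the main lemma -/

set_option autoImplicit false

open scoped CStarAlgebra ComplexOrder

namespace Pool.Agent.W661.Nrm

section mat

variable {B : Type*} [CStarAlgebra B] [PartialOrder B] [StarOrderedRing B] {k : ℕ}

lemma norm_bil_crude (X : CStarMatrix (Fin k) (Fin k) B) (v w : Fin k → B) {a b : ℝ}
    (ha : 0 ≤ a) (hv : ∀ i, ‖v i‖ ≤ a) (hw : ∀ i, ‖w i‖ ≤ b) :
    ‖bil X v w‖ ≤ k * k * ‖X‖ * a * b := by
  unfold bil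
  have h1 : ∀ i j : Fin k, ‖star (v i) * X i j * w j‖ ≤ a * ‖X‖ * b := by
    intro i j
    refine (norm_mul_le _ _).trans ?_
    have h2 : ‖star (v i) * X i j‖ ≤ a * ‖X‖ := by
      refine (norm_mul_le _ _).trans ?_
      rw [norm_star]
      exact mul_le_mul (hv i) CStarMatrix.norm_entry_le_norm (norm_nonneg _) ha
    exact mul_le_mul h2 (hw j) (norm_nonneg _) (by positivity)
  have h2 : ∀ i : Fin k, ‖∑ j, star (v i) * X i j * w j‖ ≤ k * (a * ‖X‖ * b) := by
    intro i
    refine (norm_sum_le _ _).trans ?_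
    refine (Finset.sum_le_card_nsmul _ _ _ fun j _ => h1 i j).trans ?_
    simp
  refine (norm_sum_le _ _).trans ?_
  refine (Finset.sum_le_card_nsmul _ _ _ fun i _ => h2 i).trans (le_of_eq ?_)
  simp
  ring

lemma bil_conj (Y : CStarMatrix (Fin k) (Fin k) B) (v w : Fin k → B) (Z Z' : B) :
    star Z * bil Y v w * Z' = bil Y (fun i => v i * Z) (fun i => w i * Z') := by
  unfold bil
  rw [Finset.mul_sum, Finset.sum_mul]
  refine Finset.sum_congr rfl fun i _ => ?_
  rw [Finset.mul_sum, Finset.sum_mul]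
  refine Finset.sum_congr rfl fun j _ => ?_
  rw [star_mul]
  simp only [mul_assoc]

lemma bil_add_left (Y : CStarMatrix (Fin k) (Fin k) B) (v v' w : Fin k → B) :
    bil Y (fun i => v i + v' i) w = bil Y v w + bil Y v' w := by
  unfold bil
  rw [← Finset.sum_add_distrib]
  refine Finset.sum_congr rfl fun i _ => ?_
  rw [← Finset.sum_add_distrib]
  refine Finset.sum_congr rfl fun j _ => ?_
  rw [star_add, add_mul, add_mul]

lemma bil_add_right (Y : CStarMatrix (Fin k) (Fin k) B) (v w w' : Fin k → B) :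
    bil Y v (fun i => w i + w' i) = bil Y v w + bil Y v w' := by
  unfold bil
  rw [← Finset.sum_add_distrib]
  refine Finset.sum_congr rfl fun i _ => ?_
  rw [← Finset.sum_add_distrib]
  refine Finset.sum_congr rfl fun j _ => ?_
  rw [mul_add]

set_option backward.isDefEq.respectTransparency false in
lemma exists_column' (Y : CStarMatrix (Fin k) (Fin k) B) (hY : 0 ≤ Y) {m : ℝ} (hm : 0 ≤ m)
    (h : m < ‖Y‖) : ∃ z : Fin k → B, 0 ≤ bil Y z z - m • ip z z ∧ bil Y z z - m • ip z z ≠ 0 := by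
  have h1 : IsSelfAdjoint (Y - algebraMap ℝ _ m) :=
    (IsSelfAdjoint.of_nonneg hY).sub (IsSelfAdjoint.algebraMap _ (IsSelfAdjoint.all m))
  have h2 : ¬ (Y - algebraMap ℝ _ m) ≤ 0 := by
    intro h3
    rw [sub_nonpos] at h3
    have := (CStarAlgebra.norm_le_iff_le_algebraMap Y hm hY).2 h3
    linarith
  obtain ⟨z, hz⟩ := exists_column _ h1 h2
  have h3 : bil (Y - algebraMap ℝ _ m) z z = bil Y z z - m • ip z z := by
    unfold bil ip
    rw [Finset.smul_sum, ← Finset.sum_sub_distrib]
    refine Finset.sum_congr rfl fun i _ => ?_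
    have h4 : ∀ j, (algebraMap ℝ (CStarMatrix (Fin k) (Fin k) B) m) i j =
        if i = j then m • (1 : B) else 0 := by
      intro j
      rw [Algebra.algebraMap_eq_smul_one, CStarMatrix.smul_apply, CStarMatrix.one_apply]
      split_ifs <;> simp
    simp only [CStarMatrix.sub_apply, h4, mul_sub, sub_mul]
    rw [Finset.sum_sub_distrib]
    congr 1
    simp
  rw [h3] at hz
  exact ⟨z, hz⟩

lemma isSelfAdjoint_bil (Y : CStarMatrix (Fin k) (Fin k) B) (hY : star Y = Y) (z : Fin k → B) :
    IsSelfAdjoint (bil Y z z) := by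
  rw [IsSelfAdjoint]
  unfold bil
  rw [star_sum]
  simp only [star_sum, star_mul, star_star]
  rw [Finset.sum_comm]
  refine Finset.sum_congr rfl fun i _ => Finset.sum_congr rfl fun j _ => ?_
  have : star (Y j i) = Y i j := by
    conv_rhs => rw [← hY]
    rw [CStarMatrix.star_apply]
  rw [this, mul_assoc]

end mat

variable {A B G : Type*} [CStarAlgebra A] [PartialOrder A] [StarOrderedRing A]
  [CStarAlgebra B] [PartialOrder B] [StarOrderedRing B] [Group G] {α : G →* (A ≃⋆ₐ[ℂ] A)}
  {ι : A →⋆ₐ[ℂ] B} {u : G →* unitary B} {E : B →L[ℂ] A} {k : ℕ}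

lemma E_ip [DecidableEq G] (h : IsReducedCrossedProduct α ι u E) (F : Finset G)
    (c : G → Fin k → A) :
    E (ip (fun i => ∑ s ∈ F, (u s : B) * ι (c s i)) (fun i => ∑ s ∈ F, (u s : B) * ι (c s i))) =
      ∑ s ∈ F, ∑ i, star (c s i) * c s i := by
  unfold ip
  rw [map_sum, Finset.sum_comm]
  refine Finset.sum_congr rfl fun i _ => ?_
  rw [star_sum, Finset.sum_mul_sum, map_sum]
  refine Finset.sum_congr rfl fun s hs => ?_
  rw [map_sum, Finset.sum_eq_single_of_mem s hs]
  · rw [star_mul, mul_assoc, ← mul_assoc (star (u s : B)), IsReducedCrossedProduct.star_mul_u,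
      one_mul, ← map_star, ← map_mul, h.coeff_one]
  · intro t _ hts
    have h1 : star ((u s : B) * ι (c s i)) * ((u t : B) * ι (c t i)) =
        ι (star (c s i)) * (u (s⁻¹ * t) : B) * ι (c t i) := by
      rw [star_mul, IsReducedCrossedProduct.star_u, ← IsReducedCrossedProduct.u_mul_u, map_star]
      simp only [mul_assoc]
    have hne : s⁻¹ * t ≠ 1 := by
      intro h2
      exact hts (inv_mul_eq_one.1 h2).symm
    have h2 : E (u (s⁻¹ * t) : B) = 0 := by
      have := h.coeff_ne (s⁻¹ * t) 1 hne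
      rwa [map_one, one_mul] at this
    rw [h1, h.E_bimod, h2, mul_zero, zero_mul]

/-- a positive lower bound on a local algebra -/
lemma excise_pos {W : A} (hW : IsSelfAdjoint W) (h : ¬ W ≤ 0) : ∃ (η : ℝ) (e : A), 0 < η ∧ Rm e ∧
    ∀ d ∈ Dd e, η • (star d * d) ≤ star d * W * d := by
  obtain ⟨c0, hc0, hc⟩ : ∃ c0 : ℝ, 0 < c0 ∧ ¬ W ≤ algebraMap ℝ A c0 := by
    by_contra hcon
    push Not at hcon
    apply h
    have h1 : ∀ x ∈ spectrum ℝ W, x ≤ 0 := by
      intro x hx
      refine le_of_forall_pos_le_add fun c hc => ?_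
      rw [zero_add]
      exact (le_algebraMap_iff_spectrum_le (a := W)).1 (hcon c hc) x hx
    have := le_algebraMap_of_spectrum_le (a := W) h1
    rwa [map_zero] at this
  have hnt : Nontrivial A := by
    by_contra hn
    rw [not_nontrivial_iff_subsingleton] at hn
    exact h (le_of_eq (Subsingleton.elim _ _))
  have h1 : Rm (1 : A) := ⟨star_one A, 1, ⟨one_mul 1, mul_one 1⟩, one_ne_zero⟩
  obtain ⟨l, e', k1, k2, k3, k4⟩ := excise h1 hW (half_pos hc0)
  refine ⟨c0 / 2, e', by positivity, k1, fun d hd => ?_⟩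
  have h2 : c0 < l := by
    by_contra hl
    push Not at hl
    apply hc
    have h3 := k3 1 ⟨one_mul 1, mul_one 1⟩
    rw [star_one, one_mul, mul_one, one_mul, ← Algebra.algebraMap_eq_smul_one] at h3
    exact h3.trans (algebraMap_mono A hl)
  refine le_trans ?_ (k4 d hd)
  exact smul_le_smul_of_nonneg_right (by linarith) (star_mul_self_nonneg d)

end Pool.Agent.W661.Nrm
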