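import Pool.Agent.W661.Nrm6

/-! # Kishimoto's condition implies norming -/

set_option autoImplicit false

open scoped CStarAlgebra ComplexOrder

namespace Pool.Agent.W661.Nrm

variable {A B G : Type*} [CStarAlgebra A] [PartialOrder A] [StarOrderedRing A]
  [CStarAlgebra B] [PartialOrder B] [StarOrderedRing B] [Group G] {α : G →* (A ≃⋆ₐ[ℂ] A)}
  {ι : A →⋆ₐ[ℂ] B} {u : G →* unitary B} {E : B →L[ℂ] A} {k : ℕ}

omit [PartialOrder B] [StarOrderedRing B] in
/-- the elements of the dense subalgebra in the form used below -/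
lemma finsupp_form [DecidableEq G] (h : IsReducedCrossedProduct α ι u E) (cc : Fin k → (G →₀ A)) :
    ∃ (F : Finset G) (c : G → Fin k → A), ∀ i,
      (cc i).sum (fun g a => ι a * (u g : B)) = ∑ s ∈ F, (u s : B) * ι (c s i) := by
  refine ⟨Finset.univ.biUnion fun i => (cc i).support, fun s i => α s⁻¹ (cc i s), fun i => ?_⟩
  rw [Finsupp.sum_of_support_subset (cc i) (Finset.subset_biUnion_of_mem (fun i => (cc i).support) (Finset.mem_univ i))
    (fun g a => ι a * (u g : B)) (by intro g _; simp)]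
  refine Finset.sum_congr rfl fun s _ => ?_
  rw [h.u_mul_ι]
  congr 2
  have : α s (α s⁻¹ (cc i s)) = (α s * α s⁻¹) (cc i s) := rfl
  rw [this, ← map_mul, mul_inv_cancel, map_one]
  rfl

/-- choice of the vector -/
lemma exists_vector [DecidableEq G] (h : IsReducedCrossedProduct α ι u E)
    (Y : CStarMatrix (Fin k) (Fin k) B) (hY : 0 ≤ Y) {m : ℝ} (hm : 0 ≤ m) (hmY : m < ‖Y‖) :
    ∃ (F : Finset G) (c : G → Fin k → A),
      ¬ (E (bil Y (fun i => ∑ s ∈ F, (u s : B) * ι (c s i))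
        (fun i => ∑ s ∈ F, (u s : B) * ι (c s i))) -
          m • ∑ s ∈ F, ∑ i, star (c s i) * c s i ≤ 0) := by
  obtain ⟨z0, hz1, hz2⟩ := exists_column' Y hY hm hmY
  set f : (Fin k → B) → A := fun z => E (bil Y z z - m • ip z z) with hf
  have hfc : Continuous f := by
    unfold f bil ip
    fun_prop
  have hW1 : 0 ≤ f z0 := h.E_nonneg hz1
  have hW2 : f z0 ≠ 0 := by
    obtain ⟨b, hb⟩ := (CStarAlgebra.nonneg_iff_eq_star_mul_self).1 hz1
    intro h0
    have h1 : f z0 = E (star b * b) := by rw [hf, ← hb]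
    rw [h1] at h0
    apply hz2
    rw [hb, h.faithful b h0, mul_zero]
  have hD : DenseRange (fun cc : Fin k → (G →₀ A) => fun i =>
      (cc i).sum (fun g a => ι a * (u g : B))) :=
    DenseRange.piMap (fun _ => h.dense)
  have hopen : IsOpen {z : Fin k → B | ‖f z - f z0‖ < ‖f z0‖} :=
    isOpen_lt (by fun_prop) continuous_const
  obtain ⟨cc, hcc⟩ := hD.exists_mem_open hopen ⟨z0, by
    rw [Set.mem_ofPred_eq, sub_self, norm_zero]
    exact norm_pos_iff.2 hW2⟩
  obtain ⟨F, c, hc⟩ := finsupp_form h cc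
  refine ⟨F, c, ?_⟩
  intro hle
  rw [← E_ip h] at hle
  have hfun : (fun i => (cc i).sum (fun g a => ι a * (u g : B))) =
      fun i => ∑ s ∈ F, (u s : B) * ι (c s i) := funext hc
  rw [← hfun] at hle
  rw [Set.mem_ofPred_eq] at hcc
  set z1 : Fin k → B := fun i => (cc i).sum (fun g a => ι a * (u g : B)) with hz
  have h1 : E (bil Y z1 z1) - m • E (ip z1 z1) = f z1 := by
    rw [hf]
    simp only
    rw [map_sub]
    congr 1
    exact ((E.restrictScalars ℝ).map_smul m (ip z1 z1)).symm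
  rw [h1] at hle
  have h2 : f z0 ≤ f z0 - f z1 := by
    rw [le_sub_self_iff]
    exact hle
  have h3 := CStarAlgebra.norm_le_norm_of_nonneg_of_le hW1 h2
  rw [norm_sub_rev] at h3
  linarith

omit [PartialOrder A] [StarOrderedRing A] [PartialOrder B] [StarOrderedRing B] in
lemma star_u_mul_u (s t : G) : star (u s : B) * (u t : B) = (u (s⁻¹ * t) : B) := by
  rw [IsReducedCrossedProduct.star_u, IsReducedCrossedProduct.u_mul_u]

/-- the main lemma, before the normalisation -/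
theorem main_aux (h : IsReducedCrossedProduct α ι u E) (hKC : ∀ g : G, g ≠ 1 → KC ι u g)
    (Y : CStarMatrix (Fin k) (Fin k) B) (hY : 0 ≤ Y) {ε : ℝ} (hε : 0 < ε) (hm : 0 < ‖Y‖ - ε) :
    ∃ (C : Fin k → A) (q : ℝ), 1 ≤ q ∧ ‖ip (fun i => ι (C i)) (fun i => ι (C i))‖ ≤ q ∧
      (‖Y‖ - ε) * q ≤ ‖bil Y (fun i => ι (C i)) (fun i => ι (C i))‖ := by
  classical
  set m : ℝ := ‖Y‖ - ε with hmdef
  obtain ⟨F, c, hW⟩ := exists_vector h Y hY hm.le (by linarith : m < ‖Y‖)
  set z : Fin k → B := fun i => ∑ s ∈ F, (u s : B) * ι (c s i) with hz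
  set hs : G → A := fun s => ∑ i, star (c s i) * c s i with hhs
  have hYs : star Y = Y := by
    set_option backward.isDefEq.respectTransparency false in
    exact (IsSelfAdjoint.of_nonneg hY).star_eq
  have hs0 : ∀ s, 0 ≤ hs s := fun s => Finset.sum_nonneg fun i _ => star_mul_self_nonneg _
  set V : A := E (bil Y z z) with hV
  have hVsa : IsSelfAdjoint V := by
    rw [IsSelfAdjoint, hV, ← h.E_star, (isSelfAdjoint_bil Y hYs z).star_eq]
  set W : A := V - m • ∑ s ∈ F, hs s with hWdef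
  have hWsa : IsSelfAdjoint W := by
    refine hVsa.sub ?_
    exact (IsSelfAdjoint.all m).smul
      (IsSelfAdjoint.of_nonneg (Finset.sum_nonneg fun s _ => hs0 s))
  obtain ⟨η, e1, hη, he1, hW1⟩ := excise_pos hWsa hW
  set n : ℝ := (F.card : ℝ) with hn
  have hn0 : 0 ≤ n := Nat.cast_nonneg _
  set δ : ℝ := η / (4 * (m * n + 1)) with hδ
  have hδ0 : 0 < δ := by positivity
  have hδ1 : m * n * (2 * δ) ≤ η / 2 := by
    rw [hδ]
    have : m * n * (2 * (η / (4 * (m * n + 1)))) = (η / 2) * (m * n / (m * n + 1)) := by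
      field_simp
      ring
    rw [this]
    have h1 : m * n / (m * n + 1) ≤ 1 := by
      rw [div_le_one (by positivity)]
      linarith
    have h2 : 0 ≤ η / 2 := by positivity
    nlinarith
  obtain ⟨l, e2, he2, he21, hl⟩ := excise_fin F hs (fun s => IsSelfAdjoint.of_nonneg (hs0 s)) hδ0
    he1
  have hl0 : ∀ s ∈ F, 0 ≤ l s := by
    intro s hsF
    obtain ⟨P, hP, hP0, hPn⟩ := exists_pos he2
    have h1 := (hl s hsF P hP).1
    have h2 := (star_left_conjugate_nonneg (hs0 s) P).trans h1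
    refine le_of_smul_nonneg (star_mul_self_nonneg P) (star_mul_self_ne ?_) h2
    rintro rfl
    simp at hPn
  set ν : G → ℝ := fun s => l s + δ with hν
  have hν0 : ∀ s ∈ F, 0 < ν s := fun s hsF => by
    have := hl0 s hsF
    rw [hν]
    linarith
  set L : ℝ := ∑ s ∈ F, ν s with hL
  have hL0 : 0 ≤ L := Finset.sum_nonneg fun s hsF => (hν0 s hsF).le
  -- lower bound on Dd e2
  have hlow : ∀ d ∈ Dd e2, (m * L + η / 2) • (star d * d) ≤ star d * V * d := by
    intro d hd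
    have h1 := hW1 d (he21 d hd)
    have h2 : ∀ s ∈ F, (ν s - 2 * δ) • (star d * d) ≤ star d * hs s * d := by
      intro s hsF
      refine le_trans ?_ (hl s hsF d hd).2
      exact smul_le_smul_of_nonneg_right (by rw [hν]; linarith) (star_mul_self_nonneg d)
    have h3 : ∑ s ∈ F, (ν s - 2 * δ) • (star d * d) ≤ ∑ s ∈ F, star d * hs s * d :=
      Finset.sum_le_sum h2
    rw [← Finset.sum_smul, Finset.sum_sub_distrib, Finset.sum_const, nsmul_eq_mul] at h3
    have h4 : star d * V * d = star d * W * d + m • ∑ s ∈ F, star d * hs s * d := by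
      rw [hWdef, mul_sub, sub_mul, mul_smul_comm, smul_mul_assoc, Finset.mul_sum, Finset.sum_mul,
        sub_add_cancel]
    rw [h4]
    have h5 := smul_le_smul_of_nonneg_left h3 hm.le
    refine le_trans ?_ (add_le_add h1 h5)
    rw [smul_smul, ← add_smul]
    refine smul_le_smul_of_nonneg_right ?_ (star_mul_self_nonneg d)
    have : m * (L - n * (2 * δ)) = m * L - m * n * (2 * δ) := by ring
    rw [this]
    linarith
  -- constants
  set K1 : ℝ := (∑ s ∈ F, ∑ t ∈ F, 1) +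
        (∑ s ∈ F, ∑ t ∈ F, (√(ν s))⁻¹ * (√(ν t))⁻¹ * k) with hK1
  have hK10 : 0 ≤ K1 := by positivity
  set K2 : ℝ := ∑ s ∈ F, ∑ t ∈ F, √(ν s) * √(ν t) with hK2
  have hK20 : 0 ≤ K2 := by positivity
  set Kr : ℝ := ∑ i, ∑ s ∈ F, ∑ t ∈ F, (√(ν s))⁻¹ * √(ν t) * ‖c s i‖ with hKr
  have hKr0 : 0 ≤ Kr := by positivity
  set Mz : ℝ := ∑ i, ‖z i‖ with hMz
  have hMz0 : 0 ≤ Mz := by positivity
  set K3 : ℝ := k * k * ‖Y‖ * (Kr * Mz + Mz * Kr + Kr * Kr) with hK3
  have hK30 : 0 ≤ K3 := by positivity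
  set Q : ℝ := m * (K1 * L + (K2 + 1) + K1 * (K2 + 1)) + K3 with hQ
  have hQ0 : 0 ≤ Q := by positivity
  obtain ⟨ε', hε'0, hε'1, hε'Q⟩ : ∃ ε' : ℝ, 0 < ε' ∧ ε' ≤ 1 ∧ ε' * Q ≤ η / 2 := by
    refine ⟨min 1 (η / 2 / (Q + 1)), by positivity, min_le_left _ _, ?_⟩
    calc min 1 (η / 2 / (Q + 1)) * Q ≤ (η / 2 / (Q + 1)) * (Q + 1) := by
          refine mul_le_mul (min_le_right _ _) (by linarith) hQ0 (by positivity)
      _ = η / 2 := by field_simp
  -- smallness
  obtain ⟨e3, he3, he32, hsm⟩ := small_fin hKC (κ := Option (Fin k) × G × G)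
    (Finset.univ ×ˢ ((F ×ˢ F).filter fun p => p.1 ≠ p.2)) (fun p => p.2.1⁻¹ * p.2.2)
    (fun p => match p.1 with
      | none => 1
      | some i => star (c p.2.1 i) * α (p.2.1⁻¹ * p.2.2) (c p.2.2 i))
    (by
      intro p hp
      rw [Finset.mem_product, Finset.mem_filter] at hp
      intro h1
      exact hp.2.2 (inv_mul_eq_one.1 h1)) hε'0 he2
  have hmem : ∀ (o : Option (Fin k)) (s t : G), s ∈ F → t ∈ F → s ≠ t →
      ((o, s, t) : Option (Fin k) × G × G) ∈
        (Finset.univ ×ˢ ((F ×ˢ F).filter fun p => p.1 ≠ p.2)) := by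
    intro o s t hsF htF hst
    rw [Finset.mem_product, Finset.mem_filter, Finset.mem_product]
    exact ⟨Finset.mem_univ _, ⟨hsF, htF⟩, hst⟩
  obtain ⟨P, hP, hP0, hPn⟩ := exists_pos he3
  obtain ⟨d, d', g, k1, k2, k3, k4, k5, k6, k7, k8, k9, k10, k11⟩ := shrink he3.sa hP hP0 hPn
  have hdd : d * d' = d' := k8.1
  have H1 : ∀ x ∈ Dd e3, ∀ y ∈ Dd e3, ‖x‖ ≤ 1 → ‖y‖ ≤ 1 → ∀ s ∈ F, ∀ t ∈ F, s ≠ t →
      ‖ι x * star (u s : B) * (u t : B) * ι y‖ ≤ ε' := by
    intro x hx y hy hxn hyn s hsF t htF hst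
    have h1 := hsm _ (hmem none s t hsF htF hst) x hx y hy
    simp only [map_one, mul_one] at h1
    rw [mul_assoc (ι x), star_u_mul_u]
    refine h1.trans ?_
    calc ε' * ‖x‖ * ‖y‖ ≤ ε' * 1 * 1 := by gcongr
      _ = ε' := by ring
  have H2 : ∀ s ∈ F, ∀ t ∈ F, s ≠ t → ∀ i,
      ‖ι d * (star (ι (c s i)) * star (u s : B) * (u t : B) * ι (c t i)) * ι d‖ ≤ ε' := by
    intro s hsF t htF hst i
    have h1 := hsm _ (hmem (some i) s t hsF htF hst) d k2 d k2
    have h2 : ι d * (star (ι (c s i)) * star (u s : B) * (u t : B) * ι (c t i)) * ι d =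
        ι d * ι (star (c s i) * α (s⁻¹ * t) (c t i)) * (u (s⁻¹ * t) : B) * ι d := by
      rw [mul_assoc (star (ι (c s i))), star_u_mul_u, mul_assoc (star (ι (c s i))), h.u_mul_ι,
        map_mul ι (star (c s i)), map_star ι]
      simp only [mul_assoc]
    rw [h2]
    refine h1.trans ?_
    calc ε' * ‖d‖ * ‖d‖ ≤ ε' * 1 * 1 := by gcongr
      _ = ε' := by ring
  have hup : ∀ s ∈ F, d * (∑ i, star (c s i) * c s i) * d ≤ ν s • (d * d) := by
    intro s hsF
    have h1 := (hl s hsF d (he32 d k2)).1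
    rw [(IsSelfAdjoint.of_nonneg k6).star_eq] at h1
    refine h1.trans ?_
    refine smul_le_smul_of_nonneg_right (by rw [hν]; linarith) ?_
    have := star_mul_self_nonneg d
    rwa [(IsSelfAdjoint.of_nonneg k6).star_eq] at this
  have N1 := norm_ip_CC h F c ν hν0 d k6 k7 hup hε'0.le (H1 d k2 d k2 k7 k7) H2
  have N2 := norm_ZZ (ι := ι) (u := u) F ν hν0 d' k10 k11.le hε'0.le
    (H1 d' k9 d' k9 k11.le k11.le)
  have N3 : ∀ i, ‖ι (CC α F c ν d i) * ZZ ι u F ν d' - z i * ι d'‖ ≤ Kr * ε' := by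
    intro i
    refine (CC_mul_ZZ h F c ν hν0 d d' hdd hε'0.le (H1 d k2 d' k9 k7 k11.le) i).trans ?_
    refine mul_le_mul_of_nonneg_right ?_ hε'0.le
    exact Finset.single_le_sum (f := fun i => ∑ s ∈ F, ∑ t ∈ F, (√(ν s))⁻¹ * √(ν t) * ‖c s i‖)
      (fun i _ => by positivity) (Finset.mem_univ i)
  set C : Fin k → A := CC α F c ν d with hC
  set Z : B := ZZ ι u F ν d' with hZ
  set r : Fin k → B := fun i => ι (C i) * Z - z i * ι d' with hr
  set Bn : ℝ := ‖bil Y (fun i => ι (C i)) (fun i => ι (C i))‖ with hBn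
  have hBn0 : 0 ≤ Bn := norm_nonneg _
  have hd's : star (ι d') = ι d' := by
    rw [← map_star, (IsSelfAdjoint.of_nonneg k10).star_eq]
  have hιd' : ‖ι d'‖ ≤ 1 := (norm_ι_le ι d').trans k11.le
  have hzd : ∀ i, ‖z i * ι d'‖ ≤ Mz := by
    intro i
    refine (norm_mul_le _ _).trans ?_
    have h1 : ‖z i‖ ≤ Mz := Finset.single_le_sum (f := fun i => ‖z i‖)
      (fun i _ => norm_nonneg _) (Finset.mem_univ i)
    calc ‖z i‖ * ‖ι d'‖ ≤ Mz * 1 := by gcongr
      _ = Mz := mul_one _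
  have D1 : star Z * bil Y (fun i => ι (C i)) (fun i => ι (C i)) * Z =
      ι d' * bil Y z z * ι d' + (bil Y r (fun i => z i * ι d') + bil Y (fun i => z i * ι d') r +
        bil Y r r) := by
    rw [bil_conj]
    have h1 : (fun i => ι (C i) * Z) = fun i => z i * ι d' + r i := by
      funext i
      rw [hr]
      simp
    rw [h1, bil_add_left, bil_add_right, bil_add_right, ← bil_conj, hd's]
    abel
  have hKre : Kr * ε' ≤ Kr := by
    calc Kr * ε' ≤ Kr * 1 := by gcongr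
      _ = Kr := mul_one _
  have D2 : ‖bil Y r (fun i => z i * ι d') + bil Y (fun i => z i * ι d') r + bil Y r r‖ ≤
      K3 * ε' := by
    have a1 := norm_bil_crude Y r (fun i => z i * ι d') (a := Kr * ε') (b := Mz) (by positivity)
      N3 hzd
    have a2 := norm_bil_crude Y (fun i => z i * ι d') r (a := Mz) (b := Kr * ε') hMz0 hzd N3
    have a3 := norm_bil_crude Y r r (a := Kr * ε') (b := Kr) (by positivity) N3
      (fun i => (N3 i).trans hKre)
    refine (norm_add_le _ _).trans ?_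
    refine (add_le_add (norm_add_le _ _) le_rfl).trans ?_
    refine (add_le_add (add_le_add a1 a2) a3).trans (le_of_eq ?_)
    rw [hK3]
    ring
  have D3 : m * L + η / 2 ≤ ‖ι d' * bil Y z z * ι d'‖ := by
    have h1 : E (ι d' * bil Y z z * ι d') = d' * V * d' := h.E_bimod d' d' (bil Y z z)
    have h2 : IsSelfAdjoint (ι d' * bil Y z z * ι d') := by
      have := (isSelfAdjoint_bil Y hYs z).conjugate (ι d')
      rwa [hd's] at this
    refine le_trans ?_ (h.norm_E_le h2)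
    rw [h1]
    have h3 := hlow d' (he32 d' k9)
    have hd'sa : star d' = d' := (IsSelfAdjoint.of_nonneg k10).star_eq
    have hdd0 : 0 ≤ star d' * d' := star_mul_self_nonneg d'
    have h4 : ‖star d' * d'‖ = 1 := by
      rw [CStarRing.norm_star_mul_self, k11, mul_one]
    rw [hd'sa] at h3 h4 hdd0
    have h5 : 0 ≤ m * L + η / 2 := by positivity
    have h6 := CStarAlgebra.norm_le_norm_of_nonneg_of_le (smul_nonneg h5 hdd0) h3
    rwa [norm_smul, h4, mul_one, Real.norm_eq_abs, abs_of_nonneg h5] at h6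
  have D4 : ‖star Z * bil Y (fun i => ι (C i)) (fun i => ι (C i)) * Z‖ ≤
      Bn * (L + K2 * ε') := by
    calc ‖star Z * bil Y (fun i => ι (C i)) (fun i => ι (C i)) * Z‖
        ≤ ‖star Z * bil Y (fun i => ι (C i)) (fun i => ι (C i))‖ * ‖Z‖ := norm_mul_le _ _
      _ ≤ ‖star Z‖ * Bn * ‖Z‖ := by
          gcongr
          exact norm_mul_le _ _
      _ = Bn * (‖Z‖ * ‖Z‖) := by rw [norm_star]; ring
      _ ≤ Bn * (L + K2 * ε') := by gcongr
  have D5 : m * L + η / 2 ≤ Bn * (L + K2 * ε') + K3 * ε' := by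
    have h1 : ι d' * bil Y z z * ι d' =
        star Z * bil Y (fun i => ι (C i)) (fun i => ι (C i)) * Z -
        (bil Y r (fun i => z i * ι d') + bil Y (fun i => z i * ι d') r + bil Y r r) := by
      rw [D1]; abel
    rw [h1] at D3
    have := norm_sub_le (star Z * bil Y (fun i => ι (C i)) (fun i => ι (C i)) * Z)
      (bil Y r (fun i => z i * ι d') + bil Y (fun i => z i * ι d') r + bil Y r r)
    linarith
  -- final computation
  have hpos : 0 < L + (K2 + 1) * ε' := by positivity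
  have D6 : m * (1 + K1 * ε') ≤ Bn := by
    by_contra hcon
    push Not at hcon
    have h1 : Bn * (L + K2 * ε') ≤ m * (1 + K1 * ε') * (L + (K2 + 1) * ε') := by
      refine mul_le_mul hcon.le ?_ (by positivity) (by positivity)
      nlinarith
    have h1' : Bn * (L + K2 * ε') < m * (1 + K1 * ε') * (L + (K2 + 1) * ε') := by
      have h2 : Bn * (L + K2 * ε') ≤ Bn * (L + (K2 + 1) * ε') := by
        refine mul_le_mul_of_nonneg_left ?_ hBn0
        nlinarith
      have h3 : Bn * (L + (K2 + 1) * ε') < m * (1 + K1 * ε') * (L + (K2 + 1) * ε') :=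
        mul_lt_mul_of_pos_right hcon hpos
      linarith
    have h4 : m * (1 + K1 * ε') * (L + (K2 + 1) * ε') + K3 * ε' ≤ m * L + ε' * Q := by
      have h5 : m * (1 + K1 * ε') * (L + (K2 + 1) * ε') + K3 * ε' =
          m * L + ε' * (m * (K1 * L + (K2 + 1) + K1 * (K2 + 1) * ε') + K3) := by ring
      rw [h5, hQ]
      have h6 : K1 * (K2 + 1) * ε' ≤ K1 * (K2 + 1) := by
        calc K1 * (K2 + 1) * ε' ≤ K1 * (K2 + 1) * 1 := by gcongr
          _ = K1 * (K2 + 1) := mul_one _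
      gcongr
    linarith
  refine ⟨C, 1 + K1 * ε', ?_, N1, D6⟩
  have : 0 ≤ K1 * ε' := by positivity
  linarith

/-- the main lemma -/
theorem main_pos (h : IsReducedCrossedProduct α ι u E) (hKC : ∀ g : G, g ≠ 1 → KC ι u g)
    (Y : CStarMatrix (Fin k) (Fin k) B) (hY : 0 ≤ Y) {ε : ℝ} (hε : 0 < ε) :
    ∃ c : Fin k → A, ‖∑ i, star (c i) * c i‖ ≤ 1 ∧
      ‖Y‖ - ε ≤ ‖bil Y (fun i => ι (c i)) (fun i => ι (c i))‖ := by
  by_cases hm : ‖Y‖ - ε ≤ 0
  · refine ⟨fun _ => 0, ?_, hm.trans (norm_nonneg _)⟩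
    simp
  push Not at hm
  obtain ⟨C, q, hq1, N1, D6⟩ := main_aux h hKC Y hY hε hm
  have hq0 : 0 < q := by linarith
  have hsq : (√q)⁻¹ * (√q)⁻¹ = q⁻¹ := by
    rw [← mul_inv, Real.mul_self_sqrt hq0.le]
  refine ⟨fun i => (√q)⁻¹ • C i, ?_, ?_⟩
  · have h1 : ι (∑ i, star ((√q)⁻¹ • C i) * ((√q)⁻¹ • C i)) =
        q⁻¹ • ip (fun i => ι (C i)) (fun i => ι (C i)) := by
      unfold ip
      rw [map_sum, Finset.smul_sum]
      refine Finset.sum_congr rfl fun i _ => ?_
      rw [star_smul, smul_mul_smul_comm, star_trivial, hsq, ι_rsmul, map_mul, map_star]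
    have hiso : ∀ a : A, 0 ≤ a → ‖a‖ ≤ ‖ι a‖ := by
      intro a ha
      have h2 : IsSelfAdjoint (ι a) := by
        rw [IsSelfAdjoint, ← map_star, (IsSelfAdjoint.of_nonneg ha).star_eq]
      have := h.norm_E_le h2
      rwa [h.coeff_one] at this
    refine (hiso _ (Finset.sum_nonneg fun i _ => star_mul_self_nonneg _)).trans ?_
    rw [h1, norm_smul, norm_inv, Real.norm_eq_abs, abs_of_pos hq0]
    rw [inv_mul_le_iff₀ hq0, mul_one]
    exact N1
  · have h1 : bil Y (fun i => ι ((√q)⁻¹ • C i)) (fun i => ι ((√q)⁻¹ • C i)) =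
        q⁻¹ • bil Y (fun i => ι (C i)) (fun i => ι (C i)) := by
      unfold bil
      rw [Finset.smul_sum]
      refine Finset.sum_congr rfl fun i _ => ?_
      rw [Finset.smul_sum]
      refine Finset.sum_congr rfl fun j _ => ?_
      show star (ι ((√q)⁻¹ • C i)) * Y i j * ι ((√q)⁻¹ • C j) =
        q⁻¹ • (star (ι (C i)) * Y i j * ι (C j))
      rw [ι_rsmul, ι_rsmul, star_smul, star_trivial, smul_mul_assoc, smul_mul_smul_comm, hsq]
    rw [h1, norm_smul, norm_inv, Real.norm_eq_abs, abs_of_pos hq0]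
    rw [le_inv_mul_iff₀ hq0]
    linarith

end Pool.Agent.W661.Nrm
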