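import Pool.Agent.W661.Nrm1

/-! # Extension of positive functionals with an extreme value -/

set_option autoImplicit false

open scoped CStarAlgebra ComplexOrder ComplexStarModule Pointwise

namespace Pool.Agent.W661.Nrm

variable {A B : Type*} [CStarAlgebra A] [PartialOrder A] [StarOrderedRing A]
  [CStarAlgebra B] [PartialOrder B] [StarOrderedRing B]

/-- the values of `φ` at elements dominating `b` -/
def SS (ι : A →⋆ₐ[ℂ] B) (φ : A →ₚ[ℂ] ℂ) (b : B) : Set ℝ :=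
  {t | ∃ a : A, IsSelfAdjoint a ∧ b ≤ ι a ∧ t = (φ a).re}

lemma re_mono (φ : A →ₚ[ℂ] ℂ) {a b : A} (h : a ≤ b) : (φ a).re ≤ (φ b).re :=
  (Complex.le_def.1 (OrderHomClass.mono φ h)).1

omit [PartialOrder A] [StarOrderedRing A] [PartialOrder B] [StarOrderedRing B] in
lemma ι_algebraMap (ι : A →⋆ₐ[ℂ] B) (r : ℝ) : ι (algebraMap ℝ A r) = algebraMap ℝ B r := by
  rw [Algebra.algebraMap_eq_smul_one, Algebra.algebraMap_eq_smul_one, ← Complex.coe_smul, map_smul,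
    Complex.coe_smul, map_one]

lemma re_rsmul (φ : A →ₚ[ℂ] ℂ) (r : ℝ) (a : A) : (φ (r • a)).re = r * (φ a).re := by
  rw [← Complex.coe_smul, map_smul, smul_eq_mul, Complex.re_ofReal_mul]

lemma SS_nonempty (ι : A →⋆ₐ[ℂ] B) (φ : A →ₚ[ℂ] ℂ) {b : B} (hb : IsSelfAdjoint b) :
    (SS ι φ b).Nonempty :=
  ⟨_, algebraMap ℝ A ‖b‖, IsSelfAdjoint.algebraMap _ (IsSelfAdjoint.all _), by
    rw [ι_algebraMap]; exact hb.le_algebraMap_norm_self, rfl⟩

lemma SS_bdd (ι : A →⋆ₐ[ℂ] B) (hι : ∀ a, 0 ≤ ι a → 0 ≤ a) (φ : A →ₚ[ℂ] ℂ) {b : B}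
    (hb : IsSelfAdjoint b) : BddBelow (SS ι φ b) := by
  refine ⟨-(‖b‖ * (φ 1).re), ?_⟩
  rintro t ⟨a, ha, hba, rfl⟩
  have h1 : -algebraMap ℝ B ‖b‖ ≤ ι a := hb.neg_algebraMap_norm_le_self.trans hba
  have h2 : 0 ≤ a + algebraMap ℝ A ‖b‖ := by
    apply hι
    rw [map_add, ι_algebraMap]
    rwa [neg_le_iff_add_nonneg] at h1
  have h3 := re_mono φ h2
  rw [map_zero, map_add, Complex.add_re, Algebra.algebraMap_eq_smul_one, re_rsmul,
    Complex.zero_re] at h3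
  linarith

/-- the sublinear functional -/
noncomputable def NN (ι : A →⋆ₐ[ℂ] B) (φ : A →ₚ[ℂ] ℂ) (b : selfAdjoint B) : ℝ :=
  sInf (SS ι φ b)

omit [StarOrderedRing A] in
lemma SS_smul (ι : A →⋆ₐ[ℂ] B) (φ : A →ₚ[ℂ] ℂ) (b : B) {c : ℝ} (hc : 0 < c) :
    SS ι φ (c • b) = c • SS ι φ b := by
  have key : ∀ (b : B) {c : ℝ}, 0 < c → ∀ t ∈ SS ι φ b, c * t ∈ SS ι φ (c • b) := by
    rintro b c hc t ⟨a, ha, hba, rfl⟩
    refine ⟨c • a, (IsSelfAdjoint.all c).smul ha, ?_, ?_⟩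
    · rw [← Complex.coe_smul c a, map_smul, Complex.coe_smul]
      exact smul_le_smul_of_nonneg_left hba hc.le
    · rw [← Complex.coe_smul, map_smul, smul_eq_mul, Complex.re_ofReal_mul]
  ext t
  rw [Set.mem_smul_set]
  constructor
  · intro ht
    refine ⟨c⁻¹ * t, ?_, ?_⟩
    · have := key (c • b) (inv_pos.2 hc) t ht
      rwa [smul_smul, inv_mul_cancel₀ hc.ne', one_smul] at this
    · rw [smul_eq_mul, ← mul_assoc, mul_inv_cancel₀ hc.ne', one_mul]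
  · rintro ⟨s, hs, rfl⟩
    exact key b hc s hs

lemma NN_smul (ι : A →⋆ₐ[ℂ] B) (φ : A →ₚ[ℂ] ℂ) (c : ℝ) (hc : 0 < c) (b : selfAdjoint B) :
    NN ι φ (c • b) = c * NN ι φ b := by
  unfold NN
  have : ((c • b : selfAdjoint B) : B) = c • (b : B) := rfl
  rw [this, SS_smul ι φ _ hc, Real.sInf_smul_of_nonneg hc.le, smul_eq_mul]

lemma NN_add (ι : A →⋆ₐ[ℂ] B) (hι : ∀ a, 0 ≤ ι a → 0 ≤ a) (φ : A →ₚ[ℂ] ℂ)
    (b c : selfAdjoint B) : NN ι φ (b + c) ≤ NN ι φ b + NN ι φ c := by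
  unfold NN
  rw [← csInf_add (SS_nonempty ι φ b.2) (SS_bdd ι hι φ b.2) (SS_nonempty ι φ c.2)
    (SS_bdd ι hι φ c.2)]
  refine csInf_le_csInf (SS_bdd ι hι φ (b + c).2)
    ((SS_nonempty ι φ b.2).add (SS_nonempty ι φ c.2)) ?_
  rintro _ ⟨s, ⟨a, ha, hba, rfl⟩, t, ⟨a', ha', hba', rfl⟩, rfl⟩
  refine ⟨a + a', ha.add ha', ?_, ?_⟩
  · rw [map_add]
    exact add_le_add hba hba'
  · rw [map_add, Complex.add_re]

lemma NN_le (ι : A →⋆ₐ[ℂ] B) (hι : ∀ a, 0 ≤ ι a → 0 ≤ a) (φ : A →ₚ[ℂ] ℂ) (b : selfAdjoint B)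
    {a : A} (ha : IsSelfAdjoint a) (h : (b : B) ≤ ι a) : NN ι φ b ≤ (φ a).re :=
  csInf_le (SS_bdd ι hι φ b.2) ⟨a, ha, h, rfl⟩

lemma exists_real_ext (ι : A →⋆ₐ[ℂ] B) (hι : ∀ a, 0 ≤ ι a → 0 ≤ a) (φ : A →ₚ[ℂ] ℂ)
    (b0 : selfAdjoint B) : ∃ g : selfAdjoint B →ₗ[ℝ] ℝ, g b0 = NN ι φ b0 ∧
      ∀ x, g x ≤ NN ι φ x := by
  have h0 : NN ι φ 0 = 0 := by
    have := NN_smul ι φ 2 (by norm_num) 0
    rw [smul_zero] at this
    linarith
  by_cases hb : b0 = 0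
  · obtain ⟨g, hg1, hg2⟩ := exists_extension_of_le_sublinear (⊥ : selfAdjoint B →ₗ.[ℝ] ℝ)
      (NN ι φ) (NN_smul ι φ) (NN_add ι hι φ) (by
        rintro ⟨x, hx⟩
        have hx0 : x = 0 := (Submodule.mem_bot ℝ).1 hx
        subst hx0
        have : ((⊥ : selfAdjoint B →ₗ.[ℝ] ℝ) ⟨0, hx⟩) = 0 := rfl
        rw [this]
        exact h0.ge)
    refine ⟨g, ?_, hg2⟩
    rw [hb, map_zero, h0]
  · obtain ⟨g, hg1, hg2⟩ := exists_extension_of_le_sublinear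
      (LinearPMap.mkSpanSingleton b0 (NN ι φ b0) hb)
      (NN ι φ) (NN_smul ι φ) (NN_add ι hι φ) (by
        rintro ⟨x, hx⟩
        obtain ⟨c, rfl⟩ := Submodule.mem_span_singleton.1 hx
        have h2 : (LinearPMap.mkSpanSingleton b0 (NN ι φ b0) hb) ⟨c • b0, hx⟩ = c * NN ι φ b0 :=
          LinearPMap.mkSpanSingleton'_apply _ _ _ _ _
        rw [h2]
        rcases lt_trichotomy c 0 with hc | hc | hc
        · have h3 := NN_add ι hι φ (c • b0) ((-c) • b0)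
          rw [← add_smul, add_neg_cancel, zero_smul, h0, NN_smul ι φ (-c) (by linarith)] at h3
          show c * NN ι φ b0 ≤ NN ι φ (c • b0)
          linarith
        · subst hc
          show 0 * NN ι φ b0 ≤ NN ι φ ((0 : ℝ) • b0)
          rw [zero_mul, zero_smul, h0]
        · exact (NN_smul ι φ c hc b0).ge)
    refine ⟨g, ?_, hg2⟩
    have h2 := hg1 ⟨b0, Submodule.mem_span_singleton_self b0⟩
    rw [h2]
    exact LinearPMap.mkSpanSingleton'_apply_self _ _ _ _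

/-- the complexification -/
noncomputable def cplx (g : selfAdjoint B →ₗ[ℝ] ℝ) : B →ₗ[ℂ] ℂ :=
  Module.Dual.extendRCLike (𝕜 := ℂ) (g.comp realPart)

omit [PartialOrder B] [StarOrderedRing B] in
lemma cplx_re (g : selfAdjoint B →ₗ[ℝ] ℝ) (x : B) : (cplx g x).re = g (ℜ x) :=
  Module.Dual.re_extendRCLike_apply (𝕜 := ℂ) (g.comp realPart) x

omit [PartialOrder B] [StarOrderedRing B] in
lemma cplx_im (g : selfAdjoint B →ₗ[ℝ] ℝ) (x : B) : (cplx g x).im = g (ℑ x) := by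
  have : (cplx g x).im = - g (ℜ (Complex.I • x)) :=
    Module.Dual.im_extendRCLike_apply (𝕜 := ℂ) (g.comp realPart) x
  rw [this, realPart_I_smul, map_neg, neg_neg]

/-- extension of positive functionals with an extreme value -/
theorem hahn_banach (ι : A →⋆ₐ[ℂ] B) (hι : ∀ a, 0 ≤ ι a → 0 ≤ a) (φ : A →ₚ[ℂ] ℂ) (b0 : B)
    (hb0 : IsSelfAdjoint b0) : ∃ ψ : B →ₚ[ℂ] ℂ, (∀ a, ψ (ι a) = φ a) ∧ ∀ δ : ℝ, 0 < δ →
      ∃ a : A, IsSelfAdjoint a ∧ b0 ≤ ι a ∧ (φ a).re < (ψ b0).re + δ := by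
  obtain ⟨g, hg1, hg2⟩ := exists_real_ext ι hι φ ⟨b0, hb0⟩
  have hpos : ∀ x : B, 0 ≤ x → 0 ≤ cplx g x := by
    intro x hx
    have hsa : IsSelfAdjoint x := .of_nonneg hx
    rw [Complex.le_def, cplx_re, cplx_im, hsa.imaginaryPart, map_zero]
    refine ⟨?_, rfl⟩
    have h1 := hg2 (-(ℜ x))
    have h2 : NN ι φ (-(ℜ x)) ≤ (φ 0).re := by
      refine NN_le ι hι φ _ (IsSelfAdjoint.zero A) ?_
      rw [map_zero]
      have h3 : ((-(ℜ x) : selfAdjoint B) : B) = -x := by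
        rw [NegMemClass.coe_neg, hsa.coe_realPart]
      rw [h3]
      exact neg_nonpos.2 hx
    rw [map_zero, Complex.zero_re] at h2
    rw [map_neg] at h1
    rw [Complex.zero_re]
    linarith
  refine ⟨PositiveLinearMap.mk₀ (cplx g) hpos, ?_, ?_⟩
  · have hre : ∀ a : A, (cplx g (ι a)).re = (φ a).re := by
      intro a
      rw [cplx_re]
      have h1 : ((ℜ (ι a) : selfAdjoint B) : B) = ι (ℜ a : A) := (map_realPart ι a).symm
      have h2 := (hg2 (ℜ (ι a))).trans (NN_le ι hι φ _ (ℜ a).2 h1.le)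
      have h3 := (hg2 (-ℜ (ι a))).trans (NN_le ι hι φ (-ℜ (ι a)) (-(ℜ a)).2 (by
        rw [NegMemClass.coe_neg, h1, NegMemClass.coe_neg, map_neg]))
      rw [map_neg, NegMemClass.coe_neg, map_neg, Complex.neg_re] at h3
      have h4 : (φ (ℜ a : A)).re = (φ a).re := by
        have h5 : φ (ℜ a : A) = (2 : ℂ)⁻¹ * (φ a + star (φ a)) := by
          rw [realPart_apply_coe, ← map_star, ← map_add]
          have : ((2 : ℝ)⁻¹ • (a + star a) : A) = (2 : ℂ)⁻¹ • (a + star a) := by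
            rw [← Complex.coe_smul]
            norm_num
          rw [this, map_smul, smul_eq_mul]
        rw [h5]
        simp
        ring
      linarith
    intro a
    show cplx g (ι a) = φ a
    apply Complex.ext
    · exact hre a
    · have h1 := hre (Complex.I • a)
      rw [map_smul, map_smul, map_smul] at h1
      simpa using h1
  · intro δ hδ
    have h1 : ((PositiveLinearMap.mk₀ (cplx g) hpos) b0).re = NN ι φ ⟨b0, hb0⟩ := by
      show (cplx g b0).re = _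
      rw [cplx_re, ← hg1]
      congr 1
      exact Subtype.ext hb0.coe_realPart
    have h2 : sInf (SS ι φ b0) < (cplx g b0).re + δ := by
      have : NN ι φ ⟨b0, hb0⟩ = sInf (SS ι φ b0) := rfl
      rw [← this, ← h1]
      exact lt_add_of_pos_right _ hδ
    obtain ⟨t, ⟨a, ha, hba, rfl⟩, ht⟩ := exists_lt_of_csInf_lt (SS_nonempty ι φ hb0) h2
    exact ⟨a, ha, hba, ht⟩

end Pool.Agent.W661.Nrm
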