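import Mathlib

/-! # Reduced crossed products, norming, pseudo-expectations: definitions -/

set_option autoImplicit false

open scoped CStarAlgebra ComplexOrder

namespace Pool.Agent.W661.Nrm

universe u v

/-- `B` (with the embedding `ι : A → B`, the unitaries `u g`, and the linear map `E : B → A`) is the
reduced crossed product of the unital C*-algebra `A` by the action `α` of the discrete group `G`: the
pair `(ι, u)` is covariant, the finite sums `∑ ι (a_g) u_g` are dense, and `E` is a faithful positive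
map (the canonical conditional expectation) with `E (ι (a) u_g) = a` for `g = 1` and `= 0` for
`g ≠ 1`. -/
structure IsReducedCrossedProduct {A : Type u} {B : Type v} {G : Type*} [CStarAlgebra A]
    [PartialOrder A] [StarOrderedRing A] [CStarAlgebra B] [Group G] (α : G →* (A ≃⋆ₐ[ℂ] A))
    (ι : A →⋆ₐ[ℂ] B) (u : G →* unitary B) (E : B →L[ℂ] A) : Prop where
  cov : ∀ g a, (u g : B) * ι a * star (u g : B) = ι (α g a)
  dense : DenseRange fun c : G →₀ A => c.sum fun g a => ι a * (u g : B)
  coeff_one : ∀ a, E (ι a) = a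
  coeff_ne : ∀ g a, g ≠ 1 → E (ι a * (u g : B)) = 0
  pos : ∀ b, 0 ≤ E (star b * b)
  faithful : ∀ b, E (star b * b) = 0 → b = 0

/-- `A` (embedded by `ι`) norms `B`: the norm of every matrix `X` over `B` is the supremum of the
norms of `R X C`, for rows `R` and columns `C` over `A` of norm at most one. -/
def Norms {A : Type u} {B : Type v} [CStarAlgebra A] [CStarAlgebra B] [PartialOrder B]
    [StarOrderedRing B] (ι : A →⋆ₐ[ℂ] B) : Prop :=
  ∀ (k : ℕ), 1 ≤ k → ∀ X : CStarMatrix (Fin k) (Fin k) B,
    IsLUB {t : ℝ | ∃ r c : Fin k → A, ‖∑ i, r i * star (r i)‖ ≤ 1 ∧ ‖∑ i, star (c i) * c i‖ ≤ 1 ∧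
      t = ‖∑ i, ∑ j, ι (r i) * X i j * ι (c j)‖} ‖X‖

end Pool.Agent.W661.Nrm
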